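import Mathlib

/-!
Finite convex combinations of elements of a group acting on a compact space, and the
closed invariant sets `Orb Γ x` (orbit closures).
-/

open MeasureTheory Topology

namespace Nil75

universe u v

/-- a finite convex combination of elements of `Γ`. -/
structure Av (Γ : Type*) where
  /-- index type -/
  ι : Type
  /-- it is finite -/
  fin : Fintype ι
  /-- weights -/
  w : ι → ℝ
  /-- group elements -/
  g : ι → Γ
  nonneg : ∀ i, 0 ≤ w i
  sum : (∑ i, w i) = 1

attribute [instance] Av.fin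

namespace Av

variable {Γ : Type*} {X : Type*} [Group Γ] [MulAction Γ X]
variable {E : Type*} [NormedAddCommGroup E] [NormedSpace ℝ E]

/-- action of a convex combination on a function -/
def act (A : Av Γ) (F : X → E) (y : X) : E := ∑ i, A.w i • F (A.g i • y)

/-- the point mass at a group element -/
def dirac (g : Γ) : Av Γ where
  ι := Unit
  fin := inferInstance
  w := fun _ => 1
  g := fun _ => g
  nonneg := fun _ => zero_le_one
  sum := by simp

lemma act_dirac (g : Γ) (F : X → E) (y : X) : (dirac g).act F y = F (g • y) := by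
  simp [act, dirac]

/-- composition: `(A.comp B).act F = A.act (B.act F)`. -/
def comp (A B : Av Γ) : Av Γ where
  ι := A.ι × B.ι
  fin := inferInstance
  w := fun p => A.w p.1 * B.w p.2
  g := fun p => B.g p.2 * A.g p.1
  nonneg := fun p => mul_nonneg (A.nonneg _) (B.nonneg _)
  sum := by
    rw [Fintype.sum_prod_type]
    simp [← Finset.mul_sum, A.sum, B.sum]

lemma act_comp (A B : Av Γ) (F : X → E) : (A.comp B).act F = A.act (B.act F) := by
  funext y
  change (∑ p : A.ι × B.ι, (A.w p.1 * B.w p.2) • F ((B.g p.2 * A.g p.1) • y)) =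
    ∑ i, A.w i • ∑ j, B.w j • F (B.g j • A.g i • y)
  rw [Fintype.sum_prod_type]
  refine Finset.sum_congr rfl fun i _ => ?_
  rw [Finset.smul_sum]
  refine Finset.sum_congr rfl fun j _ => ?_
  simp only [mul_smul]

/-- midpoint of two convex combinations. -/
noncomputable def mid (A B : Av Γ) : Av Γ where
  ι := A.ι ⊕ B.ι
  fin := inferInstance
  w := fun p => Sum.elim (fun i => A.w i / 2) (fun i => B.w i / 2) p
  g := fun p => Sum.elim A.g B.g p
  nonneg := by
    rintro (i | i)
    · exact div_nonneg (A.nonneg _) zero_le_two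
    · exact div_nonneg (B.nonneg _) zero_le_two
  sum := by
    rw [Fintype.sum_sum_type]
    simp only [Sum.elim_inl, Sum.elim_inr]
    rw [← Finset.sum_div, ← Finset.sum_div, A.sum, B.sum]
    norm_num

lemma act_mid (A B : Av Γ) (F : X → E) (y : X) :
    (A.mid B).act F y = (2⁻¹ : ℝ) • (A.act F y + B.act F y) := by
  change (∑ p : A.ι ⊕ B.ι, (Sum.elim (fun i => A.w i / 2) (fun i => B.w i / 2) p) •
    F ((Sum.elim A.g B.g p) • y)) = (2⁻¹ : ℝ) •
      ((∑ i, A.w i • F (A.g i • y)) + ∑ i, B.w i • F (B.g i • y))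
  rw [Fintype.sum_sum_type]
  simp only [Sum.elim_inl, Sum.elim_inr, smul_add, Finset.smul_sum, smul_smul]
  congr 1 <;>
  · refine Finset.sum_congr rfl fun j _ => ?_
    congr 1
    ring

lemma act_const (A : Av Γ) (c : E) (y : X) : A.act (fun _ => c) y = c := by
  simp [act, ← Finset.sum_smul, A.sum]

lemma act_add (A : Av Γ) (F G : X → E) (y : X) :
    A.act (fun y => F y + G y) y = A.act F y + A.act G y := by
  simp [act, Finset.sum_add_distrib]

lemma act_sub (A : Av Γ) (F G : X → E) (y : X) :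
    A.act (fun y => F y - G y) y = A.act F y - A.act G y := by
  simp [act, Finset.sum_sub_distrib, smul_sub]

lemma act_sub_const (A : Av Γ) (F : X → E) (c : E) (y : X) :
    A.act (fun y => F y - c) y = A.act F y - c := by
  rw [act_sub, act_const]

/-- bound on an invariant set. -/
lemma norm_act_le (A : Av Γ) (F : X → E) {S : Set X} (hS : ∀ (g : Γ), ∀ y ∈ S, g • y ∈ S) {M : ℝ}
    (hM : ∀ y ∈ S, ‖F y‖ ≤ M) {y : X} (hy : y ∈ S) : ‖A.act F y‖ ≤ M := by
  calc ‖A.act F y‖ ≤ ∑ i, ‖A.w i • F (A.g i • y)‖ := norm_sum_le _ _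
    _ ≤ ∑ i, A.w i * M := by
      refine Finset.sum_le_sum fun i _ => ?_
      rw [norm_smul, Real.norm_of_nonneg (A.nonneg i)]
      exact mul_le_mul_of_nonneg_left (hM _ (hS _ _ hy)) (A.nonneg i)
    _ = M := by rw [← Finset.sum_mul, A.sum, one_mul]

lemma act_mono (A : Av Γ) {F G : X → ℝ} (h : ∀ y, F y ≤ G y) (y : X) :
    A.act F y ≤ A.act G y :=
  Finset.sum_le_sum fun i _ => mul_le_mul_of_nonneg_left (h _) (A.nonneg i)

/-- Jensen / Cauchy–Schwarz. -/
lemma sq_norm_act_le (A : Av Γ) (F : X → E) (y : X) :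
    ‖A.act F y‖ ^ 2 ≤ A.act (fun y => ‖F y‖ ^ 2) y := by
  have h1 : ‖A.act F y‖ ≤ ∑ i, A.w i * ‖F (A.g i • y)‖ := by
    refine (norm_sum_le _ _).trans (le_of_eq ?_)
    refine Finset.sum_congr rfl fun i _ => ?_
    rw [norm_smul, Real.norm_of_nonneg (A.nonneg i)]
  have h2 : (∑ i, A.w i * ‖F (A.g i • y)‖) ^ 2 ≤ ∑ i, A.w i * ‖F (A.g i • y)‖ ^ 2 := by
    have := (convexOn_pow (𝕜 := ℝ) 2).map_sum_le (t := Finset.univ) (w := A.w)
      (p := fun i => ‖F (A.g i • y)‖) (fun i _ => A.nonneg i) A.sum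
      (fun i _ => Set.mem_Ici.2 (norm_nonneg _))
    simpa [smul_eq_mul] using this
  refine le_trans (pow_le_pow_left₀ (norm_nonneg _) h1 2) ?_
  simpa [act, smul_eq_mul] using h2

lemma continuous_act [TopologicalSpace X] [ContinuousConstSMul Γ X] (A : Av Γ) {F : X → E}
    (hF : Continuous F) : Continuous (A.act F) := by
  unfold act
  fun_prop

/-- transport of convex combinations along a map of groups. -/
def map {Λ : Type*} (ρ : Γ → Λ) (A : Av Γ) : Av Λ where
  ι := A.ι
  fin := A.fin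
  w := A.w
  g := fun i => ρ (A.g i)
  nonneg := A.nonneg
  sum := A.sum

lemma integral_act [MeasurableSpace X] (μ : Measure X)
    (A : Av Γ) {F : X → E} (hF : ∀ i, Integrable (fun y => F (A.g i • y)) μ)
    (hinv : ∀ i, ∫ y, F (A.g i • y) ∂μ = ∫ y, F y ∂μ) :
    ∫ y, A.act F y ∂μ = ∫ y, F y ∂μ := by
  unfold act
  rw [integral_finsetSum (s := Finset.univ) (f := fun i y => A.w i • F (A.g i • y))
    (fun i _ => (hF i).smul (A.w i))]
  simp_rw [integral_smul, hinv]
  rw [← Finset.sum_smul, A.sum, one_smul]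

end Av

section Orb

variable (Γ : Type*) {X : Type*} [Group Γ] [MulAction Γ X] [TopologicalSpace X]

/-- orbit closure -/
def Orb (x : X) : Set X := closure (Set.range fun g : Γ => g • x)

variable {Γ}

lemma isClosed_Orb (x : X) : IsClosed (Orb Γ x) := isClosed_closure

lemma self_mem_Orb (x : X) : x ∈ Orb Γ x := subset_closure ⟨1, one_smul _ _⟩

lemma smul_mem_Orb_self (g : Γ) (x : X) : g • x ∈ Orb Γ x := subset_closure ⟨g, rfl⟩

lemma smul_mem_Orb [ContinuousConstSMul Γ X] (g : Γ) {x y : X} (hy : y ∈ Orb Γ x) :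
    g • y ∈ Orb Γ x := by
  have h : Set.MapsTo (fun y : X => g • y) (Set.range fun g : Γ => g • x)
      (Set.range fun g : Γ => g • x) := by
    rintro _ ⟨g', rfl⟩
    exact ⟨g * g', mul_smul _ _ _⟩
  exact h.closure (continuous_const_smul g) hy

lemma Orb_subset_of_mem [ContinuousConstSMul Γ X] {x : X} {S : Set X} (hS : IsClosed S)
    (hinv : ∀ (g : Γ), ∀ y ∈ S, g • y ∈ S) (hx : x ∈ S) : Orb Γ x ⊆ S :=
  closure_minimal (by rintro _ ⟨g, rfl⟩; exact hinv g _ hx) hS

lemma Orb_subset_Orb [ContinuousConstSMul Γ X] {x y : X} (hy : y ∈ Orb Γ x) : Orb Γ y ⊆ Orb Γ x :=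
  Orb_subset_of_mem (isClosed_Orb x) (fun g _ h => smul_mem_Orb g h) hy

/-- image of an orbit closure under an equivariant continuous map of compact spaces. -/
lemma image_Orb {Λ Y : Type*} [Group Λ] [MulAction Λ Y] [TopologicalSpace Y]
    [CompactSpace X] [T2Space Y] (ρ : Γ → Λ) (hρ : Function.Surjective ρ) {p : X → Y}
    (hp : Continuous p) (heq : ∀ g x, p (g • x) = ρ g • p x) (x : X) :
    p '' (Orb Γ x) = Orb Λ (p x) := by
  apply Set.Subset.antisymm
  · rintro _ ⟨y, hy, rfl⟩
    have h : Set.MapsTo p (Set.range fun g : Γ => g • x) (Set.range fun g : Λ => g • p x) := by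
      rintro _ ⟨g', rfl⟩
      exact ⟨ρ g', (heq _ _).symm⟩
    exact h.closure hp hy
  · refine closure_minimal ?_ ((isClosed_Orb x).isCompact.image hp).isClosed
    rintro _ ⟨g', rfl⟩
    obtain ⟨g, rfl⟩ := hρ g'
    exact ⟨g • x, smul_mem_Orb_self g x, heq _ _⟩

lemma map_mem_Orb {Λ Y : Type*} [Group Λ] [MulAction Λ Y] [TopologicalSpace Y]
    (ρ : Γ → Λ) {p : X → Y} (hp : Continuous p) (heq : ∀ g x, p (g • x) = ρ g • p x) {x y : X}
    (hy : y ∈ Orb Γ x) : p y ∈ Orb Λ (p x) := by
  have h : Set.MapsTo p (Set.range fun g : Γ => g • x) (Set.range fun g : Λ => g • p x) := by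
    rintro _ ⟨g', rfl⟩
    exact ⟨ρ g', (heq _ _).symm⟩
  exact h.closure hp hy

end Orb

end Nil75
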