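import Pool.Agent.Helper75.Nil.Av

/-!
Averaging over a compact abelian group acting continuously.
-/

set_option linter.all false

open MeasureTheory Topology

namespace Nil75

section

variable (H : Type*) [CommGroup H] [TopologicalSpace H] [IsTopologicalGroup H] [CompactSpace H]

/-- normalised Haar measure of a compact group -/
noncomputable def hm : @Measure H (borel H) :=
  letI : MeasurableSpace H := borel H
  haveI : BorelSpace H := ⟨rfl⟩
  Measure.haarMeasure ⊤

lemma hm_prob : @IsProbabilityMeasure H (borel H) (hm H) := by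
  letI : MeasurableSpace H := borel H
  haveI : BorelSpace H := ⟨rfl⟩
  refine ⟨?_⟩
  have := Measure.haarMeasure_self (G := H) (K₀ := ⊤)
  simpa [hm] using this

lemma hm_left : @Measure.IsMulLeftInvariant H (borel H) _ (hm H) := by
  letI : MeasurableSpace H := borel H
  haveI : BorelSpace H := ⟨rfl⟩
  unfold hm
  infer_instance

lemma hm_open : @Measure.IsOpenPosMeasure H _ (borel H) (hm H) := by
  letI : MeasurableSpace H := borel H
  haveI : BorelSpace H := ⟨rfl⟩
  unfold hm
  infer_instance

variable {X : Type*} [MulAction H X]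
variable {E : Type*} [NormedAddCommGroup E] [NormedSpace ℝ E]

/-- average of `F` over the `H`-orbit -/
noncomputable def avg (F : X → E) (y : X) : E :=
  @integral H E _ _ (borel H) (hm H) (fun h => F (h • y))

lemma avg_smul_eq (F : X → E) (h : H) (y : X) : avg H F (h • y) = avg H F y := by
  letI : MeasurableSpace H := borel H
  haveI : BorelSpace H := ⟨rfl⟩
  haveI := hm_left H
  unfold avg
  have h1 : (fun k : H => F (k • h • y)) = fun k : H => (fun k' : H => F (k' • y)) (h * k) := by
    funext k
    simp only [← mul_smul, mul_comm h k]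
  rw [h1]
  exact integral_mul_left_eq_self (μ := hm H) (fun k' : H => F (k' • y)) h

lemma avg_of_inv [CompleteSpace E] {F : X → E} {y : X} (hF : ∀ h : H, F (h • y) = F y) :
    avg H F y = F y := by
  letI : MeasurableSpace H := borel H
  haveI : BorelSpace H := ⟨rfl⟩
  haveI := hm_prob H
  unfold avg
  simp [hF]

lemma norm_avg_le {F : X → E} {y : X} {M : ℝ} (hF : ∀ h : H, ‖F (h • y)‖ ≤ M) :
    ‖avg H F y‖ ≤ M := by
  letI : MeasurableSpace H := borel H
  haveI : BorelSpace H := ⟨rfl⟩
  haveI := hm_prob H
  unfold avg
  have := norm_integral_le_of_norm_le_const (μ := hm H) (f := fun h : H => F (h • y))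
    (Filter.Eventually.of_forall hF)
  simpa using this

lemma avg_nonneg {F : X → ℝ} {y : X} (hF : ∀ h : H, 0 ≤ F (h • y)) : 0 ≤ avg H F y := by
  letI : MeasurableSpace H := borel H
  haveI : BorelSpace H := ⟨rfl⟩
  exact integral_nonneg hF

variable [TopologicalSpace X] [ContinuousSMul H X]

lemma integrable_of_cont [SecondCountableTopology E] {f : H → E} (hf : Continuous f) :
    (letI : MeasurableSpace H := borel H; Integrable f (hm H)) := by
  letI : MeasurableSpace H := borel H
  haveI : BorelSpace H := ⟨rfl⟩
  haveI := hm_prob H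
  obtain ⟨M, hM⟩ := (isCompact_range hf).isBounded.exists_norm_le
  borelize E
  exact Integrable.of_bound hf.measurable.aestronglyMeasurable M
    (Filter.Eventually.of_forall fun h => hM _ ⟨h, rfl⟩)

lemma avg_add [SecondCountableTopology E] {F G : X → E} (hF : Continuous F) (hG : Continuous G)
    (y : X) : avg H (fun y => F y + G y) y = avg H F y + avg H G y := by
  letI : MeasurableSpace H := borel H
  haveI : BorelSpace H := ⟨rfl⟩
  unfold avg
  exact integral_add (f := fun h : H => F (h • y)) (g := fun h : H => G (h • y))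
    (integrable_of_cont H (by fun_prop)) (integrable_of_cont H (by fun_prop))

lemma avg_const_mul (c : ℝ) {F : X → ℝ} (y : X) :
    avg H (fun y => c * F y) y = c * avg H F y := by
  letI : MeasurableSpace H := borel H
  haveI : BorelSpace H := ⟨rfl⟩
  unfold avg
  exact integral_const_mul c _

lemma continuous_avg [FirstCountableTopology X] [LocallyCompactSpace X] [SecondCountableTopology E]
    {F : X → E} (hF : Continuous F) : Continuous (avg H F) := by
  letI : MeasurableSpace H := borel H
  haveI : BorelSpace H := ⟨rfl⟩
  haveI := hm_prob H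
  have h := continuous_parametric_integral_of_continuous (μ := hm H) (X := X) (Y := H)
    (f := fun y h => F (h • y)) (by
      change Continuous (fun p : X × H => F (p.2 • p.1))
      fun_prop) (isCompact_univ (X := H))
  simp only [Measure.restrict_univ] at h
  exact h

/-- averaging does not change the integral against an `H`-invariant function. -/
lemma integral_mul_avg [SecondCountableTopology X] [CompactSpace X] [MeasurableSpace X]
    [BorelSpace X] {μ : Measure X} [IsProbabilityMeasure μ]
    (hμ : ∀ h : H, MeasurePreserving (fun y : X => h • y) μ μ)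
    {φ : X → ℂ} (hφ : Integrable φ μ) (hinv : ∀ h : H, (fun y => φ (h • y)) =ᵐ[μ] φ)
    {ψ : X → ℂ} (hψ : Continuous ψ) :
    ∫ y, φ y * avg H ψ y ∂μ = ∫ y, φ y * ψ y ∂μ := by
  letI : MeasurableSpace H := borel H
  haveI : BorelSpace H := ⟨rfl⟩
  haveI := hm_prob H
  unfold avg
  have h1 : ∀ y, φ y * ∫ h : H, ψ (h • y) ∂(hm H) = ∫ h : H, φ y * ψ (h • y) ∂(hm H) := fun y =>
    (integral_const_mul _ _).symm
  simp_rw [h1]
  obtain ⟨M, hM⟩ := (isCompact_range hψ).isBounded.exists_norm_le
  have hint : Integrable (Function.uncurry fun (y : X) (h : H) => φ y * ψ (h • y))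
      (μ.prod (hm H)) := by
    have h2 : Integrable (fun p : X × H => φ p.1) (μ.prod (hm H)) := hφ.comp_fst (hm H)
    have h3 : Continuous (fun p : X × H => ψ (p.2 • p.1)) := by fun_prop
    exact h2.mul_bdd (c := M) h3.measurable.aestronglyMeasurable
      (Filter.Eventually.of_forall fun p => hM _ ⟨_, rfl⟩)
  rw [integral_integral_swap hint]
  have h4 : ∀ h : H, ∫ y, φ y * ψ (h • y) ∂μ = ∫ y, φ y * ψ y ∂μ := by
    intro h
    have h5 : ∫ y, φ y * ψ (h • y) ∂μ = ∫ y, φ (h • y) * ψ (h • y) ∂μ := by
      refine integral_congr_ae ?_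
      filter_upwards [hinv h] with y hy
      rw [← hy]
    rw [h5]
    have hemb : MeasurableEmbedding (fun y : X => h • y) :=
      (Homeomorph.smul h).measurableEmbedding
    exact (hμ h).integral_comp hemb (fun y => φ y * ψ y)
  simp_rw [h4]
  simp

lemma integral_avg [SecondCountableTopology X] [CompactSpace X] [MeasurableSpace X]
    [BorelSpace X] {μ : Measure X} [IsProbabilityMeasure μ]
    (hμ : ∀ h : H, MeasurePreserving (fun y : X => h • y) μ μ)
    {ψ : X → ℂ} (hψ : Continuous ψ) :
    ∫ y, avg H ψ y ∂μ = ∫ y, ψ y ∂μ := by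
  have := integral_mul_avg H hμ (φ := fun _ => 1) (integrable_const _)
    (fun h => Filter.EventuallyEq.rfl) hψ
  simpa using this

end

end Nil75
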