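import Pool.Agent.Helper75.Nil.Mean

/-!
The averaging property passes to extensions with the cube (star) property.
-/

set_option linter.all false

open MeasureTheory Topology
open scoped ENNReal

namespace Nil75

universe uX uY

lemma Av.act_ofReal {Γ X : Type*} [Group Γ] [MulAction Γ X] (B : Av Γ) (r : X → ℝ) (y : X) :
    B.act (fun y => ((r y : ℝ) : ℂ)) y = ((B.act r y : ℝ) : ℂ) := by
  unfold Av.act
  push_cast
  refine Finset.sum_congr rfl fun i _ => ?_
  rw [Complex.real_smul]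
  simp

/-- separation of points by characters -/
def CharSep (H : Type*) [CommGroup H] [TopologicalSpace H] : Prop :=
  ∀ h : H, h ≠ 1 → ∃ χ : H →* Circle, Continuous χ ∧ χ h ≠ 1

section havg

variable {X : Type*} [TopologicalSpace X] {Γ : Type*} [Group Γ] [MulAction Γ X]
  [ContinuousConstSMul Γ X]

/-- hereditary averaging property of a function -/
def HAvg (Γ : Type*) {X : Type*} [TopologicalSpace X] [Group Γ] [MulAction Γ X]
    (x : X) (F : X → ℂ) : Prop :=
  ∀ (A₀ : Av Γ) (ε : ℝ), 0 < ε → ∃ (A : Av Γ) (c : ℂ), ∀ y ∈ Orb Γ x, ‖A.act (A₀.act F) y - c‖ ≤ ε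

lemma HAvg.add {x : X} {F G : X → ℂ} (hF : HAvg Γ x F) (hG : HAvg Γ x G) :
    HAvg Γ x (fun y => F y + G y) := by
  intro A₀ ε hε
  obtain ⟨A₁, c₁, h₁⟩ := hF A₀ (ε / 2) (half_pos hε)
  obtain ⟨A₂, c₂, h₂⟩ := hG (A₁.comp A₀) (ε / 2) (half_pos hε)
  refine ⟨A₂.comp A₁, c₁ + c₂, fun y hy => ?_⟩
  have e1 : A₀.act (fun y => F y + G y) = fun y => A₀.act F y + A₀.act G y := by
    funext y; exact A₀.act_add F G y
  have e2 : A₁.act (fun y => A₀.act F y + A₀.act G y) =
      fun y => A₁.act (A₀.act F) y + A₁.act (A₀.act G) y := by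
    funext y; exact A₁.act_add _ _ y
  rw [Av.act_comp, e1, e2, A₂.act_add]
  have e3 : ‖A₂.act (A₁.act (A₀.act F)) y - c₁‖ ≤ ε / 2 := by
    rw [← A₂.act_sub_const]
    exact A₂.norm_act_le _ (S := Orb Γ x) (fun g y hy => smul_mem_Orb g hy) h₁ hy
  have e4 := h₂ y hy
  rw [Av.act_comp] at e4
  calc _ = ‖(A₂.act (A₁.act (A₀.act F)) y - c₁) + (A₂.act (A₁.act (A₀.act G)) y - c₂)‖ := by
        congr 1; ring
    _ ≤ ε / 2 + ε / 2 := (norm_add_le _ _).trans (add_le_add e3 e4)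
    _ = ε := by ring

lemma HAvg.lim {x : X} {F : X → ℂ}
    (h : ∀ ε : ℝ, 0 < ε → ∃ G : X → ℂ, (∀ y, ‖F y - G y‖ ≤ ε) ∧ HAvg Γ x G) : HAvg Γ x F := by
  intro A₀ ε hε
  obtain ⟨G, hFG, hG⟩ := h (ε / 2) (half_pos hε)
  obtain ⟨A, c, hA⟩ := hG A₀ (ε / 2) (half_pos hε)
  refine ⟨A, c, fun y hy => ?_⟩
  have e1 : ∀ y, ‖A₀.act F y - A₀.act G y‖ ≤ ε / 2 := by
    intro y
    rw [← A₀.act_sub]
    exact A₀.norm_act_le _ (S := Set.univ) (fun _ _ _ => trivial) (fun y _ => hFG y) trivial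
  have e2 : ‖A.act (A₀.act F) y - A.act (A₀.act G) y‖ ≤ ε / 2 := by
    rw [← A.act_sub]
    exact A.norm_act_le _ (S := Set.univ) (fun _ _ _ => trivial) (fun y _ => e1 y) trivial
  calc _ = ‖(A.act (A₀.act F) y - A.act (A₀.act G) y) + (A.act (A₀.act G) y - c)‖ := by
        congr 1; ring
    _ ≤ ε / 2 + ε / 2 := (norm_add_le _ _).trans (add_le_add e2 (hA y hy))
    _ = ε := by ring

end havg

section avg2

variable (H : Type*) [CommGroup H] [TopologicalSpace H] [IsTopologicalGroup H] [CompactSpace H]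
variable {X : Type*} [MulAction H X] [TopologicalSpace X] [ContinuousSMul H X]

/-- twisted average -/
noncomputable def avg2 (G : H × X → ℂ) (y : X) : ℂ :=
  @integral H ℂ _ _ (borel H) (hm H) (fun k => G (k⁻¹, k • y))

lemma avg2_add {F G : H × X → ℂ} (hF : Continuous F) (hG : Continuous G)
    (y : X) : avg2 H (fun p => F p + G p) y = avg2 H F y + avg2 H G y := by
  letI : MeasurableSpace H := borel H
  haveI : BorelSpace H := ⟨rfl⟩
  unfold avg2
  exact integral_add (f := fun k : H => F (k⁻¹, k • y)) (g := fun k : H => G (k⁻¹, k • y))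
    (integrable_of_cont H (by fun_prop)) (integrable_of_cont H (by fun_prop))

lemma norm_avg2_sub_le {F G : H × X → ℂ} (hF : Continuous F) (hG : Continuous G) {ε : ℝ}
    (h : ∀ p, ‖F p - G p‖ ≤ ε) (y : X) : ‖avg2 H F y - avg2 H G y‖ ≤ ε := by
  letI : MeasurableSpace H := borel H
  haveI : BorelSpace H := ⟨rfl⟩
  haveI := hm_prob H
  unfold avg2
  have h1 : (∫ k : H, F (k⁻¹, k • y) ∂(hm H)) - ∫ k : H, G (k⁻¹, k • y) ∂(hm H) =
      ∫ k : H, (F (k⁻¹, k • y) - G (k⁻¹, k • y)) ∂(hm H) :=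
    (integral_sub (f := fun k : H => F (k⁻¹, k • y)) (g := fun k : H => G (k⁻¹, k • y))
    (integrable_of_cont H (by fun_prop)) (integrable_of_cont H (by fun_prop))).symm
  rw [h1]
  have := norm_integral_le_of_norm_le_const (μ := hm H)
    (f := fun k : H => F (k⁻¹, k • y) - G (k⁻¹, k • y)) (C := ε)
    (Filter.Eventually.of_forall fun k => h _)
  simpa using this

lemma avg2_orbit {F : X → ℂ} (y : X) : avg2 H (fun p : H × X => F (p.1 • p.2)) y = F y := by
  letI : MeasurableSpace H := borel H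
  haveI : BorelSpace H := ⟨rfl⟩
  haveI := hm_prob H
  unfold avg2
  simp

lemma continuous_avg2 [FirstCountableTopology X] [LocallyCompactSpace X]
    {F : H × X → ℂ} (hF : Continuous F) : Continuous (avg2 H F) := by
  letI : MeasurableSpace H := borel H
  haveI : BorelSpace H := ⟨rfl⟩
  haveI := hm_prob H
  have h := continuous_parametric_integral_of_continuous (μ := hm H) (X := X) (Y := H)
    (f := fun y k => F (k⁻¹, k • y)) (by
      change Continuous (fun p : X × H => F (p.2⁻¹, p.2 • p.1))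
      fun_prop) (isCompact_univ (X := H))
  simp only [Measure.restrict_univ] at h
  exact h

lemma avg2_char (χ : H →* Circle) (θ : X → ℂ) (h : H) (y : X) :
    avg2 H (fun p : H × X => (χ p.1 : ℂ) * θ p.2) (h • y) =
      χ h * avg2 H (fun p : H × X => (χ p.1 : ℂ) * θ p.2) y := by
  letI : MeasurableSpace H := borel H
  haveI : BorelSpace H := ⟨rfl⟩
  haveI := hm_left H
  unfold avg2
  simp only
  have h1 : (fun k : H => (χ k⁻¹ : ℂ) * θ (k • h • y)) =
      fun k : H => (fun k' : H => (χ h : ℂ) * ((χ k'⁻¹ : ℂ) * θ (k' • y))) (h * k) := by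
    funext k
    simp only
    rw [← mul_smul, mul_comm h k, ← mul_assoc, ← Circle.coe_mul, ← map_mul]
    congr 3
    rw [mul_inv_rev]
    group
  rw [h1, integral_mul_left_eq_self (μ := hm H)
    (fun k' : H => (χ h : ℂ) * ((χ k'⁻¹ : ℂ) * θ (k' • y))) h, integral_const_mul]

end avg2

section main

variable {Γ Z : Type*} {X : Type uX} {X' : Type uY} [Group Γ] [CommGroup Z] [TopologicalSpace Z]
  [IsTopologicalGroup Z] [CompactSpace Z] [T2Space Z]
  [TopologicalSpace X] [CompactSpace X] [T2Space X] [SecondCountableTopology X]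
  [MeasurableSpace X] [BorelSpace X]
  [MulAction Γ X] [ContinuousConstSMul Γ X] [MulAction Z X] [ContinuousSMul Z X]
  [SMulCommClass Γ Z X]
  [TopologicalSpace X'] [CompactSpace X'] [T2Space X'] [SecondCountableTopology X']
  [MeasurableSpace X'] [BorelSpace X']
  [MulAction Γ X'] [ContinuousConstSMul Γ X']

lemma act_eigen (A : Av Γ) {x : X} {F : X → ℂ} (χ : stab Γ Z x →* Circle)
    (hFχ : ∀ (h : stab Γ Z x) y, F (h • y) = χ h * F y) (h : stab Γ Z x) (y : X) :
    A.act F (h • y) = χ h * A.act F y := by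
  unfold Av.act
  rw [Finset.mul_sum]
  refine Finset.sum_congr rfl fun i _ => ?_
  have : A.g i • h • y = h • A.g i • y := smul_comm (A.g i) (h : Z) y
  rw [this, hFχ, Complex.real_smul, Complex.real_smul]
  ring

variable {π : X → X'} (hπ : IsExt Γ Z π) {x : X} {n : ℕ}
  (hmin : ∀ y ∈ Orb Γ x, x ∈ Orb Γ y)
  (hA' : AvgProp Γ (π x))
  (hminn : ∀ y ∈ Orb (HK n Γ) (fun _ : Cube n => x), (fun _ : Cube n => x) ∈ Orb (HK n Γ) y)
  (hAn' : AvgProp (HK n Γ) (fun _ : Cube n => π x))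
  {m : Measure (Cube n → X)} (hm : IsInv (HK n Γ) (fun _ => x) m)
  (hmH : ∀ h : stab (HK n Γ) (Cube n → Z) (fun _ : Cube n => x),
    MeasurePreserving (fun y : Cube n → X => h • y) m m)
  {μ : Measure X} (hμ : IsInv Γ x μ)
  (hμH : ∀ h : stab Γ Z x, MeasurePreserving (fun y : X => h • y) μ μ)
  (hACE : ACE n m μ)
  {sg : Cube n → Bool} (hsg : sg ⊥ = true)
  (hstar : ∀ z ∈ stab (HK n Γ) (Cube n → Z) (fun _ : Cube n => x),
    ∏ v, (if sg v then z v else (z v)⁻¹) = 1)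

include hπ hmin hA' hminn hAn' hm hmH hμ hμH hACE hsg hstar

/-- eigenfunctions: averages converge uniformly to constants -/
lemma avg_eigen {F : X → ℂ} (hF : Continuous F) (χ : stab Γ Z x →* Circle)
    (hFχ : ∀ (h : stab Γ Z x) y, F (h • y) = χ h * F y) {ε : ℝ} (hε : 0 < ε) :
    ∃ (A : Av Γ) (c : ℂ), ∀ y ∈ Orb Γ x, ‖A.act F y - c‖ ≤ ε := by
  haveI := hμ.prob
  by_cases hχ : ∀ h, χ h = 1
  · refine avg_of_stab_inv hπ hmin hA' hF (fun h y _ => ?_) hε
    rw [hFχ, hχ]; simp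
  push Not at hχ
  obtain ⟨h₀, hh₀⟩ := hχ
  haveI : SMulCommClass Γ (stab Γ Z x) X := ⟨fun g h y => smul_comm g (h : Z) y⟩
  obtain ⟨f, hfcl, hfΓ, hfH⟩ := exists_limit hμ.inv hμH hF (fun h => (χ h : ℂ)) hFχ
  have hfm : AEStronglyMeasurable f μ := Lp.aestronglyMeasurable f
  -- constant modulus
  set φ : X → ℂ := fun y => ((1 / (1 + ‖f y‖) : ℝ) : ℂ) with hφ
  have hφm : AEStronglyMeasurable φ μ := by
    have h1 : Continuous fun w : ℂ => ((1 / (1 + ‖w‖) : ℝ) : ℂ) := by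
      refine Complex.continuous_ofReal.comp (continuous_const.div (by fun_prop) fun w => ?_)
      positivity
    exact h1.comp_aestronglyMeasurable hfm
  have hφc := const_of_inv hπ hmin hA' hμ hμH hφm (M := 1)
    (Filter.Eventually.of_forall fun y => by
      rw [hφ]
      simp only
      rw [Complex.norm_real, Real.norm_of_nonneg (by positivity), div_le_one (by positivity)]
      linarith [norm_nonneg (f y)])
    (fun g => by
      filter_upwards [hfΓ g] with y hy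
      simp only [hφ]
      rw [hy])
    (fun h => by
      filter_upwards [hfH h] with y hy
      simp only [hφ]
      rw [hy, norm_mul, Circle.norm_coe, one_mul])
  obtain ⟨y₀, hy₀⟩ := hφc.exists
  set d : ℝ := ‖f y₀‖ with hd
  have hmod : ∀ᵐ y ∂μ, ‖f y‖ = d := by
    filter_upwards [hφc] with y hy
    have h1 : φ y = φ y₀ := by rw [hy, hy₀]
    simp only [hφ] at h1
    have h2 : (1 / (1 + ‖f y‖) : ℝ) = 1 / (1 + ‖f y₀‖) := by exact_mod_cast h1
    have h3 : 1 + ‖f y‖ = 1 + ‖f y₀‖ := by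
      rw [one_div, one_div] at h2
      exact inv_injective h2
    linarith
  have hd0 : d = 0 := by
    by_contra hdne
    have hdpos : 0 < d := lt_of_le_of_ne (norm_nonneg _) (Ne.symm hdne)
    refine hh₀ (eigen_one hπ hmin hminn hAn' hm hmH hμ hμH hACE hsg hstar
      (f := fun y => ((d⁻¹ : ℝ) : ℂ) * f y) (hfm.const_mul _) ?_ ?_ χ ?_ h₀)
    · filter_upwards [hmod] with y hy
      rw [norm_mul, Complex.norm_real, Real.norm_of_nonneg (by positivity), hy,
        inv_mul_cancel₀ hdne]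
    · intro g
      filter_upwards [hfΓ g] with y hy
      rw [hy]
    · intro h
      filter_upwards [hfH h] with y hy
      rw [hy]; ring
  have hf0 : f = 0 := by
    refine Lp.ext ?_
    filter_upwards [hmod, Lp.coeFn_zero ℂ 2 μ] with y hy hy2
    rw [hy2, hd0] at *
    exact norm_eq_zero.1 hy
  rw [hf0] at hfcl
  set δ : ℝ := ε / 2 with hδ
  have hδpos : 0 < δ := half_pos hε
  obtain ⟨_, ⟨A, rfl⟩, hA⟩ := Metric.mem_closure_iff.1 hfcl δ hδpos
  rw [dist_eq_norm, zero_sub, norm_neg] at hA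
  have hAc : Continuous (A.act F) := A.continuous_act hF
  have hA2 : ∫ y, ‖A.act F y‖ ^ 2 ∂μ ≤ δ ^ 2 := by
    rw [← norm_sq_toLp μ hAc]
    exact pow_le_pow_left₀ (norm_nonneg _) hA.le 2
  have hGc : Continuous fun y => ((‖A.act F y‖ ^ 2 : ℝ) : ℂ) := by fun_prop
  obtain ⟨B, c, hB⟩ := avg_of_stab_inv hπ hmin hA' hGc (fun h y _ => by
    rw [act_eigen A χ hFχ, norm_mul, Circle.norm_coe, one_mul]) (ε := δ ^ 2) (by positivity)
  have hBm := mean_est hμ B hGc hB
  refine ⟨B.comp A, 0, fun y hy => ?_⟩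
  rw [sub_zero, Av.act_comp]
  have h1 := B.sq_norm_act_le (A.act F) y
  have h2 : B.act (fun y => ‖A.act F y‖ ^ 2) y ≤ 3 * δ ^ 2 := by
    have h3 := hB y hy
    rw [Av.act_ofReal] at h3
    rw [integral_complex_ofReal] at hBm
    have h4 : ‖((B.act (fun y => ‖A.act F y‖ ^ 2) y : ℝ) : ℂ)‖ ≤ 3 * δ ^ 2 := by
      have h5 : ‖((∫ y, ‖A.act F y‖ ^ 2 ∂μ : ℝ) : ℂ)‖ ≤ δ ^ 2 := by
        rw [Complex.norm_real, Real.norm_of_nonneg (integral_nonneg fun y => sq_nonneg _)]
        exact hA2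
      calc ‖((B.act (fun y => ‖A.act F y‖ ^ 2) y : ℝ) : ℂ)‖
          = ‖(((B.act (fun y => ‖A.act F y‖ ^ 2) y : ℝ) : ℂ) - c) -
            (((∫ y, ‖A.act F y‖ ^ 2 ∂μ : ℝ) : ℂ) - c) +
            ((∫ y, ‖A.act F y‖ ^ 2 ∂μ : ℝ) : ℂ)‖ := by congr 1; ring
        _ ≤ (δ ^ 2 + δ ^ 2) + δ ^ 2 := by
            refine (norm_add_le _ _).trans (add_le_add ((norm_sub_le _ _).trans
              (add_le_add h3 hBm)) h5)
        _ = 3 * δ ^ 2 := by ring
    rw [Complex.norm_real] at h4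
    exact (le_abs_self _).trans h4
  have h6 : ‖B.act (A.act F) y‖ ^ 2 ≤ (2 * δ) ^ 2 := by
    calc ‖B.act (A.act F) y‖ ^ 2 ≤ 3 * δ ^ 2 := h1.trans h2
      _ ≤ (2 * δ) ^ 2 := by nlinarith [sq_nonneg δ]
  have h7 := abs_le_of_sq_le_sq h6 (by positivity)
  have h8 := (abs_le.1 (abs_le_abs_of_nonneg' h7)).2
  linarith
where
  abs_le_abs_of_nonneg' {a b : ℝ} (h : |a| ≤ b) : |a| ≤ b := h

/-- the averaging property for the extension -/
lemma avg_step (hchar : CharSep (stab Γ Z x)) : AvgProp Γ x := by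
  haveI : T2Space (stab Γ Z x) := inferInstance
  set H := stab Γ Z x with hH
  -- the family of characters
  let S₀ : Set C(H, ℂ) := {φ | ∃ χ : H →* Circle, Continuous χ ∧ ∀ h, φ h = (χ h : ℂ)}
  have key : ∀ G : H × X → ℂ, Continuous G → HAvg Γ x (avg2 H G) := by
    refine prod_dense_gen S₀ ⟨1, continuous_const, fun h => by simp⟩ ?_ ?_ ?_
      (fun G => HAvg Γ x (avg2 H G)) ?_ ?_ ?_
    · rintro φ ⟨χ, hχ, h1⟩ φ' ⟨χ', hχ', h1'⟩
      exact ⟨χ * χ', hχ.mul hχ', fun h => by simp [h1, h1']⟩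
    · rintro φ ⟨χ, hχ, h1⟩
      refine ⟨χ⁻¹, hχ.inv, fun h => ?_⟩
      change star (φ h) = (((χ h)⁻¹ : Circle) : ℂ)
      rw [h1, Circle.coe_inv_eq_conj]
      rfl
    · intro a b hab
      have h1 : a / b ≠ 1 := fun h => hab (div_eq_one.1 h)
      obtain ⟨χ, hχ, h2⟩ := hchar _ h1
      refine ⟨⟨fun h => (χ h : ℂ), by fun_prop⟩, ⟨χ, hχ, fun h => rfl⟩, fun h => h2 ?_⟩
      have h3 : χ a = χ b := Circle.ext h
      rw [map_div, h3, div_self']
    · rintro φ ⟨χ, hχ, h1⟩ θ A₀ ε hε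
      have e1 : (fun p : H × X => φ p.1 * θ p.2) = fun p => (χ p.1 : ℂ) * θ p.2 := by
        funext p; rw [h1]
      rw [e1]
      have hc : Continuous (avg2 H fun p : H × X => (χ p.1 : ℂ) * θ p.2) :=
        continuous_avg2 H (by fun_prop)
      have hχeq : ∀ (h : H) y, avg2 H (fun p : H × X => (χ p.1 : ℂ) * θ p.2) (h • y) =
          χ h * avg2 H (fun p : H × X => (χ p.1 : ℂ) * θ p.2) y := avg2_char H χ θ
      exact avg_eigen hπ hmin hA' hminn hAn' hm hmH hμ hμH hACE hsg hstar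
        (A₀.continuous_act hc) χ (act_eigen A₀ χ hχeq) hε
    · intro F G hF hG hPF hPG
      have : avg2 H (fun p => F p + G p) = fun y => avg2 H F y + avg2 H G y := by
        funext y; exact avg2_add H hF hG y
      change HAvg Γ x (avg2 H (fun p => F p + G p))
      rw [this]
      exact hPF.add hPG
    · intro F hF happ
      refine HAvg.lim fun ε hε => ?_
      obtain ⟨G, hG, hFG, hPG⟩ := happ ε hε
      exact ⟨_, fun y => norm_avg2_sub_le H hF hG hFG y, hPG⟩
  intro F hF ε hε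
  have h1 := key (fun p : H × X => F (p.1 • p.2)) (by fun_prop)
  have h2 : avg2 H (fun p : H × X => F (p.1 • p.2)) = F := by
    funext y; exact avg2_orbit H y
  rw [h2] at h1
  obtain ⟨A, c, hA⟩ := h1 (Av.dirac 1) ε hε
  refine ⟨A, c, fun y hy => ?_⟩
  have h3 : (Av.dirac (1 : Γ)).act F = F := by
    funext y; rw [Av.act_dirac, one_smul]
  have h4 := hA y hy
  rwa [h3] at h4

end main

end Nil75
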