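import Pool.Agent.Helper75.Nil.CubeDyn

/-!
Approximate continuity of conditional expectations onto the base point.
-/

set_option linter.all false

open MeasureTheory Topology

namespace Nil75

universe uX uY

/-- sums of products are uniformly dense. -/
lemma prod_dense_gen {X : Type uX} {Y : Type uY} [TopologicalSpace X] [CompactSpace X] [T2Space X]
    [TopologicalSpace Y] [CompactSpace Y] [T2Space Y] (S₀ : Set C(X, ℂ))
    (h1 : (1 : C(X, ℂ)) ∈ S₀) (hmul₀ : ∀ φ ∈ S₀, ∀ φ' ∈ S₀, φ * φ' ∈ S₀)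
    (hstar₀ : ∀ φ ∈ S₀, star φ ∈ S₀) (hsep₀ : ∀ x y : X, x ≠ y → ∃ φ ∈ S₀, φ x ≠ φ y)
    (P : (X × Y → ℂ) → Prop)
    (hprod : ∀ φ ∈ S₀, ∀ (θ : C(Y, ℂ)), P (fun p => φ p.1 * θ p.2))
    (hadd : ∀ F G : X × Y → ℂ, Continuous F → Continuous G → P F → P G → P (fun p => F p + G p))
    (hlim : ∀ F : X × Y → ℂ, Continuous F → (∀ ε : ℝ, 0 < ε → ∃ G : X × Y → ℂ, Continuous G ∧
      (∀ p, ‖F p - G p‖ ≤ ε) ∧ P G) → P F) :
    ∀ F : X × Y → ℂ, Continuous F → P F := by
  -- the span of products as a star subalgebra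
  let s : Set C(X × Y, ℂ) := {F | ∃ φ ∈ S₀, ∃ (θ : C(Y, ℂ)),
    F = ⟨fun p => φ p.1 * θ p.2, by fun_prop⟩}
  let S : Submodule ℂ C(X × Y, ℂ) := Submodule.span ℂ s
  have hone : (1 : C(X × Y, ℂ)) ∈ S := Submodule.subset_span ⟨1, h1, 1, by ext p; simp⟩
  have hmul : ∀ F ∈ S, ∀ G ∈ S, F * G ∈ S := by
    intro F hF G hG
    have h1 : F * G ∈ S * S := Submodule.mul_mem_mul hF hG
    have h2 : S * S ≤ S := by
      change Submodule.span ℂ s * Submodule.span ℂ s ≤ S
      rw [Submodule.span_mul_span]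
      refine Submodule.span_mono ?_
      rintro _ ⟨_, ⟨φ, hφ, θ, rfl⟩, _, ⟨φ', hφ', θ', rfl⟩, rfl⟩
      refine ⟨φ * φ', hmul₀ _ hφ _ hφ', θ * θ', ?_⟩
      ext p
      simp only [ContinuousMap.mul_apply, ContinuousMap.coe_mk]
      ring
    exact h2 h1
  have hstar : ∀ F ∈ S, star F ∈ S := by
    intro F hF
    induction hF using Submodule.span_induction with
    | mem F hF =>
      obtain ⟨φ, hφ, θ, rfl⟩ := hF
      refine Submodule.subset_span ⟨star φ, hstar₀ _ hφ, star θ, ?_⟩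
      ext p
      simp
    | zero => simp
    | add F G _ _ hF hG => rw [star_add]; exact S.add_mem hF hG
    | smul c F _ hF => rw [star_smul]; exact S.smul_mem _ hF
  let A : StarSubalgebra ℂ C(X × Y, ℂ) :=
    { carrier := S
      mul_mem' := fun hF hG => hmul _ hF _ hG
      one_mem' := hone
      add_mem' := fun hF hG => S.add_mem hF hG
      zero_mem' := S.zero_mem
      algebraMap_mem' := fun r => by
        rw [Algebra.algebraMap_eq_smul_one]
        exact S.smul_mem _ hone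
      star_mem' := fun hF => hstar _ hF }
  have hsep : A.SeparatesPoints := by
    intro p q hpq
    have hpq' : p.1 ≠ q.1 ∨ p.2 ≠ q.2 := by
      by_contra h
      push Not at h
      exact hpq (Prod.ext h.1 h.2)
    rcases hpq' with h | h
    · obtain ⟨φ, hφ, hφne⟩ := hsep₀ _ _ h
      refine ⟨_, ⟨⟨fun p => φ p.1 * (1 : C(Y, ℂ)) p.2, by fun_prop⟩,
        Submodule.subset_span ⟨φ, hφ, 1, rfl⟩, rfl⟩, ?_⟩
      simpa using hφne
    · obtain ⟨f, hf1, hf2, -⟩ := exists_continuous_zero_one_of_isClosed (isClosed_singleton (x := p.2))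
        (isClosed_singleton (x := q.2)) (by simpa using h)
      let φ : C(Y, ℂ) := ⟨fun y => (f y : ℂ), by fun_prop⟩
      refine ⟨_, ⟨⟨fun p => (1 : C(X, ℂ)) p.1 * φ p.2, by fun_prop⟩,
        Submodule.subset_span ⟨1, h1, φ, rfl⟩, rfl⟩, ?_⟩
      have h1 : f p.2 = 0 := hf1 rfl
      have h2 : f q.2 = 1 := hf2 rfl
      simp [φ, h1, h2]
  have htop := ContinuousMap.starSubalgebra_topologicalClosure_eq_top_of_separatesPoints A hsep
  have hPS : ∀ F ∈ S, P F := by
    intro F hF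
    induction hF using Submodule.span_induction with
    | mem F hF =>
      obtain ⟨φ, hφ, θ, rfl⟩ := hF
      exact hprod φ hφ θ
    | zero =>
      have := hprod 1 h1 0
      convert this using 1
      funext p
      simp
    | add F G _ _ hF hG => exact hadd F G F.continuous G.continuous hF hG
    | smul c F hF' hF =>
      have key : ∀ G ∈ S, ∀ c : ℂ, P (fun p => c * G p) := by
        intro G hG
        induction hG using Submodule.span_induction with
        | mem G hG =>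
          obtain ⟨φ, hφ, θ, rfl⟩ := hG
          intro c
          have := hprod φ hφ (c • θ)
          convert this using 1
          funext p
          simp only [ContinuousMap.coe_mk, ContinuousMap.coe_smul, Pi.smul_apply, smul_eq_mul]
          ring
        | zero =>
          intro c
          have := hprod 1 h1 0
          convert this using 1
          funext p
          simp
        | add F G _ _ hF hG =>
          intro c
          have := hadd (fun p => c * F p) (fun p => c * G p) (by fun_prop) (by fun_prop)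
            (hF c) (hG c)
          simpa [mul_add] using this
        | smul a F _ hF =>
          intro c
          have := hF (c * a)
          simpa [mul_assoc] using this
      exact key F hF' c
  intro F hF
  refine hlim F hF fun ε hε => ?_
  have h1 : (⟨F, hF⟩ : C(X × Y, ℂ)) ∈ A.topologicalClosure := by rw [htop]; trivial
  have h2 : (⟨F, hF⟩ : C(X × Y, ℂ)) ∈ closure (A : Set C(X × Y, ℂ)) := h1
  obtain ⟨G, hG, hFG⟩ := Metric.mem_closure_iff.1 h2 ε hε
  refine ⟨G, G.continuous, fun p => ?_, hPS G hG⟩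
  have h3 := ContinuousMap.dist_apply_le_dist (f := (⟨F, hF⟩ : C(X × Y, ℂ))) (g := G) p
  rw [dist_eq_norm] at h3
  exact h3.trans hFG.le

/-- sums of products of functions of one variable are uniformly dense. -/
lemma prod_dense {X : Type uX} {Y : Type uY} [TopologicalSpace X] [CompactSpace X] [T2Space X]
    [TopologicalSpace Y] [CompactSpace Y] [T2Space Y] (P : (X × Y → ℂ) → Prop)
    (hprod : ∀ (φ : C(X, ℂ)) (θ : C(Y, ℂ)), P (fun p => φ p.1 * θ p.2))
    (hadd : ∀ F G : X × Y → ℂ, Continuous F → Continuous G → P F → P G → P (fun p => F p + G p))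
    (hlim : ∀ F : X × Y → ℂ, Continuous F → (∀ ε : ℝ, 0 < ε → ∃ G : X × Y → ℂ, Continuous G ∧
      (∀ p, ‖F p - G p‖ ≤ ε) ∧ P G) → P F) :
    ∀ F : X × Y → ℂ, Continuous F → P F := by
  refine prod_dense_gen Set.univ trivial (fun _ _ _ _ => trivial) (fun _ _ => trivial) ?_ P
    (fun φ _ θ => hprod φ θ) hadd hlim
  intro x y hxy
  obtain ⟨f, hf1, hf2, -⟩ := exists_continuous_zero_one_of_isClosed (isClosed_singleton (x := x))
    (isClosed_singleton (x := y)) (by simpa using hxy)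
  refine ⟨⟨fun y => (f y : ℂ), by fun_prop⟩, trivial, ?_⟩
  have h1 : f x = 0 := hf1 rfl
  have h2 : f y = 1 := hf2 rfl
  simp [h1, h2]

section

variable {X : Type*} [TopologicalSpace X] [MeasurableSpace X]

/-- the conditional expectation on the base point is approximately continuous -/
def ACE (n : ℕ) (m : Measure (Cube n → X)) (μ : Measure X) : Prop :=
  ∀ Φ : (Cube n → X) → ℂ, Continuous Φ → ∀ ε : ℝ, 0 < ε → ∃ u : X → ℂ, Continuous u ∧
    ∀ ψ : X → ℂ, Continuous ψ →
      ‖∫ c, Φ c * ψ (c ⊥) ∂m - ∫ y, u y * ψ y ∂μ‖ ≤ ε * ∫ y, ‖ψ y‖ ∂μ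

end


section aux

variable (H : Type*) [CommGroup H] [TopologicalSpace H] [IsTopologicalGroup H] [CompactSpace H]
variable {X : Type*} [MulAction H X] [TopologicalSpace X] [ContinuousSMul H X]

lemma avg_ofReal (f : X → ℝ) (y : X) :
    avg H (fun y => ((f y : ℝ) : ℂ)) y = ((avg H f y : ℝ) : ℂ) := by
  letI : MeasurableSpace H := borel H
  haveI : BorelSpace H := ⟨rfl⟩
  unfold avg
  exact integral_complex_ofReal

lemma integral_avg_real [SecondCountableTopology X] [CompactSpace X] [MeasurableSpace X]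
    [BorelSpace X] {μ : Measure X} [IsProbabilityMeasure μ]
    (hμ : ∀ h : H, MeasurePreserving (fun y : X => h • y) μ μ)
    {ψ : X → ℝ} (hψ : Continuous ψ) :
    ∫ y, avg H ψ y ∂μ = ∫ y, ψ y ∂μ := by
  have h := integral_avg H hμ (ψ := fun y => ((ψ y : ℝ) : ℂ)) (by fun_prop)
  simp_rw [avg_ofReal] at h
  rw [integral_complex_ofReal, integral_complex_ofReal] at h
  exact_mod_cast h

lemma norm_avg_le_avg_norm (ψ : X → ℂ) (y : X) :
    ‖avg H ψ y‖ ≤ avg H (fun y => ‖ψ y‖) y := by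
  letI : MeasurableSpace H := borel H
  haveI : BorelSpace H := ⟨rfl⟩
  unfold avg
  exact norm_integral_le_integral_norm _

end aux

lemma integral_of_map {X Y E : Type*} [TopologicalSpace X] [MeasurableSpace X] [BorelSpace X]
    [TopologicalSpace Y] [MeasurableSpace Y] [BorelSpace Y] [NormedAddCommGroup E]
    [NormedSpace ℝ E] [SecondCountableTopology E] {m : Measure X} {μ : Measure Y} {p : X → Y}
    (hp : Continuous p) (h : m.map p = μ) {f : Y → E} (hf : Continuous f) :
    ∫ c, f (p c) ∂m = ∫ y, f y ∂μ := by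
  borelize E
  rw [← h, integral_map hp.measurable.aemeasurable hf.measurable.aestronglyMeasurable]

section cube

variable {Γ Z : Type*} {X : Type uX} {X' : Type uY} [Group Γ] [CommGroup Z] [TopologicalSpace Z]
  [IsTopologicalGroup Z] [CompactSpace Z] [T2Space Z]
  [TopologicalSpace X] [CompactSpace X] [T2Space X] [SecondCountableTopology X]
  [MeasurableSpace X] [BorelSpace X]
  [MulAction Γ X] [ContinuousConstSMul Γ X] [MulAction Z X] [ContinuousSMul Z X]
  [SMulCommClass Γ Z X]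
  [TopologicalSpace X'] [CompactSpace X'] [T2Space X'] [SecondCountableTopology X']
  [MeasurableSpace X'] [BorelSpace X']
  [MulAction Γ X'] [ContinuousConstSMul Γ X']

/-- descent of the averaged function, with integral identities -/
lemma descend_avg {π : X → X'} (hπ : IsExt Γ Z π) {x : X}
    (hmin : ∀ y ∈ Orb Γ x, x ∈ Orb Γ y) {ξ : X → ℂ} (hξ : Continuous ξ) :
    ∃ ξ' : C(X', ℂ), ∀ y ∈ Orb Γ x, ξ' (π y) = avg (stab Γ Z x) ξ y :=
  descend_stab hπ x hmin (continuous_avg (stab Γ Z x) hξ)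
    (fun h y _ => avg_smul_eq (stab Γ Z x) ξ h y)

variable {π : X → X'} (hπ : IsExt Γ Z π) {x : X} {n : ℕ}
  (hmin : ∀ y ∈ Orb Γ x, x ∈ Orb Γ y)
  (hminn : ∀ y ∈ Orb (HK n Γ) (fun _ : Cube n => x), (fun _ : Cube n => x) ∈ Orb (HK n Γ) y)
  (hAn' : AvgProp (HK n Γ) (fun _ : Cube n => π x))
  {m : Measure (Cube n → X)} (hm : IsInv (HK n Γ) (fun _ => x) m)
  (hmH : ∀ h : stab (HK n Γ) (Cube n → Z) (fun _ : Cube n => x),
    MeasurePreserving (fun y : Cube n → X => h • y) m m)
  {μ : Measure X} (hμ : IsInv Γ x μ)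
  (hμH : ∀ h : stab Γ Z x, MeasurePreserving (fun y : X => h • y) μ μ)

include hπ hmin hminn hAn' hm hmH hμ hμH

lemma ACE_step (hIH : ACE n (m.map fun c v => π (c v)) (μ.map π)) : ACE n m μ := by
  haveI := hμ.prob
  haveI := hm.prob
  intro Φ hΦ ε₀ hε₀
  set xh : Cube n → X := fun _ => x with hxh
  have hmarg := marginal hπ hminn hAn' hm hmH hμ hμH (⊥ : Cube n)
  -- the subgroup fixing the base coordinate
  let K₀ : Subgroup (Cube n → Z) := stab (HK n Γ) (Cube n → Z) xh ⊓
    (Pi.evalMonoidHom (fun _ : Cube n => Z) ⊥).ker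
  haveI : CompactSpace K₀ := by
    refine isCompact_iff_compactSpace.1 ?_
    refine IsClosed.isCompact ?_
    refine IsClosed.inter (isClosed_stabSet (Γ := HK n Γ) (Z := Cube n → Z) xh) ?_
    exact isClosed_singleton.preimage (continuous_apply ⊥)
  have hK₀m : ∀ h : K₀, MeasurePreserving (fun y : Cube n → X => h • y) m m := fun h =>
    hmH ⟨h.1, h.2.1⟩
  have hΦ₀c : Continuous (avg K₀ Φ) := continuous_avg K₀ hΦ
  have ha : ∀ ψ : X → ℂ, Continuous ψ →
      ∫ c, Φ c * ψ (c ⊥) ∂m = ∫ c, avg K₀ Φ c * ψ (c ⊥) ∂m := by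
    intro ψ hψ
    have h1 := integral_mul_avg K₀ hK₀m (φ := fun c => ψ (c ⊥))
      (integrable_cont m (hψ.comp (continuous_apply ⊥)))
      (fun h => Filter.Eventually.of_forall fun c => by
        have h2 : h.1 ⊥ = 1 := h.2.2
        change ψ (h.1 ⊥ • c ⊥) = ψ (c ⊥)
        rw [h2, one_smul]) hΦ
    simp_rw [mul_comm (ψ _)] at h1
    exact h1.symm
  let j : (Cube n → X) → X × (Cube n → X') := fun c => (c ⊥, fun v => π (c v))
  have hj : Continuous j :=
    (continuous_apply ⊥).prodMk (continuous_pi fun v => hπ.cont.comp (continuous_apply v))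
  obtain ⟨Ψ, hΨ⟩ := descend_general hj (isClosed_Orb (Γ := HK n Γ) xh).isCompact hΦ₀c (by
    intro c₁ h₁ c₂ h₂ h
    obtain ⟨z, hz, hzc⟩ := fib_stab (hπ.pi (Cube n) (HK n Γ)) hminn h₁ h₂ (Prod.ext_iff.1 h).2
    have h3 : z ⊥ • c₁ ⊥ = c₁ ⊥ := by
      have h4 : z ⊥ • c₁ ⊥ = c₂ ⊥ := congrFun hzc ⊥
      rw [h4]
      exact (Prod.ext_iff.1 h).1.symm
    have h5 : z ⊥ = 1 := hπ.free _ _ h3
    rw [← hzc]
    exact (avg_smul_eq K₀ Φ ⟨z, hz, h5⟩ c₁).symm)
  let P : (X × (Cube n → X') → ℂ) → Prop := fun Ψ => ∀ ε : ℝ, 0 < ε → ∃ u : X → ℂ,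
    Continuous u ∧ ∀ ψ : X → ℂ, Continuous ψ →
      ‖∫ c, Ψ (j c) * ψ (c ⊥) ∂m - ∫ y, u y * ψ y ∂μ‖ ≤ ε * ∫ y, ‖ψ y‖ ∂μ
  have hnn : ∀ ψ : X → ℂ, 0 ≤ ∫ y, ‖ψ y‖ ∂μ := fun ψ => integral_nonneg fun y => norm_nonneg _
  have hP : ∀ Ψ : X × (Cube n → X') → ℂ, Continuous Ψ → P Ψ := by
    refine prod_dense P ?_ ?_ ?_
    · intro φ θ ε hε
      obtain ⟨ub, hub, hube⟩ := hIH θ θ.continuous (ε / (‖φ‖ + 1)) (by positivity)
      refine ⟨fun y => φ y * ub (π y), by
        exact φ.continuous.mul (hub.comp hπ.cont), fun ψ hψ => ?_⟩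
      set ξ : X → ℂ := fun y => φ y * ψ y with hξ
      have hξc : Continuous ξ := φ.continuous.mul hψ
      obtain ⟨ξ', hξ'⟩ := descend_avg hπ hmin hξc
      have hπn : Continuous fun (c : Cube n → X) (v : Cube n) => π (c v) :=
        continuous_pi fun v => hπ.cont.comp (continuous_apply v)
      -- first integral
      have e1 : ∫ c, (φ (j c).1 * θ (j c).2) * ψ (c ⊥) ∂m =
          ∫ c', θ c' * ξ' (c' ⊥) ∂(m.map fun c v => π (c v)) := by
        rw [integral_map hπn.measurable.aemeasurable (by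
          exact (θ.continuous.mul (ξ'.continuous.comp (continuous_apply ⊥))).measurable.aestronglyMeasurable)]
        have e2 : ∫ c, (φ (j c).1 * θ (j c).2) * ψ (c ⊥) ∂m =
            ∫ c, θ (fun v => π (c v)) * ξ (c ⊥) ∂m := by
          congr 1; funext c
          change φ (c ⊥) * θ (fun v => π (c v)) * ψ (c ⊥) = _ * (φ (c ⊥) * ψ (c ⊥))
          ring
        rw [e2]
        have e3 := integral_mul_avg (stab Γ Z x) (X := Cube n → X) (μ := m)
          (fun h => hmH ⟨fun _ => h.1, diag_mem_stab h.2⟩)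
          (φ := fun c => θ (fun v => π (c v))) (integrable_cont m (θ.continuous.comp hπn))
          (fun h => Filter.Eventually.of_forall fun c => by
            have : (fun v => π ((h • c) v)) = fun v => π (c v) := by
              funext v
              exact ((hπ.fib (c v) ((h • c) v)).2 ⟨h.1, rfl⟩).symm
            change θ (fun v => π ((h • c) v)) = θ (fun v => π (c v))
            rw [this])
          (ψ := fun c => ξ (c ⊥)) (hξc.comp (continuous_apply ⊥))
        rw [← e3]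
        refine integral_congr_ae ?_
        filter_upwards [hm.ae_mem] with c hc
        have e4 : avg (stab Γ Z x) (fun c : Cube n → X => ξ (c ⊥)) c =
            avg (stab Γ Z x) ξ (c ⊥) := rfl
        rw [e4, ← hξ' _ (coord_mem_Orb hc ⊥)]
      have e5 : ∫ y, (φ y * ub (π y)) * ψ y ∂μ = ∫ y', ub y' * ξ' y' ∂(μ.map π) := by
        rw [integral_map hπ.cont.measurable.aemeasurable (by
          exact (hub.mul ξ'.continuous).measurable.aestronglyMeasurable)]
        have e2 : ∫ y, (φ y * ub (π y)) * ψ y ∂μ = ∫ y, ub (π y) * ξ y ∂μ := by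
          congr 1; funext y
          change φ y * ub (π y) * ψ y = ub (π y) * (φ y * ψ y)
          ring
        rw [e2]
        have e3 := integral_mul_avg (stab Γ Z x) (μ := μ) hμH
          (φ := fun y => ub (π y)) (integrable_cont μ (hub.comp hπ.cont))
          (fun h => Filter.Eventually.of_forall fun y => by
            have : π (h • y) = π y := ((hπ.fib y (h • y)).2 ⟨h.1, rfl⟩).symm
            simp only [this])
          (ψ := ξ) hξc
        rw [← e3]
        refine integral_congr_ae ?_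
        filter_upwards [hμ.ae_mem] with y hy
        rw [hξ' _ hy]
      have e6 : ∫ y', ‖ξ' y'‖ ∂(μ.map π) ≤ ‖φ‖ * ∫ y, ‖ψ y‖ ∂μ := by
        rw [integral_map hπ.cont.measurable.aemeasurable (by
          exact (ξ'.continuous.norm).measurable.aestronglyMeasurable)]
        calc ∫ y, ‖ξ' (π y)‖ ∂μ ≤ ∫ y, avg (stab Γ Z x) (fun y => ‖ξ y‖) y ∂μ := by
              refine integral_mono_ae (integrable_cont μ (by
                exact (ξ'.continuous.comp hπ.cont).norm)) (integrable_cont μ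
                (continuous_avg _ hξc.norm)) ?_
              filter_upwards [hμ.ae_mem] with y hy
              rw [hξ' _ hy]
              exact norm_avg_le_avg_norm _ _ _
          _ = ∫ y, ‖ξ y‖ ∂μ := integral_avg_real _ hμH hξc.norm
          _ ≤ ∫ y, ‖φ‖ * ‖ψ y‖ ∂μ := by
              refine integral_mono (integrable_cont μ hξc.norm)
                ((integrable_cont μ hψ.norm).const_mul _) fun y => ?_
              rw [hξ, norm_mul]
              exact mul_le_mul_of_nonneg_right (φ.norm_coe_le_norm y) (norm_nonneg _)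
          _ = ‖φ‖ * ∫ y, ‖ψ y‖ ∂μ := integral_const_mul _ _
      rw [e1, e5]
      refine (hube ξ' ξ'.continuous).trans ?_
      calc ε / (‖φ‖ + 1) * ∫ y', ‖ξ' y'‖ ∂(μ.map π)
          ≤ ε / (‖φ‖ + 1) * (‖φ‖ * ∫ y, ‖ψ y‖ ∂μ) :=
            mul_le_mul_of_nonneg_left e6 (by positivity)
        _ = (‖φ‖ / (‖φ‖ + 1)) * (ε * ∫ y, ‖ψ y‖ ∂μ) := by field_simp
        _ ≤ 1 * (ε * ∫ y, ‖ψ y‖ ∂μ) := by
            refine mul_le_mul_of_nonneg_right ?_ (mul_nonneg hε.le (hnn ψ))
            rw [div_le_one (by positivity)]; linarith [norm_nonneg φ]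
        _ = ε * ∫ y, ‖ψ y‖ ∂μ := one_mul _
    · intro F G hF hG hPF hPG ε hε
      obtain ⟨u, hu, hue⟩ := hPF (ε / 2) (half_pos hε)
      obtain ⟨w, hw, hwe⟩ := hPG (ε / 2) (half_pos hε)
      refine ⟨fun y => u y + w y, hu.add hw, fun ψ hψ => ?_⟩
      have h1 : ∫ c, (F (j c) + G (j c)) * ψ (c ⊥) ∂m =
          ∫ c, F (j c) * ψ (c ⊥) ∂m + ∫ c, G (j c) * ψ (c ⊥) ∂m := by
        simp only [add_mul]
        exact integral_add
          (integrable_cont m ((hF.comp hj).mul (hψ.comp (continuous_apply ⊥))))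
          (integrable_cont m ((hG.comp hj).mul (hψ.comp (continuous_apply ⊥))))
      have h2 : ∫ y, (u y + w y) * ψ y ∂μ = ∫ y, u y * ψ y ∂μ + ∫ y, w y * ψ y ∂μ := by
        simp only [add_mul]
        exact integral_add (integrable_cont μ (hu.mul hψ)) (integrable_cont μ (hw.mul hψ))
      rw [h1, h2]
      calc ‖(∫ c, F (j c) * ψ (c ⊥) ∂m + ∫ c, G (j c) * ψ (c ⊥) ∂m) -
            (∫ y, u y * ψ y ∂μ + ∫ y, w y * ψ y ∂μ)‖
          = ‖(∫ c, F (j c) * ψ (c ⊥) ∂m - ∫ y, u y * ψ y ∂μ) +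
            (∫ c, G (j c) * ψ (c ⊥) ∂m - ∫ y, w y * ψ y ∂μ)‖ := by congr 1; ring
        _ ≤ ε / 2 * ∫ y, ‖ψ y‖ ∂μ + ε / 2 * ∫ y, ‖ψ y‖ ∂μ :=
          (norm_add_le _ _).trans (add_le_add (hue ψ hψ) (hwe ψ hψ))
        _ = ε * ∫ y, ‖ψ y‖ ∂μ := by ring
    · intro F hF happ ε hε
      obtain ⟨G, hG, hFG, hPG⟩ := happ (ε / 2) (half_pos hε)
      obtain ⟨u, hu, hue⟩ := hPG (ε / 2) (half_pos hε)
      refine ⟨u, hu, fun ψ hψ => ?_⟩
      have hFi : Integrable (fun c => F (j c) * ψ (c ⊥)) m :=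
        integrable_cont m ((hF.comp hj).mul (hψ.comp (continuous_apply (⊥ : Cube n))))
      have hGi : Integrable (fun c => G (j c) * ψ (c ⊥)) m :=
        integrable_cont m ((hG.comp hj).mul (hψ.comp (continuous_apply (⊥ : Cube n))))
      have h1 : ‖∫ c, F (j c) * ψ (c ⊥) ∂m - ∫ c, G (j c) * ψ (c ⊥) ∂m‖ ≤
          ε / 2 * ∫ y, ‖ψ y‖ ∂μ := by
        rw [← integral_sub hFi hGi]
        calc ‖∫ c, (F (j c) * ψ (c ⊥) - G (j c) * ψ (c ⊥)) ∂m‖
            ≤ ∫ c, ε / 2 * ‖ψ (c ⊥)‖ ∂m := by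
              refine norm_integral_le_of_norm_le ((integrable_cont m
                ((hψ.comp (continuous_apply (⊥ : Cube n))).norm)).const_mul _) ?_
              filter_upwards with c
              rw [← sub_mul, norm_mul]
              exact mul_le_mul_of_nonneg_right (hFG _) (norm_nonneg _)
          _ = ε / 2 * ∫ y, ‖ψ y‖ ∂μ := by
              rw [integral_const_mul]
              congr 1
              exact integral_of_map (p := fun c : Cube n → X => c ⊥)
                (continuous_apply (⊥ : Cube n)) hmarg hψ.norm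
      calc ‖∫ c, F (j c) * ψ (c ⊥) ∂m - ∫ y, u y * ψ y ∂μ‖
          = ‖(∫ c, F (j c) * ψ (c ⊥) ∂m - ∫ c, G (j c) * ψ (c ⊥) ∂m) +
            (∫ c, G (j c) * ψ (c ⊥) ∂m - ∫ y, u y * ψ y ∂μ)‖ := by congr 1; ring
        _ ≤ ε / 2 * ∫ y, ‖ψ y‖ ∂μ + ε / 2 * ∫ y, ‖ψ y‖ ∂μ :=
          (norm_add_le _ _).trans (add_le_add h1 (hue ψ hψ))
        _ = ε * ∫ y, ‖ψ y‖ ∂μ := by ring
  obtain ⟨u, hu, hue⟩ := hP Ψ Ψ.continuous ε₀ hε₀
  refine ⟨u, hu, fun ψ hψ => ?_⟩
  rw [ha ψ hψ]
  have h1 : ∫ c, avg K₀ Φ c * ψ (c ⊥) ∂m = ∫ c, Ψ (j c) * ψ (c ⊥) ∂m := by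
    refine integral_congr_ae ?_
    filter_upwards [hm.ae_mem] with c hc
    rw [hΨ c hc]
  rw [h1]
  exact hue ψ hψ

end cube

end Nil75
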