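import Mathlib

/-!
# Nilspaces, translations, Haar measure

Definitions used in the statement on nilspace systems.
-/

set_option linter.all false

open MeasureTheory

namespace Nil75

universe u

/-- Vertices of the discrete cube `{0,1}^n` (`true` is `1`, `false` is `0`);
`⊥` is the vertex `0^n` and `⊤` is the vertex `1^n`. -/
abbrev Cube (n : ℕ) := Fin n → Bool

/-- The integer `0` or `1` of a bit. -/
def bz (b : Bool) : ℤ := if b then 1 else 0

/-- Discrete-cube morphisms `{0,1}^m → {0,1}^n`: the restrictions to `{0,1}^m` of the affine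
homomorphisms `ℤ^m → ℤ^n` that map `{0,1}^m` into `{0,1}^n`. -/
def IsCubeMorphism {m n : ℕ} (φ : Cube m → Cube n) : Prop :=
  ∃ (A : Fin n → Fin m → ℤ) (b : Fin n → ℤ),
    ∀ (v : Cube m) (i : Fin n), bz (φ v i) = b i + ∑ j, A i j * bz (v j)

/-- A cube structure: a set `C n` of maps `{0,1}^n → X` for each `n`. -/
abbrev CubeStructure (X : Type u) := ∀ n : ℕ, Set (Cube n → X)

/-- An `(n+1)`-corner, given as a map on the whole cube whose value at `1^{n+1}` is irrelevant:
its restriction to each `n`-dimensional face `{v | v i = 0}` (the faces of codimension one that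
contain `0^{n+1}`) is a cube. -/
def IsCorner {X : Type u} (C : CubeStructure X) (n : ℕ) (c : Cube (n + 1) → X) : Prop :=
  ∀ i : Fin (n + 1), (fun w : Cube n => c (i.insertNth false w)) ∈ C n

/-- The nilspace axioms. -/
structure IsNilspace {X : Type u} (C : CubeStructure X) : Prop where
  /-- composition -/
  comp : ∀ {m n : ℕ} (φ : Cube m → Cube n), IsCubeMorphism φ → ∀ c ∈ C n, c ∘ φ ∈ C m
  /-- ergodicity: `C^1(X) = X^{0,1}` -/
  ergodic : ∀ c : Cube 1 → X, c ∈ C 1
  /-- corner completion -/
  corner : ∀ (n : ℕ) (c : Cube (n + 1) → X), IsCorner C n c →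
    ∃ d ∈ C (n + 1), ∀ v, v ≠ ⊤ → d v = c v

/-- A nilspace is `k`-step if `(k+1)`-corners have unique completions. -/
def IsStep {X : Type u} (C : CubeStructure X) (k : ℕ) : Prop :=
  ∀ c : Cube (k + 1) → X, IsCorner C k c → ∀ d ∈ C (k + 1), ∀ e ∈ C (k + 1),
    (∀ v, v ≠ ⊤ → d v = c v) → (∀ v, v ≠ ⊤ → e v = c v) → d = e

/-- `F` is a face of codimension `j` of `{0,1}^n`. -/
def IsFace {n : ℕ} (j : ℕ) (F : Set (Cube n)) : Prop :=
  ∃ (S : Finset (Fin n)) (w : Cube n), S.card = j ∧ F = {v | ∀ i ∈ S, v i = w i}

open Classical in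
/-- Apply `α` to the values of `c` at the vertices in `F`. -/
noncomputable def applyOn {X : Type u} {V : Type*} (α : X → X) (F : Set V) (c : V → X) : V → X :=
  fun v => if v ∈ F then α (c v) else c v

/-- `α` preserves cubes when applied on faces of codimension `j`. -/
def PreservesCubes {X : Type u} (C : CubeStructure X) (j : ℕ) (α : X → X) : Prop :=
  ∀ (n : ℕ) (F : Set (Cube n)), IsFace j F → ∀ c ∈ C n, applyOn α F c ∈ C n

/-- Translations: homeomorphisms that preserve cubes when applied on faces of codimension 1. -/
def IsTranslation {X : Type u} [TopologicalSpace X] (C : CubeStructure X) (α : X ≃ₜ X) : Prop :=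
  PreservesCubes C 1 α

/-- The relation `∼_k`: `x ∼_k y` if there are two `(k+1)`-cubes that agree at every vertex other
than `1^{k+1}`, where they take the values `x` and `y`. -/
def SimRel {X : Type u} (C : CubeStructure X) (k : ℕ) (x y : X) : Prop :=
  ∃ c ∈ C (k + 1), ∃ d ∈ C (k + 1), (∀ v, v ≠ ⊤ → c v = d v) ∧ c ⊤ = x ∧ d ⊤ = y

/-- The `k`-step factor `X_k = X / ∼_k`. -/
def Factor {X : Type u} (C : CubeStructure X) (k : ℕ) : Type u := Quot (SimRel C k)

/-- The canonical projection `π_k : X → X_k`. -/
def toFactor {X : Type u} (C : CubeStructure X) (k : ℕ) : X → Factor C k := Quot.mk _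

/-- The cubes of the factor are the images of the cubes of `X`. -/
def factorCubes {X : Type u} (C : CubeStructure X) (k : ℕ) : CubeStructure (Factor C k) :=
  fun n => {c | ∃ d ∈ C n, c = fun v => toFactor C k (d v)}

/-- The factor carries the quotient topology. -/
instance {X : Type u} [TopologicalSpace X] (C : CubeStructure X) (k : ℕ) :
    TopologicalSpace (Factor C k) :=
  inferInstanceAs (TopologicalSpace (Quot (SimRel C k)))

/-- The factor carries its Borel σ-algebra. -/
instance {X : Type u} [TopologicalSpace X] (C : CubeStructure X) (k : ℕ) :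
    MeasurableSpace (Factor C k) := borel _

/-- `μ` is the Haar measure of the `k`-step compact nilspace `(X, C)`: it is a probability measure
and, when `k ≥ 1`, it is invariant under the top structure group (the homeomorphisms that preserve
cubes when applied on faces of codimension `k`) and its image in the `(k-1)`-step factor is the
Haar measure of the factor. -/
def IsHaar : ∀ (k : ℕ) {X : Type u} [TopologicalSpace X] [MeasurableSpace X]
    (_ : CubeStructure X) (_ : Measure X), Prop
  | 0, _, _, _, _, μ => μ Set.univ = 1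
  | k + 1, X, _, _, C, μ => μ Set.univ = 1 ∧
      (∀ α : X ≃ₜ X, PreservesCubes C (k + 1) α → μ.map α = μ) ∧
      IsHaar k (factorCubes C k) (μ.map (toFactor C k))

end Nil75
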