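import Pool.Agent.Helper75.Nil.Step
import Pool.Agent.Helper75.Nil.Defs

/-!
Cube groups, marginals of the cube measures.
-/

set_option linter.all false

open MeasureTheory Topology

namespace Nil75

universe uX

/-- the cube group generated by the diagonal and the upper faces -/
def HK (n : ℕ) (Γ : Type*) [Group Γ] : Subgroup (Cube n → Γ) :=
  Subgroup.closure ({f | ∃ g : Γ, f = fun _ => g} ∪
    {f | ∃ (g : Γ) (i : Fin n), f = fun v => if v i then g else 1})

lemma diag_mem_HK {n : ℕ} {Γ : Type*} [Group Γ] (g : Γ) : (fun _ => g) ∈ HK n Γ :=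
  Subgroup.subset_closure (Or.inl ⟨g, rfl⟩)

lemma face_mem_HK {n : ℕ} {Γ : Type*} [Group Γ] (g : Γ) (i : Fin n) :
    (fun v : Cube n => if v i then g else 1) ∈ HK n Γ :=
  Subgroup.subset_closure (Or.inr ⟨g, i, rfl⟩)

/-- homomorphisms induce homomorphisms of cube groups -/
lemma map_mem_HK {n : ℕ} {Γ Λ : Type*} [Group Γ] [Group Λ] (ρ : Γ →* Λ) {f : Cube n → Γ}
    (hf : f ∈ HK n Γ) : (fun v => ρ (f v)) ∈ HK n Λ := by
  unfold HK at hf
  induction hf using Subgroup.closure_induction with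
  | mem f hf =>
    rcases hf with ⟨g, rfl⟩ | ⟨g, i, rfl⟩
    · exact diag_mem_HK (ρ g)
    · have : (fun v : Cube n => ρ (if v i then g else 1)) = fun v => if v i then ρ g else 1 := by
        funext v
        split_ifs <;> simp
      rw [this]
      exact face_mem_HK (ρ g) i
  | one =>
    have : (fun v : Cube n => ρ ((1 : Cube n → Γ) v)) = 1 := by
      funext v; simp
    rw [this]
    exact (HK n Λ).one_mem
  | mul f g _ _ hf hg =>
    have : (fun v : Cube n => ρ ((f * g) v)) = (fun v => ρ (f v)) * fun v => ρ (g v) := by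
      funext v; simp
    rw [this]
    exact (HK n Λ).mul_mem hf hg
  | inv f _ hf =>
    have : (fun v : Cube n => ρ (f⁻¹ v)) = (fun v => ρ (f v))⁻¹ := by
      funext v; simp
    rw [this]
    exact (HK n Λ).inv_mem hf

/-- the induced homomorphism -/
def HKmap (n : ℕ) {Γ Λ : Type*} [Group Γ] [Group Λ] (ρ : Γ →* Λ) (f : HK n Γ) : HK n Λ :=
  ⟨fun v => ρ (f.1 v), map_mem_HK ρ f.2⟩

instance piConst {ι : Type*} {G Y : Type*} [Group G] [MulAction G Y] [TopologicalSpace Y]
    [ContinuousConstSMul G Y] (Λ : Subgroup (ι → G)) : ContinuousConstSMul Λ (ι → Y) :=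
  ⟨fun g => continuous_pi fun i => (continuous_apply i).const_smul (g.1 i)⟩

lemma pi_smul_apply {ι : Type*} {G Y : Type*} [Group G] [MulAction G Y]
    (Λ : Subgroup (ι → G)) (g : Λ) (c : ι → Y) (i : ι) : (g • c) i = g.1 i • c i := rfl

instance piComm {ι : Type*} {G Z Y : Type*} [Group G] [CommGroup Z] [MulAction G Y]
    [MulAction Z Y] [SMulCommClass G Z Y] (Λ : Subgroup (ι → G)) :
    SMulCommClass Λ (ι → Z) (ι → Y) :=
  ⟨fun g z c => by
    funext i
    change g.1 i • z i • c i = z i • g.1 i • c i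
    exact smul_comm _ _ _⟩

section pi

variable {Γ Z X : Type*} {X' : Type uX} [Group Γ] [CommGroup Z]
  [TopologicalSpace X] [MulAction Γ X] [MulAction Z X]
  [TopologicalSpace X'] [MulAction Γ X']

/-- product extensions -/
lemma IsExt.pi {π : X → X'} (hπ : IsExt Γ Z π) (ι : Type*) (Λ : Subgroup (ι → Γ)) :
    IsExt Λ (ι → Z) (fun (c : ι → X) (i : ι) => π (c i)) where
  cont := continuous_pi fun i => hπ.cont.comp (continuous_apply i)
  surj := by
    intro c'
    choose c hc using fun i => hπ.surj (c' i)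
    exact ⟨c, funext hc⟩
  equiv := by
    intro g c
    funext i
    exact hπ.equiv (g.1 i) (c i)
  fib := by
    intro c d
    constructor
    · intro h
      have h1 : ∀ i, ∃ z : Z, z • c i = d i := fun i => (hπ.fib _ _).1 (congrFun h i)
      choose z hz using h1
      exact ⟨z, funext hz⟩
    · rintro ⟨z, rfl⟩
      funext i
      exact (hπ.fib _ _).2 ⟨z i, rfl⟩
  free := by
    intro z c h
    funext i
    exact hπ.free (z i) (c i) (congrFun h i)

end pi

section cube

variable {Γ Z X : Type*} {X' : Type uX} [Group Γ] [CommGroup Z] [TopologicalSpace Z]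
  [IsTopologicalGroup Z] [CompactSpace Z]
  [TopologicalSpace X] [CompactSpace X] [T2Space X] [SecondCountableTopology X]
  [MeasurableSpace X] [BorelSpace X]
  [MulAction Γ X] [ContinuousConstSMul Γ X] [MulAction Z X] [ContinuousSMul Z X]
  [SMulCommClass Γ Z X]
  [TopologicalSpace X'] [CompactSpace X'] [T2Space X'] [SecondCountableTopology X']
  [MeasurableSpace X'] [BorelSpace X']
  [MulAction Γ X'] [ContinuousConstSMul Γ X']

omit [CompactSpace X] [T2Space X] [SecondCountableTopology X] [MeasurableSpace X] [BorelSpace X]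
  [ContinuousConstSMul Γ X] in
lemma coord_mem_Orb {n : ℕ} {x : X} {c : Cube n → X} (hc : c ∈ Orb (HK n Γ) (fun _ => x))
    (v : Cube n) : c v ∈ Orb Γ x :=
  map_mem_Orb (Γ := HK n Γ) (Λ := Γ) (fun g => g.1 v) (p := fun c : Cube n → X => c v)
    (continuous_apply v) (fun _ _ => rfl) hc

lemma coord_mem_stab {n : ℕ} {x : X} {z : Cube n → Z}
    (hz : z ∈ stab (HK n Γ) (Cube n → Z) (fun _ : Cube n => x)) (v : Cube n) :
    z v ∈ stab Γ Z x :=
  coord_mem_Orb hz v

omit [CompactSpace X] [T2Space X] [SecondCountableTopology X] [MeasurableSpace X] [BorelSpace X] in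
lemma diag_mem_Orb {n : ℕ} {x y : X} (hy : y ∈ Orb Γ x) :
    (fun _ : Cube n => y) ∈ Orb (HK n Γ) (fun _ : Cube n => x) := by
  have h : Set.MapsTo (fun (y : X) => (fun _ : Cube n => y)) (Set.range fun g : Γ => g • x)
      (Set.range fun g : HK n Γ => g • (fun _ : Cube n => x)) := by
    rintro _ ⟨g, rfl⟩
    exact ⟨⟨fun _ => g, diag_mem_HK g⟩, rfl⟩
  exact h.closure (continuous_pi fun _ => continuous_id) hy

lemma diag_mem_stab {n : ℕ} {x : X} {z : Z} (hz : z ∈ stab Γ Z x) :
    (fun _ : Cube n => z) ∈ stab (HK n Γ) (Cube n → Z) (fun _ : Cube n => x) :=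
  diag_mem_Orb (n := n) hz

omit [CompactSpace X] [T2Space X] [SecondCountableTopology X] [MeasurableSpace X] [BorelSpace X] in
lemma pair_mem_Orb {n : ℕ} {x : X} {v : Cube n} (hv : v ≠ ⊥) (g₁ g₂ : Γ) :
    ∃ c ∈ Orb (HK n Γ) (fun _ : Cube n => x), c ⊥ = g₁ • x ∧ c v = g₂ • x := by
  obtain ⟨i, hi⟩ : ∃ i, v i = true := by
    by_contra h
    push Not at h
    exact hv (funext fun i => by simpa using h i)
  refine ⟨((⟨fun _ => g₁, diag_mem_HK g₁⟩ : HK n Γ) *
    (⟨fun w => if w i then g₁⁻¹ * g₂ else 1, face_mem_HK _ i⟩ : HK n Γ)) • (fun _ => x),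
    smul_mem_Orb_self _ _, ?_, ?_⟩
  · change (g₁ * (if (⊥ : Cube n) i then g₁⁻¹ * g₂ else 1)) • x = g₁ • x
    simp
  · change (g₁ * (if v i then g₁⁻¹ * g₂ else 1)) • x = g₂ • x
    simp [hi]

variable {π : X → X'} (hπ : IsExt Γ Z π) {x : X} {n : ℕ}
  (hminn : ∀ y ∈ Orb (HK n Γ) (fun _ : Cube n => x), (fun _ : Cube n => x) ∈ Orb (HK n Γ) y)
  (hAn' : AvgProp (HK n Γ) (fun _ : Cube n => π x))
  {m : Measure (Cube n → X)} (hm : IsInv (HK n Γ) (fun _ => x) m)
  (hmH : ∀ h : stab (HK n Γ) (Cube n → Z) (fun _ : Cube n => x),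
    MeasurePreserving (fun y : Cube n → X => h • y) m m)
  {μ : Measure X} (hμ : IsInv Γ x μ)
  (hμH : ∀ h : stab Γ Z x, MeasurePreserving (fun y : X => h • y) μ μ)

include hπ hminn hAn' hm hmH hμ hμH

/-- marginals of the cube measure -/
lemma marginal (v : Cube n) : m.map (fun c => c v) = μ := by
  haveI := hμ.prob
  letI i1 : MulAction (HK n Γ) X := MulAction.compHom X
    ((Pi.evalMonoidHom (fun _ : Cube n => Γ) v).comp (HK n Γ).subtype)
  letI i2 : MulAction (stab (HK n Γ) (Cube n → Z) (fun _ : Cube n => x)) X :=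
    MulAction.compHom X ((Pi.evalMonoidHom (fun _ : Cube n => Z) v).comp
      (stab (HK n Γ) (Cube n → Z) (fun _ : Cube n => x)).subtype)
  haveI : ContinuousConstSMul (HK n Γ) X := ⟨fun g => continuous_const_smul (g.1 v)⟩
  haveI : ContinuousSMul (stab (HK n Γ) (Cube n → Z) (fun _ : Cube n => x)) X := by
    refine ⟨?_⟩
    change Continuous fun p : (stab (HK n Γ) (Cube n → Z) (fun _ : Cube n => x)) × X =>
      p.1.1 v • p.2
    exact (((continuous_apply v).comp (continuous_subtype_val.comp continuous_fst)).smul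
      continuous_snd)
  refine compare (hπ.pi (Cube n) (HK n Γ)) hminn hAn' hm hmH (continuous_apply v)
    (fun _ _ => rfl) (fun _ _ => rfl) (fun g => hμ.inv (g.1 v))
    (fun h => hμH ⟨h.1 v, coord_mem_stab h.2 v⟩) ?_
  filter_upwards [hμ.ae_mem] with y hy
  exact ⟨fun _ => y, diag_mem_Orb hy, rfl⟩

/-- the joint law of the base point and another vertex is a product. -/
lemma marginal_pair {v : Cube n} (hv : v ≠ ⊥) :
    m.map (fun c => (c ⊥, c v)) = μ.prod μ := by
  haveI := hμ.prob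
  letI i1 : MulAction (HK n Γ) (X × X) :=
    { smul := fun g p => (g.1 ⊥ • p.1, g.1 v • p.2)
      one_smul := fun p => by
        change ((1 : Γ) • p.1, (1 : Γ) • p.2) = p
        simp
      mul_smul := fun g h p => by
        change ((g.1 ⊥ * h.1 ⊥) • p.1, (g.1 v * h.1 v) • p.2) =
          (g.1 ⊥ • h.1 ⊥ • p.1, g.1 v • h.1 v • p.2)
        simp [mul_smul] }
  letI i2 : MulAction (stab (HK n Γ) (Cube n → Z) (fun _ : Cube n => x)) (X × X) :=
    { smul := fun g p => (g.1 ⊥ • p.1, g.1 v • p.2)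
      one_smul := fun p => by
        change ((1 : Z) • p.1, (1 : Z) • p.2) = p
        simp
      mul_smul := fun g h p => by
        change ((g.1 ⊥ * h.1 ⊥) • p.1, (g.1 v * h.1 v) • p.2) =
          (g.1 ⊥ • h.1 ⊥ • p.1, g.1 v • h.1 v • p.2)
        simp [mul_smul] }
  haveI : ContinuousConstSMul (HK n Γ) (X × X) := ⟨fun g => by
    change Continuous fun p : X × X => (g.1 ⊥ • p.1, g.1 v • p.2)
    fun_prop⟩
  haveI : ContinuousSMul (stab (HK n Γ) (Cube n → Z) (fun _ : Cube n => x)) (X × X) := by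
    refine ⟨?_⟩
    change Continuous fun p : (stab (HK n Γ) (Cube n → Z) (fun _ : Cube n => x)) × (X × X) =>
      (p.1.1 ⊥ • p.2.1, p.1.1 v • p.2.2)
    refine Continuous.prodMk ?_ ?_
    · exact (((continuous_apply ⊥).comp (continuous_subtype_val.comp continuous_fst)).smul
        (continuous_fst.comp continuous_snd))
    · exact (((continuous_apply v).comp (continuous_subtype_val.comp continuous_fst)).smul
        (continuous_snd.comp continuous_snd))
  refine compare (hπ.pi (Cube n) (HK n Γ)) hminn hAn' hm hmH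
    ((continuous_apply ⊥).prodMk (continuous_apply v))
    (fun _ _ => rfl) (fun _ _ => rfl) (fun g => (hμ.inv (g.1 ⊥)).prod (hμ.inv (g.1 v)))
    (fun h => (hμH ⟨h.1 ⊥, coord_mem_stab h.2 ⊥⟩).prod (hμH ⟨h.1 v, coord_mem_stab h.2 v⟩)) ?_
  have hcl : Orb Γ x ×ˢ Orb Γ x ⊆
      (fun c : Cube n → X => (c ⊥, c v)) '' Orb (HK n Γ) (fun _ : Cube n => x) := by
    unfold Orb
    rw [← closure_prod_eq]
    refine closure_minimal ?_ ?_
    · rintro ⟨_, _⟩ ⟨⟨g₁, rfl⟩, ⟨g₂, rfl⟩⟩
      obtain ⟨c, hc, h1, h2⟩ := pair_mem_Orb (n := n) (x := x) hv g₁ g₂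
      exact ⟨c, hc, Prod.ext h1 h2⟩
    · exact (isClosed_closure.isCompact.image
        ((continuous_apply ⊥).prodMk (continuous_apply v))).isClosed
  have hae : ∀ᵐ p ∂(μ.prod μ), p ∈ Orb Γ x ×ˢ Orb Γ x := by
    have h1 : ∀ᵐ p ∂(μ.prod μ), p.1 ∈ Orb Γ x :=
      Measure.quasiMeasurePreserving_fst.ae hμ.ae_mem
    have h2 : ∀ᵐ p ∂(μ.prod μ), p.2 ∈ Orb Γ x :=
      Measure.quasiMeasurePreserving_snd.ae hμ.ae_mem
    filter_upwards [h1, h2] with p hp1 hp2 using ⟨hp1, hp2⟩
  filter_upwards [hae] with p hp using hcl hp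

end cube

end Nil75
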