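import Pool.Agent.Helper75.Nil.Defs

/-!
Cubes indexed by finite types, extension lemma, gluing and replacement.
-/

set_option linter.all false

namespace Nil75

universe u

section basic

variable {X : Type u}

/-- coordinatewise simple maps between cubes indexed by types -/
def IsMor {I J : Type} (φ : (J → Bool) → (I → Bool)) : Prop :=
  ∀ i, (∃ b : Bool, ∀ v, φ v i = b) ∨ (∃ j, ∀ v, φ v i = v j) ∨ (∃ j, ∀ v, φ v i = !(v j))

lemma IsMor.comp {I J K : Type} {φ : (J → Bool) → (I → Bool)} {ψ : (K → Bool) → (J → Bool)}
    (hφ : IsMor φ) (hψ : IsMor ψ) : IsMor (φ ∘ ψ) := by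
  intro i
  rcases hφ i with ⟨b, hb⟩ | ⟨j, hj⟩ | ⟨j, hj⟩
  · exact Or.inl ⟨b, fun v => hb _⟩
  · rcases hψ j with ⟨b, hb⟩ | ⟨k, hk⟩ | ⟨k, hk⟩
    · exact Or.inl ⟨b, fun v => by simp [hj, hb]⟩
    · exact Or.inr (Or.inl ⟨k, fun v => by simp [hj, hk]⟩)
    · exact Or.inr (Or.inr ⟨k, fun v => by simp [hj, hk]⟩)
  · rcases hψ j with ⟨b, hb⟩ | ⟨k, hk⟩ | ⟨k, hk⟩
    · exact Or.inl ⟨!b, fun v => by simp [hj, hb]⟩
    · exact Or.inr (Or.inr ⟨k, fun v => by simp [hj, hk]⟩)
    · exact Or.inr (Or.inl ⟨k, fun v => by simp [hj, hk]⟩)

lemma isCubeMorphism_of_isMor {m n : ℕ} {φ : Cube m → Cube n} (h : IsMor φ) :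
    IsCubeMorphism φ := by
  have h1 : ∀ i, ∃ (A : Fin m → ℤ) (b : ℤ), ∀ v, bz (φ v i) = b + ∑ j, A j * bz (v j) := by
    intro i
    rcases h i with ⟨b, hb⟩ | ⟨j, hj⟩ | ⟨j, hj⟩
    · exact ⟨fun _ => 0, bz b, fun v => by simp [hb]⟩
    · refine ⟨fun k => if k = j then 1 else 0, 0, fun v => ?_⟩
      simp [hj]
    · refine ⟨fun k => if k = j then -1 else 0, 1, fun v => ?_⟩
      simp only [hj, ite_mul, neg_mul, one_mul, zero_mul, Finset.sum_ite_eq', Finset.mem_univ,
        if_true]
      cases v j <;> simp [bz]
  choose A b hAb using h1
  exact ⟨A, b, fun v i => hAb i v⟩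

/-- cubes indexed by a finite type -/
def CI (C : CubeStructure X) {I : Type} (c : (I → Bool) → X) : Prop :=
  ∃ (n : ℕ) (e : Fin n ≃ I), (fun v : Cube n => c (fun i => v (e.symm i))) ∈ C n

lemma IsMor.reindex {I J : Type} (e : J → I) : IsMor (fun (v : I → Bool) (j : J) => v (e j)) :=
  fun i => Or.inr (Or.inl ⟨e i, fun v => rfl⟩)

lemma CI.comp {C : CubeStructure X} (hC : IsNilspace C) {I J : Type} [Finite J]
    {c : (I → Bool) → X} (hc : CI C c) {φ : (J → Bool) → (I → Bool)} (hφ : IsMor φ) :
    CI C (fun v => c (φ v)) := by
  obtain ⟨n, e, h⟩ := hc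
  haveI := Fintype.ofFinite J
  let e' : Fin (Fintype.card J) ≃ J := (Fintype.equivFin J).symm
  refine ⟨_, e', ?_⟩
  have hψ : IsMor (fun (w : Fin (Fintype.card J) → Bool) (k : Fin n) =>
      φ (fun j => w (e'.symm j)) (e k)) := by
    have h1 : IsMor (fun (w : Fin (Fintype.card J) → Bool) => φ (fun j => w (e'.symm j))) :=
      hφ.comp (IsMor.reindex e'.symm)
    exact (IsMor.reindex e).comp h1
  have h2 := hC.comp _ (isCubeMorphism_of_isMor hψ) _ h
  convert h2 using 1
  funext w
  simp [Function.comp]

lemma CI_iff_equiv {C : CubeStructure X} (hC : IsNilspace C) {I : Type} {n : ℕ} (e : Fin n ≃ I)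
    {c : (I → Bool) → X} : CI C c ↔ (fun v : Cube n => c (fun i => v (e.symm i))) ∈ C n := by
  constructor
  · rintro ⟨m, e', h⟩
    have hmn : m = n := by
      have := Fintype.card_congr (e'.trans e.symm)
      simpa using this
    have hψ : IsMor (fun (w : Fin n → Bool) (k : Fin m) => w (e.symm (e' k))) :=
      IsMor.reindex _
    have h2 := hC.comp _ (isCubeMorphism_of_isMor hψ) _ h
    convert h2 using 1
    funext w
    simp [Function.comp]
  · intro h
    exact ⟨n, e, h⟩

lemma CI_fin {C : CubeStructure X} (hC : IsNilspace C) {n : ℕ} {c : Cube n → X} :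
    CI C c ↔ c ∈ C n := CI_iff_equiv hC (Equiv.refl _)

open Classical in
/-- change one value -/
noncomputable def upd {V : Type*} (c : V → X) (w : V) (x : X) : V → X :=
  fun v => if v = w then x else c v

lemma upd_same {V : Type*} (c : V → X) (w : V) (x : X) : upd c w x w = x := by
  simp [upd]

lemma upd_ne {V : Type*} (c : V → X) {w v : V} (x : X) (h : v ≠ w) : upd c w x v = c v := by
  simp [upd, h]

lemma upd_self {V : Type*} (c : V → X) (w : V) : upd c w (c w) = c := by
  funext v
  by_cases h : v = w
  · rw [h, upd_same]
  · rw [upd_ne _ _ h]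

open Classical in
/-- change one coordinate -/
noncomputable def setb {I : Type*} (v : I → Bool) (i : I) (b : Bool) : I → Bool :=
  fun j => if j = i then b else v j

lemma setb_same {I : Type*} (v : I → Bool) (i : I) (b : Bool) : setb v i b i = b := by
  simp [setb]

lemma setb_ne {I : Type*} (v : I → Bool) {i j : I} (b : Bool) (h : j ≠ i) :
    setb v i b j = v j := by
  simp [setb, h]

lemma setb_self {I : Type*} (v : I → Bool) (i : I) : setb v i (v i) = v := by
  funext j
  by_cases h : j = i
  · rw [h, setb_same]
  · rw [setb_ne _ _ h]

lemma setb_of_eq {I : Type*} {v : I → Bool} {i : I} {b : Bool} (h : v i = b) :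
    setb v i b = v := by rw [← h, setb_self]

lemma setb_setb {I : Type*} (v : I → Bool) (i : I) (b b' : Bool) :
    setb (setb v i b) i b' = setb v i b' := by
  funext j
  by_cases h : j = i
  · rw [h, setb_same, setb_same]
  · rw [setb_ne _ _ h, setb_ne _ _ h, setb_ne _ _ h]

lemma isMor_setb {I : Type} (i : I) (b : Bool) : IsMor (fun v : I → Bool => setb v i b) := by
  intro j
  by_cases h : j = i
  · exact Or.inl ⟨b, fun v => by subst h; exact setb_same v _ b⟩
  · exact Or.inr (Or.inl ⟨j, fun v => setb_ne _ _ h⟩)

lemma CI_const {C : CubeStructure X} (hC : IsNilspace C) {I : Type} [Finite I] (x : X) :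
    CI C (fun _ : I → Bool => x) := by
  have h1 : CI C (fun _ : Fin 1 → Bool => x) := (CI_fin hC).2 (hC.ergodic _)
  exact h1.comp hC (φ := fun (_ : I → Bool) (_ : Fin 1) => true) (fun i => Or.inl ⟨true, fun v => rfl⟩)

/-- two points always form a 1-cube. -/
lemma CI_pair {C : CubeStructure X} (hC : IsNilspace C) {I : Type} [Finite I] (i : I) (x y : X) :
    CI C (fun v : I → Bool => if v i then y else x) := by
  have h1 : CI C (fun v : Fin 1 → Bool => if v 0 then y else x) := (CI_fin hC).2 (hC.ergodic _)
  exact h1.comp hC (φ := fun (v : I → Bool) (_ : Fin 1) => v i)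
    (fun _ => Or.inr (Or.inl ⟨i, fun v => rfl⟩))

lemma insertNth_setb {n : ℕ} (i : Fin (n + 1)) (w : Cube n) :
    setb (i.insertNth false w : Cube (n + 1)) i false = i.insertNth false w := by
  refine setb_of_eq ?_
  simp

/-- corner completion for cubes indexed by finite types -/
lemma CI_corner {C : CubeStructure X} (hC : IsNilspace C) {I : Type} [Finite I] [Nonempty I]
    (c : (I → Bool) → X) (h : ∀ i, CI C (fun v => c (setb v i false))) :
    ∃ x, CI C (upd c ⊤ x) := by
  haveI := Fintype.ofFinite I
  obtain ⟨n, hn⟩ : ∃ n, Fintype.card I = n + 1 :=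
    ⟨Fintype.card I - 1, by have := Fintype.card_pos (α := I); omega⟩
  let e : Fin (n + 1) ≃ I := ((Fintype.equivFin I).trans (finCongr hn)).symm
  let c' : Cube (n + 1) → X := fun v => c (fun i => v (e.symm i))
  have hcorner : IsCorner C n c' := by
    intro i
    rw [← CI_fin hC]
    have hmor : IsMor (fun (w : Cube n) (j : I) =>
        (i.insertNth false w : Cube (n + 1)) (e.symm j)) := by
      intro j
      by_cases hj : e.symm j = i
      · refine Or.inl ⟨false, fun v => ?_⟩
        change (i.insertNth false v : Cube (n + 1)) (e.symm j) = false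
        rw [hj]; simp
      · obtain ⟨k, hk⟩ := Fin.exists_succAbove_eq hj
        refine Or.inr (Or.inl ⟨k, fun v => ?_⟩)
        change (i.insertNth false v : Cube (n + 1)) (e.symm j) = v k
        rw [← hk]; simp
    have h1 := (h (e i)).comp hC hmor
    convert h1 using 1
    funext w
    simp only [c']
    congr 1
    funext j
    by_cases hj : j = e i
    · rw [hj, setb_same]; simp
    · rw [setb_ne _ _ hj]
  obtain ⟨d, hd, hdc⟩ := hC.corner n c' hcorner
  refine ⟨d ⊤, ?_⟩
  rw [CI_iff_equiv hC e]
  convert hd using 1
  funext v
  by_cases hv : v = ⊤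
  · have : (fun i => v (e.symm i)) = ⊤ := by rw [hv]; rfl
    rw [this, upd_same, hv]
  · have : (fun i => v (e.symm i)) ≠ ⊤ := by
      intro h2
      apply hv
      funext k
      have := congrFun h2 (e k)
      simpa using this
    rw [upd_ne _ _ this, hdc v hv]

lemma corner_of_cube {C : CubeStructure X} (hC : IsNilspace C) {n : ℕ} {c : Cube (n + 1) → X}
    (hc : c ∈ C (n + 1)) : IsCorner C n c := by
  intro i
  have hmor : IsMor (fun (w : Cube n) => (i.insertNth false w : Cube (n + 1))) := by
    intro j
    by_cases hj : j = i
    · exact Or.inl ⟨false, fun v => by rw [hj]; simp⟩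
    · obtain ⟨k, hk⟩ := Fin.exists_succAbove_eq hj
      refine Or.inr (Or.inl ⟨k, fun v => ?_⟩)
      rw [← hk]; simp
  exact hC.comp _ (isCubeMorphism_of_isMor hmor) _ hc

lemma IsCorner.congr {C : CubeStructure X} {n : ℕ} {c d : Cube (n + 1) → X}
    (hc : IsCorner C n c) (h : ∀ v, v ≠ ⊤ → c v = d v) : IsCorner C n d := by
  intro i
  have h1 : (fun w : Cube n => d (i.insertNth false w)) =
      fun w : Cube n => c (i.insertNth false w) := by
    funext w
    refine (h _ fun h2 => ?_).symm
    have := congrFun h2 i
    simp at this
  rw [h1]
  exact hc i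

/-- uniqueness of completions in dimension at least `k+1` -/
lemma CI_unique {C : CubeStructure X} (hC : IsNilspace C) {k : ℕ} (hk : IsStep C k) {I : Type}
    [Finite I] (hcard : k + 1 ≤ Nat.card I) {c d : (I → Bool) → X} (hc : CI C c) (hd : CI C d)
    (h : ∀ v, v ≠ ⊤ → c v = d v) : c = d := by
  haveI := Fintype.ofFinite I
  rw [Nat.card_eq_fintype_card] at hcard
  have hemb : Nonempty (Fin (k + 1) ↪ I) := by
    refine Function.Embedding.nonempty_of_card_le ?_
    simpa using hcard
  obtain ⟨f⟩ := hemb
  classical
  let φ : Cube (k + 1) → (I → Bool) := fun v i =>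
    if hi : ∃ j, f j = i then v hi.choose else true
  have hφ : IsMor φ := by
    intro i
    by_cases hi : ∃ j, f j = i
    · exact Or.inr (Or.inl ⟨hi.choose, fun v => by simp only [φ, dif_pos hi]⟩)
    · exact Or.inl ⟨true, fun v => by simp only [φ, dif_neg hi]⟩
  have hφf : ∀ v j, φ v (f j) = v j := by
    intro v j
    have hi : ∃ j', f j' = f j := ⟨j, rfl⟩
    simp only [φ, dif_pos hi]
    exact congrArg v (f.injective hi.choose_spec)
  have hφtop : φ ⊤ = ⊤ := by
    funext i
    simp only [φ]
    split_ifs <;> rfl
  have hφne : ∀ v, v ≠ ⊤ → φ v ≠ ⊤ := by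
    intro v hv h2
    apply hv
    funext j
    rw [← hφf v j, h2]; rfl
  have hc' := (CI_fin hC).1 (hc.comp hC hφ)
  have hd' := (CI_fin hC).1 (hd.comp hC hφ)
  have h3 := hk _ (corner_of_cube hC hc') _ hc' _ hd' (fun v _ => rfl)
    (fun v hv => (h _ (hφne v hv)).symm)
  have h4 := congrFun h3 ⊤
  simp only [hφtop] at h4
  funext v
  by_cases hv : v = ⊤
  · rw [hv, h4]
  · exact h v hv

/-- the lower face below `w` -/
noncomputable def low {I : Type*} (w v : I → Bool) : I → Bool := fun i => w i && v i

lemma isMor_low {I : Type} (w : I → Bool) : IsMor (low w) := by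
  intro i
  by_cases h : w i = true
  · exact Or.inr (Or.inl ⟨i, fun v => by simp [low, h]⟩)
  · exact Or.inl ⟨false, fun v => by simp only [Bool.not_eq_true] at h; simp [low, h]⟩

lemma low_le {I : Type*} (w v : I → Bool) : low w v ≤ w := by
  intro i
  simp only [low]
  cases w i <;> simp

lemma low_of_le {I : Type*} {w v : I → Bool} (h : v ≤ w) : low w v = v := by
  funext i
  have := h i
  simp only [low]
  cases hv : v i
  · simp
  · rw [hv] at this
    have hw : w i = true := by
      cases hw : w i
      · rw [hw] at this; exact absurd this (by decide : ¬ ((true : Bool) ≤ false))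
      · rfl
    simp [hw]

lemma low_top {I : Type*} (v : I → Bool) : low ⊤ v = v := low_of_le le_top

/-- completing at a vertex `w` when all smaller lower faces are cubes. -/
lemma corner_low {C : CubeStructure X} (hC : IsNilspace C) {I : Type} [Finite I]
    (f : (I → Bool) → X) (w : I → Bool)
    (h : ∀ u, u < w → CI C (fun v => f (low u v))) :
    ∃ x, CI C (fun v => upd f w x (low w v)) := by
  classical
  by_cases hw : w = ⊥
  · refine ⟨f ⊥, ?_⟩
    have : (fun v : I → Bool => upd f w (f ⊥) (low w v)) = fun _ => f ⊥ := by
      funext v
      have : low w v = w := le_antisymm (low_le w v) (by rw [hw]; exact bot_le)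
      rw [this, upd_same]
    rw [this]
    exact CI_const hC _
  -- index set of the face
  let J : Type := {i : I // w i = true}
  haveI : Finite J := inferInstance
  haveI : Nonempty J := by
    by_contra hne
    apply hw
    funext i
    by_contra h2
    exact hne ⟨⟨i, by simpa using h2⟩⟩
  let ext : (J → Bool) → (I → Bool) := fun v i => if hi : w i = true then v ⟨i, hi⟩ else false
  let res : (I → Bool) → (J → Bool) := fun v j => v j.1
  have hext : IsMor ext := by
    intro i
    by_cases hi : w i = true
    · exact Or.inr (Or.inl ⟨⟨i, hi⟩, fun v => by simp only [ext, dif_pos hi]⟩)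
    · exact Or.inl ⟨false, fun v => by simp only [ext, dif_neg hi]⟩
  have hres : IsMor res := fun j => Or.inr (Or.inl ⟨j.1, fun v => rfl⟩)
  have hextres : ∀ v, ext (res v) = low w v := by
    intro v
    funext i
    by_cases hi : w i = true
    · simp [ext, res, low, hi]
    · simp only [Bool.not_eq_true] at hi; simp [ext, low, hi]
  let g : (J → Bool) → X := fun v => f (ext v)
  obtain ⟨x, hx⟩ := CI_corner hC g (by
    intro j
    have hu : setb w j.1 false < w := by
      refine lt_of_le_of_ne ?_ ?_
      · intro i
        by_cases hi : i = j.1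
        · rw [hi, setb_same]; exact Bool.false_le _
        · rw [setb_ne _ _ hi]
      · intro h2
        have := congrFun h2 j.1
        rw [setb_same, j.2] at this
        exact absurd this (by decide)
    have h1 := (h _ hu).comp hC hext
    convert h1 using 1
    funext v
    simp only [g]
    congr 1
    funext i
    by_cases hi : w i = true
    · by_cases hij : i = j.1
      · subst hij
        simp only [ext, dif_pos j.2, low, setb_same, Bool.false_and]
        exact setb_same v j false
      · have hij' : (⟨i, hi⟩ : J) ≠ j := fun h => hij (congrArg Subtype.val h)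
        simp only [ext, dif_pos hi, low, setb_ne _ _ hij, setb_ne _ _ hij', hi, Bool.true_and]
    · have hi' : w i = false := by simpa using hi
      by_cases hij : i = j.1
      · exact absurd (hij ▸ j.2) hi
      · simp only [ext, dif_neg hi, low, setb_ne _ _ hij, hi', Bool.false_and])
  refine ⟨x, ?_⟩
  have h2 := hx.comp hC hres
  convert h2 using 1
  funext v
  by_cases hv : low w v = w
  · have : res v = ⊤ := by
      funext j
      have h3 := congrFun hv j.1
      simp only [low, j.2, Bool.true_and] at h3
      exact h3
    rw [hv, upd_same, this, upd_same]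
  · have : res v ≠ ⊤ := by
      intro h3
      apply hv
      rw [← hextres, h3]
      funext i
      by_cases hi : w i = true
      · simp [ext, hi]
      · simp only [Bool.not_eq_true] at hi; simp [ext, hi]
    rw [upd_ne _ _ hv, upd_ne _ _ this]
    simp only [g, hextres]

/-- general construction lemma: extend from a down-closed set, with constraints. -/
lemma build {C : CubeStructure X} (hC : IsNilspace C) {I : Type} [Finite I]
    (P : (I → Bool) → X → Prop)
    (hstep : ∀ (w : I → Bool) (f : (I → Bool) → X),
      (∀ u, u < w → CI C (fun v => f (low u v)) ∧ P u (f u)) →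
      ∃ x, CI C (fun v => upd f w x (low w v)) ∧ P w x)
    (D : Set (I → Bool)) (hD : ∀ u v, u ≤ v → v ∈ D → u ∈ D) (f : (I → Bool) → X)
    (hf : ∀ w ∈ D, CI C (fun v => f (low w v)) ∧ P w (f w)) :
    ∃ g : (I → Bool) → X, (∀ w ∈ D, g w = f w) ∧ (∀ w, CI C (fun v => g (low w v)) ∧ P w (g w)) := by
  classical
  induction hN : (Dᶜ).ncard using Nat.strong_induction_on generalizing D f with
  | _ N ih =>
    by_cases hne : (Dᶜ).Nonempty
    · obtain ⟨w, hw, hwmin⟩ := (Set.toFinite Dᶜ).exists_minimal hne
      have hlt : ∀ u, u < w → u ∈ D := by
        intro u hu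
        by_contra hc
        exact absurd (hwmin hc hu.le) (not_le_of_gt hu)
      obtain ⟨x, hx, hPx⟩ := hstep w f (fun u hu => hf u (hlt u hu))
      have hagree : ∀ u ∈ D, (fun v => upd f w x (low u v)) = fun v => f (low u v) := by
        intro u hu
        funext v
        refine upd_ne _ _ fun h2 => hw ?_
        exact hD w u (h2 ▸ low_le u v) hu
      obtain ⟨g, hg1, hg2⟩ := ih ((insert w D)ᶜ).ncard (by
          rw [← hN]
          refine Set.ncard_lt_ncard ?_ (Set.toFinite _)
          refine ⟨Set.compl_subset_compl.2 (Set.subset_insert _ _), fun h2 => ?_⟩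
          have := h2 hw
          exact this (Set.mem_insert _ _)) (insert w D) (by
          intro u v huv hv
          rcases hv with rfl | hv
          · rcases huv.eq_or_lt with h | h
            · exact Or.inl h
            · exact Or.inr (hlt u h)
          · exact Or.inr (hD u v huv hv)) (upd f w x) (by
          intro u hu
          rcases hu with rfl | hu
          · refine ⟨hx, ?_⟩
            rw [upd_same]; exact hPx
          · have hne : u ≠ w := fun h => hw (h ▸ hu)
            rw [hagree u hu, upd_ne _ _ hne]
            exact hf u hu) rfl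
      refine ⟨g, fun u hu => ?_, hg2⟩
      rw [hg1 u (Or.inr hu), upd_ne]
      exact fun h => hw (h ▸ hu)
    · have hall : ∀ w, w ∈ D := by
        intro w
        by_contra hc
        exact hne ⟨w, hc⟩
      exact ⟨f, fun _ _ => rfl, fun w => hf w (hall w)⟩

/-- extension of maps on down-closed sets all of whose faces are cubes. -/
lemma extend {C : CubeStructure X} (hC : IsNilspace C) {I : Type} [Finite I]
    (D : Set (I → Bool)) (hD : ∀ u v, u ≤ v → v ∈ D → u ∈ D) (f : (I → Bool) → X)
    (hf : ∀ w ∈ D, CI C (fun v => f (low w v))) :
    ∃ g : (I → Bool) → X, (∀ w ∈ D, g w = f w) ∧ CI C g := by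
  obtain ⟨g, hg1, hg2⟩ := build hC (fun _ _ => True) (fun w f h => by
    obtain ⟨x, hx⟩ := corner_low hC f w (fun u hu => (h u hu).1)
    exact ⟨x, hx, trivial⟩) D hD f (fun w hw => ⟨hf w hw, trivial⟩)
  refine ⟨g, hg1, ?_⟩
  have := (hg2 ⊤).1
  simpa only [low_top] using this


/-- gluing of cubes in direction `j`. -/
lemma glue {C : CubeStructure X} (hC : IsNilspace C) {I : Type} [Finite I] (j : I)
    {c₁ c₂ : (I → Bool) → X} (h₁ : CI C c₁) (h₂ : CI C c₂)
    (h : ∀ v, c₁ (setb v j true) = c₂ (setb v j false)) :
    CI C (fun v => if v j then c₂ v else c₁ v) := by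
  classical
  -- index `Option I`, the coordinate `some j` is reflected
  let D : Set (Option I → Bool) := {w | w none = false ∨ w (some j) = false}
  let f : (Option I → Bool) → X := fun w =>
    if w none then c₂ (fun i => if i = j then true else w (some i))
    else c₁ (fun i => if i = j then !(w (some j)) else w (some i))
  have hD : ∀ u v, u ≤ v → v ∈ D → u ∈ D := by
    intro u v huv hv
    rcases hv with hv | hv
    · left
      have := huv none
      rw [hv] at this
      exact le_bot_iff.1 this
    · right
      have := huv (some j)
      rw [hv] at this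
      exact le_bot_iff.1 this
  -- the two faces
  have hface₁ : CI C (fun v : Option I → Bool =>
      c₁ (fun i => if i = j then !(v (some j)) else v (some i))) := by
    refine h₁.comp hC ?_
    intro i
    by_cases hi : i = j
    · exact Or.inr (Or.inr ⟨some j, fun v => by simp [hi]⟩)
    · exact Or.inr (Or.inl ⟨some i, fun v => by simp [hi]⟩)
  have hface₂ : CI C (fun v : Option I → Bool =>
      c₂ (fun i => if i = j then v none else v (some i))) := by
    refine h₂.comp hC ?_
    intro i
    by_cases hi : i = j
    · exact Or.inr (Or.inl ⟨none, fun v => by simp [hi]⟩)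
    · exact Or.inr (Or.inl ⟨some i, fun v => by simp [hi]⟩)
  obtain ⟨g, hg1, hg2⟩ := extend hC D hD f (by
    intro w hw
    rcases hw with hw | hw
    · have h3 := hface₁.comp hC (isMor_low w)
      convert h3 using 1
      funext v
      have : low w v none = false := by simp [low, hw]
      simp only [f, this, Bool.false_eq_true, if_false]
    · have h3 := hface₂.comp hC (isMor_low w)
      convert h3 using 1
      funext v
      have h4 : low w v (some j) = false := by simp [low, hw]
      simp only [f]
      by_cases h5 : low w v none = true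
      · simp only [h5, if_true]
      · have h6 : low w v none = false := by simpa using h5
        simp only [h6, Bool.false_eq_true, if_false, h4, Bool.not_false]
        have h7 := h (fun i => low w v (some i))
        have e1 : setb (fun i => low w v (some i)) j true =
            fun i => if i = j then true else low w v (some i) := by
          funext i
          by_cases hi : i = j
          · rw [hi, setb_same]; simp
          · rw [setb_ne _ _ hi]; simp [hi]
        have e2 : setb (fun i => low w v (some i)) j false =
            fun i => if i = j then false else low w v (some i) := by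
          funext i
          by_cases hi : i = j
          · rw [hi, setb_same]; simp
          · rw [setb_ne _ _ hi]; simp [hi]
        rw [e1, e2] at h7
        exact h7)
  have hψ : IsMor (fun (v : I → Bool) (i : Option I) => match i with
      | none => v j
      | some i => if i = j then !(v j) else v i) := by
    intro i
    cases i with
    | none => exact Or.inr (Or.inl ⟨j, fun v => rfl⟩)
    | some i =>
      by_cases hi : i = j
      · exact Or.inr (Or.inr ⟨j, fun v => by simp [hi]⟩)
      · exact Or.inr (Or.inl ⟨i, fun v => by simp [hi]⟩)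
  have h8 := hg2.comp hC hψ
  convert h8 using 1
  funext v
  rw [hg1]
  · simp only [f]
    by_cases hv : v j = true
    · simp only [hv, if_true]
      congr 1
      funext i
      by_cases hi : i = j
      · simp [hi, hv]
      · simp [hi]
    · have hv' : v j = false := by simpa using hv
      simp only [hv', Bool.false_eq_true, if_false]
      congr 1
      funext i
      by_cases hi : i = j
      · simp [hi, hv']
      · simp [hi]
  · change (_ = false) ∨ (_ = false)
    by_cases hv : v j = true
    · right; simp [hv]
    · left; simpa using hv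

/-- reflection in direction `j` -/
lemma CI.reflect {C : CubeStructure X} (hC : IsNilspace C) {I : Type} [Finite I] (j : I)
    {c : (I → Bool) → X} (h : CI C c) : CI C (fun v => c (setb v j (!(v j)))) := by
  refine h.comp hC ?_
  intro i
  by_cases hi : i = j
  · exact Or.inr (Or.inr ⟨j, fun v => by subst hi; exact setb_same v _ _⟩)
  · exact Or.inr (Or.inl ⟨i, fun v => setb_ne _ _ hi⟩)

open Classical in
/-- push the coordinates in `S` to `1` -/
noncomputable def push {I : Type} (S : Set I) (v : I → Bool) : I → Bool :=
  fun i => if i ∈ S then true else v i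

lemma isMor_push {I : Type} (S : Set I) : IsMor (push S) := by
  intro i
  by_cases hi : i ∈ S
  · exact Or.inl ⟨true, fun v => by simp [push, hi]⟩
  · exact Or.inr (Or.inl ⟨i, fun v => by simp [push, hi]⟩)

open Classical in
/-- `e` on the face `S = 1`, `c` off it. -/
noncomputable def repl {I : Type} (S : Set I) (e c : (I → Bool) → X) : (I → Bool) → X :=
  fun v => if ∀ i ∈ S, v i = true then e v else c v

lemma repl_pos {I : Type} {S : Set I} {e c : (I → Bool) → X} {v : I → Bool}
    (h : ∀ i ∈ S, v i = true) : repl S e c v = e v := if_pos h

lemma repl_neg {I : Type} {S : Set I} {e c : (I → Bool) → X} {v : I → Bool}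
    (h : ¬ ∀ i ∈ S, v i = true) : repl S e c v = c v := if_neg h

lemma push_mem {I : Type} {S : Set I} {v : I → Bool} {i : I} (h : i ∈ S) : push S v i = true :=
  if_pos h

lemma push_notMem {I : Type} {S : Set I} {v : I → Bool} {i : I} (h : i ∉ S) : push S v i = v i :=
  if_neg h

lemma push_empty {I : Type} (v : I → Bool) : push (∅ : Set I) v = v := by
  funext i; exact push_notMem (Set.notMem_empty i)

/-- replacement of the values on the face `S = 1`. -/
lemma replace {C : CubeStructure X} (hC : IsNilspace C) {I : Type} [Finite I] (S : Set I)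
    {c : (I → Bool) → X} (hc : CI C c) (e : (I → Bool) → X)
    (hE : CI C (repl S e (fun v => c (push S v)))) :
    CI C (repl S e c) := by
  classical
  have key : ∀ A : Finset I, (∀ i ∈ A, i ∈ S) →
      CI C (repl S e (fun v => c (push (S \ A) v))) := by
    intro A
    induction A using Finset.induction_on with
    | empty =>
      intro _
      simpa using hE
    | insert j A hj ih =>
      intro hA
      have ih' := ih (fun i hi => hA i (Finset.mem_insert_of_mem hi))
      have hjS : j ∈ S := hA j (Finset.mem_insert_self _ _)
      have h₁ : CI C (fun v => c (push (S \ (insert j A : Finset I)) v)) :=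
        hc.comp hC (isMor_push _)
      have hmem : ∀ i, i ≠ j → (i ∈ S \ ((insert j A : Finset I) : Set I) ↔
          i ∈ S \ (A : Set I)) := by
        intro i hij
        simp only [Set.mem_diff, Finset.coe_insert, Set.mem_insert_iff, hij, false_or]
      have h₃ := glue hC j h₁ ih' (by
        intro v
        have h4 : ¬ ∀ i ∈ S, setb v j false i = true := by
          intro h5
          have := h5 j hjS
          rw [setb_same] at this
          exact absurd this (by simp)
        rw [repl_neg h4]
        congr 1
        funext i
        by_cases hij : i = j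
        · subst hij
          have e1 : i ∈ S \ (A : Set I) := ⟨hjS, fun h => hj (by exact_mod_cast h)⟩
          rw [push_mem e1]
          by_cases e2 : i ∈ S \ ((insert i A : Finset I) : Set I)
          · rw [push_mem e2]
          · rw [push_notMem e2, setb_same]
        · by_cases hi : i ∈ S \ (A : Set I)
          · rw [push_mem hi, push_mem ((hmem i hij).2 hi)]
          · rw [push_notMem hi, push_notMem (fun h => hi ((hmem i hij).1 h)),
              setb_ne _ _ hij, setb_ne _ _ hij])
      convert h₃ using 1
      funext v
      by_cases hv : v j = true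
      · simp only [hv, if_true]
        by_cases hall : ∀ i ∈ S, v i = true
        · rw [repl_pos hall, repl_pos hall]
        · rw [repl_neg hall, repl_neg hall]
          congr 1
          funext i
          by_cases hij : i = j
          · subst hij
            simp only [push]
            split_ifs <;> simp [hv]
          · by_cases hi : i ∈ S \ (A : Set I)
            · rw [push_mem hi, push_mem ((hmem i hij).2 hi)]
            · rw [push_notMem hi, push_notMem (fun h => hi ((hmem i hij).1 h))]
      · have hv' : v j = false := by simpa using hv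
        have hall : ¬ ∀ i ∈ S, v i = true := fun h => hv (h j hjS)
        simp only [hv', Bool.false_eq_true, if_false]
        rw [repl_neg hall]
  have h9 := key (Set.toFinite S).toFinset (fun i hi => by simpa using hi)
  convert h9 using 2
  funext v
  rw [Set.Finite.coe_toFinset, Set.diff_self, push_empty]

/-- converse of replacement for single vertices -/
lemma replace_top_conv {C : CubeStructure X} (hC : IsNilspace C) {I : Type} [Finite I]
    {c : (I → Bool) → X} (hc : CI C c) {y : X} (hd : CI C (upd c ⊤ y)) :
    CI C (upd (fun _ : I → Bool => c ⊤) ⊤ y) := by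
  classical
  haveI := Fintype.ofFinite I
  have key : ∀ A : Finset I, CI C (upd (fun v => c (push (A : Set I) v)) ⊤ y) := by
    intro A
    induction A using Finset.induction_on with
    | empty =>
      convert hd using 2
      funext v
      congr 1
      funext i
      simp [push]
    | insert j A hj ih =>
      -- `ih = (a, d)`, `c ∘ push A = (a, b)`, want `(b, d)`
      have h₁ : CI C (fun v => c (push (A : Set I) v)) := hc.comp hC (isMor_push _)
      have h₂ := h₁.reflect hC j
      have h₃ := glue hC j h₂ ih (by
        intro v
        have h4 : setb v j false ≠ ⊤ := by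
          intro h5
          have := congrFun h5 j
          rw [setb_same] at this
          exact absurd this (by simp)
        rw [upd_ne _ _ h4, setb_same, setb_setb]
        rfl)
      convert h₃ using 1
      funext v
      by_cases hv : v = ⊤
      · subst hv
        rw [upd_same]
        have : (⊤ : I → Bool) j = true := rfl
        simp only [this, if_true]
        rw [upd_same]
      · rw [upd_ne _ _ hv]
        by_cases hvj : v j = true
        · simp only [hvj, if_true]
          rw [upd_ne _ _ hv]
          congr 1
          funext i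
          by_cases hij : i = j
          · subst hij
            simp only [push]
            split_ifs <;> simp [hvj]
          · simp [push, Finset.coe_insert, hij]
        · have hvj' : v j = false := by simpa using hvj
          simp only [hvj', Bool.false_eq_true, if_false, Bool.not_false]
          congr 1
          funext i
          by_cases hij : i = j
          · subst hij
            simp [push, setb_same]
          · simp only [push, Finset.coe_insert, Set.mem_insert_iff, hij, false_or]
            rw [setb_ne _ _ hij]
            split_ifs <;> rfl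
  have h9 := key Finset.univ
  convert h9 using 2
  funext v
  congr 1
  funext i
  simp [push]

end basic

end Nil75
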