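import Pool.Agent.Helper75.Nil.CE

/-!
Eigenfunctions of the stabiliser which are invariant under the group are trivial.
-/

set_option linter.all false

open MeasureTheory Topology

namespace Nil75

universe uX uY

section approx

variable {X : Type*} [TopologicalSpace X] [CompactSpace X] [T2Space X]
  [SecondCountableTopology X] [MeasurableSpace X] [BorelSpace X]

/-- approximation of unimodular functions by continuous functions bounded by one. -/
lemma approx_unimodular {μ : Measure X} [IsProbabilityMeasure μ] {f : X → ℂ}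
    (hf : AEStronglyMeasurable f μ) (hf1 : ∀ᵐ y ∂μ, ‖f y‖ = 1) {δ : ℝ} (hδ : 0 < δ) :
    ∃ φ : X → ℂ, Continuous φ ∧ (∀ y, ‖φ y‖ ≤ 1) ∧ ∫ y, ‖f y - φ y‖ ∂μ ≤ δ := by
  have hint : Integrable f μ := Integrable.of_bound hf 1 (by
    filter_upwards [hf1] with y hy using hy.le)
  obtain ⟨g, hg, -⟩ := hint.exists_boundedContinuous_integral_sub_le (half_pos hδ)
  have hmax : ∀ y, 0 < max 1 ‖g y‖ := fun y => lt_max_of_lt_left one_pos
  refine ⟨fun y => ((max 1 ‖g y‖ : ℝ) : ℂ)⁻¹ * g y, ?_, ?_, ?_⟩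
  · refine Continuous.mul (Continuous.inv₀ (by fun_prop) fun y => ?_) g.continuous
    exact_mod_cast (hmax y).ne'
  · intro y
    rw [norm_mul, norm_inv, Complex.norm_real, Real.norm_of_nonneg (hmax y).le,
      inv_mul_le_iff₀ (hmax y), mul_one]
    exact le_max_right _ _
  · have hgi : Integrable (fun y => f y - g y) μ := hint.sub (integrable_cont μ g.continuous)
    calc ∫ y, ‖f y - ((max 1 ‖g y‖ : ℝ) : ℂ)⁻¹ * g y‖ ∂μ
        ≤ ∫ y, 2 * ‖f y - g y‖ ∂μ := by
          refine integral_mono_of_nonneg (Filter.Eventually.of_forall fun y => norm_nonneg _)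
            (hgi.norm.const_mul 2) ?_
          filter_upwards [hf1] with y hy
          have h1 : ‖g y - ((max 1 ‖g y‖ : ℝ) : ℂ)⁻¹ * g y‖ ≤ ‖f y - g y‖ := by
            rcases le_or_gt ‖g y‖ 1 with h | h
            · rw [max_eq_left h]; simp
            · rw [max_eq_right h.le]
              have h2 : g y - ((‖g y‖ : ℝ) : ℂ)⁻¹ * g y =
                  ((1 - ‖g y‖⁻¹ : ℝ) : ℂ) * g y := by push_cast; ring
              rw [h2, norm_mul, Complex.norm_real, Real.norm_of_nonneg (by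
                rw [sub_nonneg]; exact inv_le_one_of_one_le₀ h.le)]
              have h3 : (1 - ‖g y‖⁻¹) * ‖g y‖ = ‖g y‖ - 1 := by
                rw [sub_mul, one_mul, inv_mul_cancel₀ (by linarith)]
              rw [h3, norm_sub_rev, ← hy]
              exact norm_sub_norm_le _ _
          calc ‖f y - ((max 1 ‖g y‖ : ℝ) : ℂ)⁻¹ * g y‖
              = ‖(f y - g y) + (g y - ((max 1 ‖g y‖ : ℝ) : ℂ)⁻¹ * g y)‖ := by congr 1; ring
            _ ≤ ‖f y - g y‖ + ‖f y - g y‖ := (norm_add_le _ _).trans (add_le_add le_rfl h1)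
            _ = 2 * ‖f y - g y‖ := by ring
      _ = 2 * ∫ y, ‖f y - g y‖ ∂μ := integral_const_mul _ _
      _ ≤ 2 * (δ / 2) := by
          refine mul_le_mul_of_nonneg_left ?_ (by norm_num)
          exact hg
      _ = δ := by ring

/-- differences of products of numbers in the unit disc. -/
lemma norm_prod_sub_prod_le {ι : Type*} (s : Finset ι) (a b : ι → ℂ)
    (ha : ∀ i ∈ s, ‖a i‖ ≤ 1) (hb : ∀ i ∈ s, ‖b i‖ ≤ 1) :
    ‖∏ i ∈ s, a i - ∏ i ∈ s, b i‖ ≤ ∑ i ∈ s, ‖a i - b i‖ := by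
  classical
  induction s using Finset.induction_on with
  | empty => simp
  | insert i s hi ih =>
    rw [Finset.prod_insert hi, Finset.prod_insert hi, Finset.sum_insert hi]
    have ih' := ih (fun j hj => ha j (Finset.mem_insert_of_mem hj))
      (fun j hj => hb j (Finset.mem_insert_of_mem hj))
    have h1 : a i * ∏ j ∈ s, a j - b i * ∏ j ∈ s, b j =
        (a i - b i) * ∏ j ∈ s, a j + b i * (∏ j ∈ s, a j - ∏ j ∈ s, b j) := by ring
    rw [h1]
    refine (norm_add_le _ _).trans (add_le_add ?_ ?_)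
    · rw [norm_mul]
      have h2 : ‖∏ j ∈ s, a j‖ ≤ 1 := by
        rw [norm_prod]
        exact Finset.prod_le_one (fun j _ => norm_nonneg _)
          (fun j hj => ha j (Finset.mem_insert_of_mem hj))
      exact mul_le_of_le_one_right (norm_nonneg _) h2
    · rw [norm_mul]
      calc ‖b i‖ * ‖∏ j ∈ s, a j - ∏ j ∈ s, b j‖ ≤ 1 * ‖∏ j ∈ s, a j - ∏ j ∈ s, b j‖ :=
            mul_le_mul_of_nonneg_right (hb i (Finset.mem_insert_self i s)) (norm_nonneg _)
        _ ≤ _ := by rw [one_mul]; exact ih'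

end approx

section eigen

variable {Γ Z : Type*} {X : Type uX} [Group Γ] [CommGroup Z] [TopologicalSpace Z]
  [IsTopologicalGroup Z] [CompactSpace Z] [T2Space Z]
  [TopologicalSpace X] [CompactSpace X] [T2Space X] [SecondCountableTopology X]
  [MeasurableSpace X] [BorelSpace X]
  [MulAction Γ X] [ContinuousConstSMul Γ X] [MulAction Z X] [ContinuousSMul Z X]
  [SMulCommClass Γ Z X]

lemma integral_smul_left_right {G : Type*} [Group G] [MulAction G X] [ContinuousConstSMul G X]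
    {μ : Measure X} {g : G} (h : MeasurePreserving (fun y : X => g • y) μ μ) (a b : X → ℂ) :
    ∫ y, a (g • y) * b y ∂μ = ∫ y, a y * b (g⁻¹ • y) ∂μ := by
  rw [← h.integral_comp (Homeomorph.smul g).measurableEmbedding (fun y => a y * b (g⁻¹ • y))]
  simp

/-- a unimodular eigenfunction which is uniformly approximable in the dual sense is invariant. -/
lemma eigen_trivial {x : X} (hmin : ∀ y ∈ Orb Γ x, x ∈ Orb Γ y)
    {μ : Measure X} (hμ : IsInv Γ x μ)
    (hμH : ∀ h : stab Γ Z x, MeasurePreserving (fun y : X => h • y) μ μ)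
    {f : X → ℂ} (hf : AEStronglyMeasurable f μ) (hf1 : ∀ᵐ y ∂μ, ‖f y‖ = 1)
    (hfΓ : ∀ g : Γ, (fun y => f (g • y)) =ᵐ[μ] f)
    (h : stab Γ Z x) (χ : ℂ) (hχ1 : ‖χ‖ = 1) (hfH : ∀ᵐ y ∂μ, f (h • y) = χ * f y)
    (happ : ∀ κ : ℝ, 0 < κ → ∃ u : X → ℂ, Continuous u ∧ ∀ ψ : X → ℂ, Continuous ψ →
      ‖∫ y, f y * ψ y ∂μ - ∫ y, u y * ψ y ∂μ‖ ≤ κ * ∫ y, ‖ψ y‖ ∂μ) : χ = 1 := by
  haveI := hμ.prob
  have hint : Integrable f μ := Integrable.of_bound hf 1 (by
    filter_upwards [hf1] with y hy using hy.le)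
  have hnn : ∀ ψ : X → ℂ, 0 ≤ ∫ y, ‖ψ y‖ ∂μ := fun ψ => integral_nonneg fun y => norm_nonneg _
  have hmulint : ∀ F : X → ℂ, Continuous F → Integrable (fun y => f y * F y) μ := by
    intro F hF
    obtain ⟨B, hB⟩ := (isCompact_range hF).isBounded.exists_norm_le
    exact hint.mul_bdd (c := B) hF.measurable.aestronglyMeasurable
      (Filter.Eventually.of_forall fun h => hB _ ⟨h, rfl⟩)
  have main : ∀ κ : ℝ, 0 < κ → κ ≤ 1 / 8 → ‖χ - 1‖ ≤ 8 * κ := by
    intro κ hκ hκ8
    obtain ⟨u, hu, hue⟩ := happ κ hκ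
    -- almost invariance under Γ
    have h1 : ∀ g : Γ, ∀ y ∈ Orb Γ x, ‖u (g • y) - u y‖ ≤ 2 * κ := by
      intro g
      refine hμ.sup_le hmin (w := fun y => u (g • y) - u y) (by fun_prop) (by positivity)
        fun ψ hψ => ?_
      have hψg : Continuous fun y => ψ (g⁻¹ • y) := by fun_prop
      have e1 : ∫ y, u (g • y) * ψ y ∂μ = ∫ y, u y * ψ (g⁻¹ • y) ∂μ :=
        integral_smul_left_right (hμ.inv g) u ψ
      have e2 : ∫ y, f y * ψ y ∂μ = ∫ y, f y * ψ (g⁻¹ • y) ∂μ := by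
        rw [← integral_smul_left_right (hμ.inv g) f ψ]
        refine integral_congr_ae ?_
        filter_upwards [hfΓ g] with y hy
        rw [hy]
      have e3 : ∫ y, ‖ψ (g⁻¹ • y)‖ ∂μ = ∫ y, ‖ψ y‖ ∂μ :=
        integral_smul_eq (hμ.inv g⁻¹) fun y => ‖ψ y‖
      have e4 : ∫ y, (u (g • y) - u y) * ψ y ∂μ =
          (∫ y, u y * ψ (g⁻¹ • y) ∂μ - ∫ y, f y * ψ (g⁻¹ • y) ∂μ) +
          (∫ y, f y * ψ y ∂μ - ∫ y, u y * ψ y ∂μ) := by
        simp only [sub_mul]
        rw [integral_sub (integrable_cont μ (by fun_prop)) (integrable_cont μ (by fun_prop)),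
          e1, e2]
        ring
      rw [e4]
      have e5 := hue _ hψg
      rw [norm_sub_rev, e3] at e5
      calc _ ≤ κ * ∫ y, ‖ψ y‖ ∂μ + κ * ∫ y, ‖ψ y‖ ∂μ :=
            (norm_add_le _ _).trans (add_le_add e5 (hue ψ hψ))
        _ = 2 * κ * ∫ y, ‖ψ y‖ ∂μ := by ring
    -- almost constancy
    have h2 : ∀ y ∈ Orb Γ x, ∀ y' ∈ Orb Γ x, ‖u y' - u y‖ ≤ 2 * κ := by
      intro y hy y' hy'
      have h3 : y' ∈ Orb Γ y := Orb_subset_Orb (hmin y hy) hy'
      have h4 : IsClosed {w | ‖u w - u y‖ ≤ 2 * κ} :=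
        isClosed_le (by fun_prop) continuous_const
      have h5 : Orb Γ y ⊆ {w | ‖u w - u y‖ ≤ 2 * κ} := by
        refine closure_minimal ?_ h4
        rintro _ ⟨g, rfl⟩
        exact h1 g y hy
      exact h5 h3
    have h3 : ∀ y ∈ Orb Γ x, ‖u (h • y) - χ * u y‖ ≤ 2 * κ := by
      refine hμ.sup_le hmin (w := fun y => u (h • y) - χ * u y) (by fun_prop) (by positivity)
        fun ψ hψ => ?_
      have hψg : Continuous fun y => ψ (h⁻¹ • y) := by fun_prop
      have e1 : ∫ y, u (h • y) * ψ y ∂μ = ∫ y, u y * ψ (h⁻¹ • y) ∂μ :=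
        integral_smul_left_right (hμH h) u ψ
      have e2 : χ * ∫ y, f y * ψ y ∂μ = ∫ y, f y * ψ (h⁻¹ • y) ∂μ := by
        rw [← integral_smul_left_right (hμH h) f ψ, ← integral_const_mul]
        refine integral_congr_ae ?_
        filter_upwards [hfH] with y hy
        rw [hy, mul_assoc]
      have e3 : ∫ y, ‖ψ (h⁻¹ • y)‖ ∂μ = ∫ y, ‖ψ y‖ ∂μ :=
        integral_smul_eq (hμH h⁻¹) fun y => ‖ψ y‖
      have e4 : ∫ y, (u (h • y) - χ * u y) * ψ y ∂μ =
          (∫ y, u y * ψ (h⁻¹ • y) ∂μ - ∫ y, f y * ψ (h⁻¹ • y) ∂μ) +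
          χ * (∫ y, f y * ψ y ∂μ - ∫ y, u y * ψ y ∂μ) := by
        simp only [sub_mul, mul_sub]
        rw [integral_sub (integrable_cont μ (by fun_prop)) (integrable_cont μ (by fun_prop)),
          e1, e2]
        have e5 : ∫ y, χ * u y * ψ y ∂μ = χ * ∫ y, u y * ψ y ∂μ := by
          rw [← integral_const_mul]; congr 1; funext y; ring
        rw [e5]
        ring
      rw [e4]
      have e5 := hue _ hψg
      rw [norm_sub_rev, e3] at e5
      calc _ ≤ κ * ∫ y, ‖ψ y‖ ∂μ + κ * ∫ y, ‖ψ y‖ ∂μ := by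
            refine (norm_add_le _ _).trans (add_le_add e5 ?_)
            rw [norm_mul, hχ1, one_mul]
            exact hue ψ hψ
        _ = 2 * κ * ∫ y, ‖ψ y‖ ∂μ := by ring
    -- u is not small
    have h4 : ∃ y ∈ Orb Γ x, 1 / 2 ≤ ‖u y‖ := by
      by_contra hcon
      push Not at hcon
      obtain ⟨φ, hφ, hφ1, hφd⟩ := approx_unimodular hf hf1 hκ
      have e1 := hue (fun y => (starRingEnd ℂ) (φ y)) (Complex.continuous_conj.comp hφ)
      have e2 : ∫ y, ‖(starRingEnd ℂ) (φ y)‖ ∂μ ≤ 1 := by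
        calc ∫ y, ‖(starRingEnd ℂ) (φ y)‖ ∂μ ≤ ∫ y, (1 : ℝ) ∂μ := by
              refine integral_mono (integrable_cont μ (by
                exact (Complex.continuous_conj.comp hφ).norm)) (integrable_const _) fun y => ?_
              simpa using hφ1 y
          _ = 1 := by simp
      have e3 : ‖∫ y, u y * (starRingEnd ℂ) (φ y) ∂μ‖ ≤ 1 / 2 := by
        have := norm_integral_le_of_norm_le_const (μ := μ)
          (f := fun y => u y * (starRingEnd ℂ) (φ y)) (C := 1 / 2) (by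
          filter_upwards [hμ.ae_mem] with y hy
          rw [norm_mul, RCLike.norm_conj]
          calc ‖u y‖ * ‖φ y‖ ≤ (1 / 2) * 1 :=
                mul_le_mul (hcon y hy).le (hφ1 y) (norm_nonneg _) (by norm_num)
            _ = 1 / 2 := by norm_num)
        simpa using this
      have e4 : ‖1 - ∫ y, f y * (starRingEnd ℂ) (φ y) ∂μ‖ ≤ κ := by
        have hff : ∫ y, f y * (starRingEnd ℂ) (f y) ∂μ = 1 := by
          have : ∫ y, f y * (starRingEnd ℂ) (f y) ∂μ = ∫ y, (1 : ℂ) ∂μ := by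
            refine integral_congr_ae ?_
            filter_upwards [hf1] with y hy
            rw [Complex.mul_conj, Complex.normSq_eq_norm_sq, hy]; simp
          rw [this]; simp
        have hffi : Integrable (fun y => f y * (starRingEnd ℂ) (f y)) μ :=
          hint.mul_bdd (c := 1) (Complex.continuous_conj.comp_aestronglyMeasurable hf) (by
            filter_upwards [hf1] with y hy
            rw [RCLike.norm_conj, hy])
        rw [← hff, ← integral_sub hffi (hmulint (fun y => (starRingEnd ℂ) (φ y))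
          (Complex.continuous_conj.comp hφ))]
        calc ‖∫ y, (f y * (starRingEnd ℂ) (f y) - f y * (starRingEnd ℂ) (φ y)) ∂μ‖
            ≤ ∫ y, ‖f y - φ y‖ ∂μ := by
              refine norm_integral_le_of_norm_le (hint.sub (integrable_cont μ hφ)).norm ?_
              filter_upwards [hf1] with y hy
              rw [← mul_sub, ← map_sub, norm_mul, RCLike.norm_conj, hy, one_mul]
          _ ≤ κ := hφd
      have e5 : ‖(1 : ℂ)‖ ≤ κ + κ + 1 / 2 := by
        calc ‖(1 : ℂ)‖ = ‖(1 - ∫ y, f y * (starRingEnd ℂ) (φ y) ∂μ) +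
              (∫ y, f y * (starRingEnd ℂ) (φ y) ∂μ - ∫ y, u y * (starRingEnd ℂ) (φ y) ∂μ) +
              ∫ y, u y * (starRingEnd ℂ) (φ y) ∂μ‖ := by congr 1; ring
          _ ≤ κ + κ + 1 / 2 := by
              refine (norm_add₃_le).trans (add_le_add_three e4 ?_ e3)
              refine e1.trans ?_
              calc κ * ∫ y, ‖(starRingEnd ℂ) (φ y)‖ ∂μ ≤ κ * 1 :=
                    mul_le_mul_of_nonneg_left e2 hκ.le
                _ = κ := mul_one κ
      rw [norm_one] at e5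
      linarith
    obtain ⟨y, hy, huy⟩ := h4
    have h5 : ‖(χ - 1) * u y‖ ≤ 4 * κ := by
      have e1 := h3 y hy
      have e2 := h2 y hy (h • y) (stab_smul_mem' h hy)
      calc ‖(χ - 1) * u y‖ = ‖(u (h • y) - u y) - (u (h • y) - χ * u y)‖ := by congr 1; ring
        _ ≤ 2 * κ + 2 * κ := (norm_sub_le _ _).trans (add_le_add e2 e1)
        _ = 4 * κ := by ring
    rw [norm_mul] at h5
    nlinarith [norm_nonneg (χ - 1)]
  have h0 : ‖χ - 1‖ ≤ 0 := by
    refine le_of_forall_pos_le_add fun ε hε => ?_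
    have := main (min (1 / 8) (ε / 8)) (by positivity) (min_le_left _ _)
    have h2 : 8 * min (1 / 8) (ε / 8) ≤ ε := by
      have := min_le_right (1 / 8 : ℝ) (ε / 8)
      linarith
    linarith
  exact sub_eq_zero.1 (norm_le_zero_iff.1 h0)

end eigen


section star

/-- signed value -/
noncomputable def sgv (b : Bool) (w : ℂ) : ℂ := if b then w else (starRingEnd ℂ) w

lemma norm_sgv (b : Bool) (w : ℂ) : ‖sgv b w‖ = ‖w‖ := by
  unfold sgv; split_ifs <;> simp

lemma sgv_mul (b : Bool) (w z : ℂ) : sgv b (w * z) = sgv b w * sgv b z := by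
  unfold sgv; split_ifs <;> simp

lemma sgv_sub (b : Bool) (w z : ℂ) : sgv b (w - z) = sgv b w - sgv b z := by
  unfold sgv; split_ifs <;> simp

lemma continuous_sgv (b : Bool) : Continuous (sgv b) := by
  unfold sgv
  split_ifs
  · exact continuous_id
  · exact Complex.continuous_conj

lemma sgv_mul_not (b : Bool) {w : ℂ} (hw : ‖w‖ = 1) : sgv b w * sgv (!b) w = 1 := by
  have h1 : w * (starRingEnd ℂ) w = 1 := by
    rw [Complex.mul_conj, Complex.normSq_eq_norm_sq, hw]; simp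
  unfold sgv
  cases b
  · simpa [mul_comm] using h1
  · simpa using h1

variable {Γ Z : Type*} {X : Type uX} {X' : Type uY} [Group Γ] [CommGroup Z] [TopologicalSpace Z]
  [IsTopologicalGroup Z] [CompactSpace Z] [T2Space Z]
  [TopologicalSpace X] [CompactSpace X] [T2Space X] [SecondCountableTopology X]
  [MeasurableSpace X] [BorelSpace X]
  [MulAction Γ X] [ContinuousConstSMul Γ X] [MulAction Z X] [ContinuousSMul Z X]
  [SMulCommClass Γ Z X]
  [TopologicalSpace X'] [CompactSpace X'] [T2Space X'] [SecondCountableTopology X']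
  [MeasurableSpace X'] [BorelSpace X']
  [MulAction Γ X'] [ContinuousConstSMul Γ X']

variable {π : X → X'} (hπ : IsExt Γ Z π) {x : X} {n : ℕ}
  (hmin : ∀ y ∈ Orb Γ x, x ∈ Orb Γ y)
  (hminn : ∀ y ∈ Orb (HK n Γ) (fun _ : Cube n => x), (fun _ : Cube n => x) ∈ Orb (HK n Γ) y)
  (hAn' : AvgProp (HK n Γ) (fun _ : Cube n => π x))
  {m : Measure (Cube n → X)} (hm : IsInv (HK n Γ) (fun _ => x) m)
  (hmH : ∀ h : stab (HK n Γ) (Cube n → Z) (fun _ : Cube n => x),
    MeasurePreserving (fun y : Cube n → X => h • y) m m)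
  {μ : Measure X} (hμ : IsInv Γ x μ)
  (hμH : ∀ h : stab Γ Z x, MeasurePreserving (fun y : X => h • y) μ μ)
  (hACE : ACE n m μ)
  {sg : Cube n → Bool} (hsg : sg ⊥ = true)
  (hstar : ∀ z ∈ stab (HK n Γ) (Cube n → Z) (fun _ : Cube n => x),
    ∏ v, (if sg v then z v else (z v)⁻¹) = 1)

include hπ hmin hminn hAn' hm hmH hμ hμH hACE hsg hstar

/-- a `Γ`-invariant unimodular function which is a `χ`-eigenfunction of the stabiliser forces
`χ = 1`. -/
lemma eigen_one {f : X → ℂ} (hf : AEStronglyMeasurable f μ) (hf1 : ∀ᵐ y ∂μ, ‖f y‖ = 1)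
    (hfΓ : ∀ g : Γ, (fun y => f (g • y)) =ᵐ[μ] f) (χ : stab Γ Z x →* Circle)
    (hfH : ∀ h : stab Γ Z x, ∀ᵐ y ∂μ, f (h • y) = χ h * f y) (h : stab Γ Z x) : χ h = 1 := by
  haveI := hμ.prob
  haveI := hm.prob
  have hint : Integrable f μ := Integrable.of_bound hf 1 (by
    filter_upwards [hf1] with y hy using hy.le)
  have hnn : ∀ ψ : X → ℂ, 0 ≤ ∫ y, ‖ψ y‖ ∂μ := fun ψ => integral_nonneg fun y => norm_nonneg _
  have hmp : ∀ v : Cube n, MeasurePreserving (fun c : Cube n → X => c v) m μ := fun v =>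
    ⟨measurable_pi_apply v, marginal hπ hminn hAn' hm hmH hμ hμH v⟩
  -- the product function on cubes
  set Φ : (Cube n → X) → ℂ := fun c => ∏ v, sgv (sg v) (f (c v)) with hΦ
  have hfv : ∀ v : Cube n, AEStronglyMeasurable (fun c : Cube n → X => f (c v)) m := fun v =>
    hf.comp_measurePreserving (hmp v)
  have hfv1 : ∀ᵐ c ∂m, ∀ v : Cube n, ‖f (c v)‖ = 1 := by
    rw [ae_all_iff]
    exact fun v => (hmp v).quasiMeasurePreserving.ae hf1
  have hΦm : AEStronglyMeasurable Φ m := by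
    have : Φ = ∏ v, fun c => sgv (sg v) (f (c v)) := by
      funext c; rw [Finset.prod_apply]
    rw [this]
    exact Finset.aestronglyMeasurable_prod _ fun v _ =>
      (continuous_sgv (sg v)).comp_aestronglyMeasurable (hfv v)
  have hΦ1 : ∀ᵐ c ∂m, ‖Φ c‖ = 1 := by
    filter_upwards [hfv1] with c hc
    rw [hΦ]
    simp [norm_prod, norm_sgv, hc]
  have hΦΓ : ∀ g : HK n Γ, (fun c => Φ (g • c)) =ᵐ[m] Φ := by
    intro g
    have h1 : ∀ᵐ c ∂m, ∀ v : Cube n, f (g.1 v • c v) = f (c v) := by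
      rw [ae_all_iff]
      exact fun v => (hmp v).quasiMeasurePreserving.ae (hfΓ (g.1 v))
    filter_upwards [h1] with c hc
    change ∏ v, sgv (sg v) (f (g.1 v • c v)) = ∏ v, sgv (sg v) (f (c v))
    simp_rw [hc]
  have hΦH : ∀ z : stab (HK n Γ) (Cube n → Z) (fun _ : Cube n => x),
      (fun c => Φ (z • c)) =ᵐ[m] Φ := by
    intro z
    let z' : Cube n → stab Γ Z x := fun v => ⟨z.1 v, coord_mem_stab z.2 v⟩
    have h1 : ∀ᵐ c ∂m, ∀ v : Cube n, f (z' v • c v) = χ (z' v) * f (c v) := by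
      rw [ae_all_iff]
      exact fun v => (hmp v).quasiMeasurePreserving.ae (hfH (z' v))
    have h2 : ∏ v, sgv (sg v) (χ (z' v) : ℂ) = 1 := by
      have h3 : ∏ v, (if sg v then z' v else (z' v)⁻¹) = 1 := by
        apply Subtype.ext
        have := hstar z.1 z.2
        rw [Subgroup.val_finsetProd]
        rw [Subgroup.coe_one, ← this]
        refine Finset.prod_congr rfl fun v _ => ?_
        split_ifs <;> rfl
      have h4 := congrArg (fun t => ((χ t : Circle) : ℂ)) h3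
      simp only [map_prod, map_one, Circle.coe_one] at h4
      rw [← h4]
      rw [← Circle.coeHom_apply, map_prod]
      refine Finset.prod_congr rfl fun v _ => ?_
      unfold sgv
      split_ifs with hs
      · rfl
      · rw [map_inv, Circle.coeHom_apply, Circle.coe_inv_eq_conj]
    filter_upwards [h1] with c hc
    change ∏ v, sgv (sg v) (f (z' v • c v)) = ∏ v, sgv (sg v) (f (c v))
    simp_rw [hc, sgv_mul]
    rw [Finset.prod_mul_distrib, h2, one_mul]
  have hconst := const_of_inv (hπ.pi (Cube n) (HK n Γ)) hminn hAn' hm hmH hΦm (M := 1)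
    (by filter_upwards [hΦ1] with c hc using hc.le) hΦΓ hΦH
  set lam := ∫ c, Φ c ∂m with hlam
  have hlam1 : ‖lam‖ = 1 := by
    obtain ⟨c, h1, h2⟩ := (hΦ1.and hconst).exists
    rw [← h1, h2]
  -- solve for the base coordinate
  have hbase : ∀ᵐ c ∂m, f (c ⊥) = lam * ∏ v ∈ Finset.univ.erase (⊥ : Cube n),
      sgv (!(sg v)) (f (c v)) := by
    filter_upwards [hconst, hfv1] with c h1 h2
    have h3 : Φ c = f (c ⊥) * ∏ v ∈ Finset.univ.erase (⊥ : Cube n), sgv (sg v) (f (c v)) := by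
      rw [hΦ]
      simp only
      rw [← Finset.mul_prod_erase _ _ (Finset.mem_univ (⊥ : Cube n)), hsg]
      rfl
    rw [← h1, h3, mul_assoc, ← Finset.prod_mul_distrib]
    have h4 : ∏ v ∈ Finset.univ.erase (⊥ : Cube n),
        (sgv (sg v) (f (c v)) * sgv (!(sg v)) (f (c v))) = 1 :=
      Finset.prod_eq_one fun v _ => sgv_mul_not _ (h2 v)
    rw [h4, mul_one]
  -- approximation
  have happ : ∀ κ : ℝ, 0 < κ → ∃ u : X → ℂ, Continuous u ∧ ∀ ψ : X → ℂ, Continuous ψ →
      ‖∫ y, f y * ψ y ∂μ - ∫ y, u y * ψ y ∂μ‖ ≤ κ * ∫ y, ‖ψ y‖ ∂μ := by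
    intro κ hκ
    set N : ℕ := (Finset.univ.erase (⊥ : Cube n)).card with hN
    obtain ⟨φ, hφ, hφ1, hφd⟩ := approx_unimodular hf hf1 (δ := κ / (2 * (N + 1))) (by positivity)
    set Ψ : (Cube n → X) → ℂ := fun c => lam * ∏ v ∈ Finset.univ.erase (⊥ : Cube n),
      sgv (!(sg v)) (φ (c v)) with hΨ
    have hΨc : Continuous Ψ := by
      refine continuous_const.mul (continuous_finset_prod _ fun v _ => ?_)
      exact (continuous_sgv _).comp (hφ.comp (continuous_apply v))
    obtain ⟨u, hu, hue⟩ := hACE Ψ hΨc (κ / 2) (half_pos hκ)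
    refine ⟨u, hu, fun ψ hψ => ?_⟩
    have e1 : ∫ y, f y * ψ y ∂μ = ∫ c, f (c ⊥) * ψ (c ⊥) ∂m := by
      conv_lhs => rw [← (hmp ⊥).map_eq]
      rw [integral_map (hmp ⊥).aemeasurable]
      rw [(hmp ⊥).map_eq]
      exact hf.mul hψ.measurable.aestronglyMeasurable
    have hfi : Integrable (fun c : Cube n → X => f (c ⊥) * ψ (c ⊥)) m := by
      obtain ⟨B, hB⟩ := (isCompact_range hψ).isBounded.exists_norm_le
      have : Integrable (fun c : Cube n → X => f (c ⊥)) m :=
        (hmp ⊥).integrable_comp_of_integrable hint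
      exact this.mul_bdd (c := B)
        (hψ.comp (continuous_apply (⊥ : Cube n))).measurable.aestronglyMeasurable
        (Filter.Eventually.of_forall fun h => hB _ ⟨_, rfl⟩)
    have hΨi : Integrable (fun c : Cube n → X => Ψ c * ψ (c ⊥)) m :=
      integrable_cont m (hΨc.mul (hψ.comp (continuous_apply (⊥ : Cube n))))
    have hpair : ∀ v ∈ Finset.univ.erase (⊥ : Cube n),
        ∫ c, ‖f (c v) - φ (c v)‖ * ‖ψ (c ⊥)‖ ∂m =
        (∫ y, ‖ψ y‖ ∂μ) * ∫ y, ‖f y - φ y‖ ∂μ := by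
      intro v hv
      have hv' : v ≠ ⊥ := (Finset.mem_erase.1 hv).1
      have hmp2 : MeasurePreserving (fun c : Cube n → X => (c ⊥, c v)) m (μ.prod μ) :=
        ⟨(measurable_pi_apply _).prodMk (measurable_pi_apply _),
          marginal_pair hπ hminn hAn' hm hmH hμ hμH hv'⟩
      have e2 := integral_prod_mul (μ := μ) (ν := μ) (fun y => ‖ψ y‖) (fun y => ‖f y - φ y‖)
      rw [← e2, ← hmp2.map_eq, integral_map hmp2.aemeasurable]
      · congr 1; funext c; ring
      · rw [hmp2.map_eq]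
        exact (hψ.norm.measurable.aestronglyMeasurable.comp_fst).mul
          ((hf.sub hφ.measurable.aestronglyMeasurable).norm.comp_snd)
    have hpairint : ∀ v ∈ Finset.univ.erase (⊥ : Cube n),
        Integrable (fun c : Cube n → X => ‖f (c v) - φ (c v)‖ * ‖ψ (c ⊥)‖) m := by
      intro v _
      obtain ⟨B, hB⟩ := (isCompact_range hψ).isBounded.exists_norm_le
      have : Integrable (fun c : Cube n → X => ‖f (c v) - φ (c v)‖) m :=
        (hmp v).integrable_comp_of_integrable (hint.sub (integrable_cont μ hφ)).norm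
      exact this.mul_bdd (c := B)
        (hψ.norm.comp (continuous_apply (⊥ : Cube n))).measurable.aestronglyMeasurable
        (Filter.Eventually.of_forall fun h => by
          simp only [Function.comp, norm_norm]
          exact hB _ ⟨_, rfl⟩)
    have e3 : ‖∫ c, f (c ⊥) * ψ (c ⊥) ∂m - ∫ c, Ψ c * ψ (c ⊥) ∂m‖ ≤
        κ / 2 * ∫ y, ‖ψ y‖ ∂μ := by
      rw [← integral_sub hfi hΨi]
      calc ‖∫ c, (f (c ⊥) * ψ (c ⊥) - Ψ c * ψ (c ⊥)) ∂m‖
          ≤ ∫ c, ∑ v ∈ Finset.univ.erase (⊥ : Cube n), ‖f (c v) - φ (c v)‖ * ‖ψ (c ⊥)‖ ∂m := by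
            refine norm_integral_le_of_norm_le (integrable_finsetSum _ hpairint) ?_
            filter_upwards [hbase, hfv1] with c h1 h2
            rw [← sub_mul, norm_mul, h1, ← Finset.sum_mul]
            refine mul_le_mul_of_nonneg_right ?_ (norm_nonneg _)
            rw [hΨ]
            simp only
            rw [← mul_sub, norm_mul, hlam1, one_mul]
            refine (norm_prod_sub_prod_le _ _ _ ?_ ?_).trans (le_of_eq ?_)
            · intro v _; rw [norm_sgv, h2]
            · intro v _; rw [norm_sgv]; exact hφ1 _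
            · refine Finset.sum_congr rfl fun v _ => ?_
              rw [← sgv_sub, norm_sgv]
        _ = ∑ v ∈ Finset.univ.erase (⊥ : Cube n),
            ∫ c, ‖f (c v) - φ (c v)‖ * ‖ψ (c ⊥)‖ ∂m := integral_finsetSum _ hpairint
        _ = ∑ v ∈ Finset.univ.erase (⊥ : Cube n),
            (∫ y, ‖ψ y‖ ∂μ) * ∫ y, ‖f y - φ y‖ ∂μ := Finset.sum_congr rfl hpair
        _ = N * ((∫ y, ‖ψ y‖ ∂μ) * ∫ y, ‖f y - φ y‖ ∂μ) := by
            rw [Finset.sum_const, nsmul_eq_mul]
        _ ≤ N * ((∫ y, ‖ψ y‖ ∂μ) * (κ / (2 * (N + 1)))) := by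
            refine mul_le_mul_of_nonneg_left ?_ (Nat.cast_nonneg _)
            exact mul_le_mul_of_nonneg_left hφd (hnn ψ)
        _ = (N / (N + 1) : ℝ) * (κ / 2 * ∫ y, ‖ψ y‖ ∂μ) := by field_simp
        _ ≤ 1 * (κ / 2 * ∫ y, ‖ψ y‖ ∂μ) := by
            refine mul_le_mul_of_nonneg_right ?_ (mul_nonneg (half_pos hκ).le (hnn ψ))
            rw [div_le_one (by positivity)]; linarith
        _ = κ / 2 * ∫ y, ‖ψ y‖ ∂μ := one_mul _
    rw [e1]
    calc ‖∫ c, f (c ⊥) * ψ (c ⊥) ∂m - ∫ y, u y * ψ y ∂μ‖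
        = ‖(∫ c, f (c ⊥) * ψ (c ⊥) ∂m - ∫ c, Ψ c * ψ (c ⊥) ∂m) +
          (∫ c, Ψ c * ψ (c ⊥) ∂m - ∫ y, u y * ψ y ∂μ)‖ := by congr 1; ring
      _ ≤ κ / 2 * ∫ y, ‖ψ y‖ ∂μ + κ / 2 * ∫ y, ‖ψ y‖ ∂μ :=
        (norm_add_le _ _).trans (add_le_add e3 (hue ψ hψ))
      _ = κ * ∫ y, ‖ψ y‖ ∂μ := by ring
  have := eigen_trivial hmin hμ hμH hf hf1 hfΓ h (χ h : ℂ) (Circle.norm_coe _) (hfH h) happ
  exact Circle.ext (by simpa using this)

end star

end Nil75
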