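import Pool.Agent.Helper75.Nil.Average

/-!
Compact abelian group extensions of actions: stabilisers of orbit closures, descending functions.
-/

set_option linter.all false

open MeasureTheory Topology

namespace Nil75

universe uX

/-- `π : X → X'` is a `Γ`-equivariant continuous surjection whose fibres are the `Z`-orbits. -/
structure IsExt (Γ Z : Type*) {X X' : Type*} [One Z] [TopologicalSpace X] [TopologicalSpace X']
    [SMul Γ X] [SMul Γ X'] [SMul Z X] (π : X → X') : Prop where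
  cont : Continuous π
  surj : Function.Surjective π
  equiv : ∀ (g : Γ) x, π (g • x) = g • π x
  fib : ∀ x y, π x = π y ↔ ∃ z : Z, z • x = y
  free : ∀ (z : Z) (x : X), z • x = x → z = 1

/-- functions constant on the fibres of `j` restricted to a compact set descend. -/
lemma descend_general {X E : Type*} {W : Type uX} [TopologicalSpace X] [TopologicalSpace W]
    [CompactSpace W] [T2Space W] [TopologicalSpace E] [TietzeExtension.{uX} E] {j : X → W}
    (hj : Continuous j) {O : Set X} (hO : IsCompact O) {F : X → E} (hF : Continuous F)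
    (hinv : ∀ y₁ ∈ O, ∀ y₂ ∈ O, j y₁ = j y₂ → F y₁ = F y₂) :
    ∃ F' : C(W, E), ∀ y ∈ O, F' (j y) = F y := by
  set K : Set W := j '' O
  haveI : CompactSpace O := isCompact_iff_compactSpace.1 hO
  have hK : IsClosed K := (hO.image hj).isClosed
  let q : O → K := fun y => ⟨j y.1, y.1, y.2, rfl⟩
  have hqc : Continuous q := by
    refine Continuous.subtype_mk ?_ _
    exact hj.comp continuous_subtype_val
  have hqs : Function.Surjective q := by
    rintro ⟨_, y, hy, rfl⟩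
    exact ⟨⟨y, hy⟩, rfl⟩
  have hq : IsQuotientMap q := (hqc.isClosedMap).isQuotientMap hqc hqs
  let f : C(O, E) := ⟨fun y => F y.1, hF.comp continuous_subtype_val⟩
  have hdesc : ∀ a b : O, q a = q b → f a = f b := fun a b hab =>
    hinv a.1 a.2 b.1 b.2 (congrArg (fun t : K => (t : W)) hab)
  have hdesc' : Function.FactorsThrough f (⟨q, hqc⟩ : C(O, K)) := fun a b hab => hdesc a b hab
  let fK : C(K, E) := IsQuotientMap.lift (f := ⟨q, hqc⟩) hq f hdesc'
  obtain ⟨F', hF'⟩ := ContinuousMap.exists_restrict_eq hK fK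
  refine ⟨F', fun y hy => ?_⟩
  have h1 : F' (j y) = fK (q ⟨y, hy⟩) := by
    rw [← hF']; rfl
  rw [h1]
  have h2 := IsQuotientMap.lift_comp (f := ⟨q, hqc⟩) hq f hdesc'
  exact congrArg (fun g : C(O, E) => g ⟨y, hy⟩) h2

section

variable {Γ Z X : Type*} {X' : Type uX} [Group Γ] [CommGroup Z] [TopologicalSpace Z] [IsTopologicalGroup Z]
  [CompactSpace Z]
  [TopologicalSpace X] [CompactSpace X] [T2Space X]
  [MulAction Γ X] [ContinuousConstSMul Γ X] [MulAction Z X] [ContinuousSMul Z X]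
  [SMulCommClass Γ Z X]
  [TopologicalSpace X'] [CompactSpace X'] [T2Space X']
  [MulAction Γ X'] [ContinuousConstSMul Γ X']

lemma smul_Orb_subset (z : Z) {x y : X} (hy : y ∈ Orb Γ x) : z • y ∈ Orb Γ (z • x) := by
  have h : Set.MapsTo (fun y : X => z • y) (Set.range fun g : Γ => g • x)
      (Set.range fun g : Γ => g • z • x) := by
    rintro _ ⟨g', rfl⟩
    exact ⟨g', smul_comm _ _ _⟩
  exact h.closure (continuous_const_smul z) hy

/-- the carrier of the stabiliser. -/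
lemma stab_mul {x : X} {a b : Z} (ha : a • x ∈ Orb Γ x) (hb : b • x ∈ Orb Γ x) :
    (a * b) • x ∈ Orb Γ x := by
  rw [mul_smul]
  exact Orb_subset_Orb ha (smul_Orb_subset a hb)

lemma isClosed_stabSet (x : X) : IsClosed {z : Z | z • x ∈ Orb Γ x} :=
  (isClosed_Orb x).preimage (continuous_id.smul continuous_const)

lemma stab_pow {x : X} {a : Z} (ha : a • x ∈ Orb Γ x) (n : ℕ) : (a ^ n) • x ∈ Orb Γ x := by
  induction n with
  | zero => simpa using self_mem_Orb x
  | succ n ih => rw [pow_succ]; exact stab_mul ih ha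

lemma stab_inv {x : X} {a : Z} (ha : a • x ∈ Orb Γ x) : a⁻¹ • x ∈ Orb Γ x := by
  have h1 : a⁻¹ ∈ closure (Set.range fun n : ℕ => a ^ n) := by
    rw [← closure_range_zpow_eq_pow]
    exact subset_closure ⟨-1, by simp⟩
  have h2 : closure (Set.range fun n : ℕ => a ^ n) ⊆ {z : Z | z • x ∈ Orb Γ x} := by
    refine closure_minimal ?_ (isClosed_stabSet x)
    rintro _ ⟨n, rfl⟩
    exact stab_pow ha n
  exact h2 h1

variable (Γ Z) in
/-- stabiliser of the orbit closure of `x`. -/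
def stab (x : X) : Subgroup Z where
  carrier := {z : Z | z • x ∈ Orb Γ x}
  mul_mem' := fun ha hb => stab_mul ha hb
  one_mem' := by simpa using self_mem_Orb x
  inv_mem' := fun ha => stab_inv ha

lemma mem_stab {x : X} {z : Z} : z ∈ stab Γ Z x ↔ z • x ∈ Orb Γ x := Iff.rfl

instance (x : X) : CompactSpace (stab Γ Z x) :=
  isCompact_iff_compactSpace.1 (isClosed_stabSet (Γ := Γ) (Z := Z) x).isCompact

lemma stab_smul_mem {x y : X} {z : Z} (hz : z ∈ stab Γ Z x) (hy : y ∈ Orb Γ x) :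
    z • y ∈ Orb Γ x :=
  Orb_subset_Orb hz (smul_Orb_subset z hy)

lemma stab_smul_mem' {x y : X} (h : stab Γ Z x) (hy : y ∈ Orb Γ x) :
    h • y ∈ Orb Γ x := stab_smul_mem h.2 hy

/-- minimality of orbit closures lifts to extensions. -/
lemma min_lift {π : X → X'} (hπ : IsExt Γ Z π) {x : X}
    (hmin : ∀ y' ∈ Orb Γ (π x), π x ∈ Orb Γ y') : ∀ y ∈ Orb Γ x, x ∈ Orb Γ y := by
  intro y hy
  have h1 : π x ∈ Orb Γ (π y) :=
    hmin _ (map_mem_Orb (Γ := Γ) (Λ := Γ) id hπ.cont hπ.equiv hy)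
  rw [← image_Orb (Γ := Γ) (Λ := Γ) id Function.surjective_id hπ.cont hπ.equiv y] at h1
  obtain ⟨w, hw, hwx⟩ := h1
  obtain ⟨z, hz⟩ := (hπ.fib x w).1 hwx.symm
  -- z • x = w ∈ Orb y ⊆ Orb x
  have hzs : z ∈ stab Γ Z x := by
    rw [mem_stab, hz]; exact Orb_subset_Orb hy hw
  have h2 : z⁻¹ • x ∈ Orb Γ x := stab_inv hzs
  have h3 : z • z⁻¹ • x ∈ Orb Γ (z • x) := smul_Orb_subset z h2
  rw [smul_inv_smul, hz] at h3
  exact Orb_subset_Orb hw h3

/-- points of an orbit closure in the same fibre differ by the stabiliser. -/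
lemma fib_stab {π : X → X'} (hπ : IsExt Γ Z π) {x : X} (hmin : ∀ y ∈ Orb Γ x, x ∈ Orb Γ y)
    {y₁ y₂ : X} (h₁ : y₁ ∈ Orb Γ x) (h₂ : y₂ ∈ Orb Γ x) (h : π y₁ = π y₂) :
    ∃ z ∈ stab Γ Z x, z • y₁ = y₂ := by
  obtain ⟨z, hz⟩ := (hπ.fib y₁ y₂).1 h
  refine ⟨z, ?_, hz⟩
  rw [mem_stab]
  have h3 : z • x ∈ Orb Γ (z • y₁) := smul_Orb_subset z (hmin _ h₁)
  rw [hz] at h3
  exact Orb_subset_Orb h₂ h3

/-- continuous functions on the orbit closure that are constant on fibres descend. -/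
lemma descend {E : Type*} [TopologicalSpace E] [TietzeExtension.{uX} E] {π : X → X'}
    (hπ : IsExt Γ Z π) (x : X) {F : X → E} (hF : Continuous F)
    (hinv : ∀ y₁ ∈ Orb Γ x, ∀ y₂ ∈ Orb Γ x, π y₁ = π y₂ → F y₁ = F y₂) :
    ∃ F' : C(X', E), ∀ y ∈ Orb Γ x, F' (π y) = F y := by
  exact descend_general hπ.cont (isClosed_Orb x).isCompact hF hinv

/-- variant with invariance under the stabiliser -/
lemma descend_stab {E : Type*} [TopologicalSpace E] [TietzeExtension.{uX} E] {π : X → X'}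
    (hπ : IsExt Γ Z π) (x : X) (hmin : ∀ y ∈ Orb Γ x, x ∈ Orb Γ y) {F : X → E} (hF : Continuous F)
    (hinv : ∀ h : stab Γ Z x, ∀ y ∈ Orb Γ x, F (h • y) = F y) :
    ∃ F' : C(X', E), ∀ y ∈ Orb Γ x, F' (π y) = F y := by
  refine descend hπ x hF fun y₁ h₁ y₂ h₂ h => ?_
  obtain ⟨z, hz, hzy⟩ := fib_stab hπ hmin h₁ h₂ h
  rw [← hzy]
  exact (hinv ⟨z, hz⟩ y₁ h₁).symm

end

end Nil75
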