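import Pool.Agent.Helper75.Nil.Cubes

/-!
The factors of a nilspace.
-/

set_option linter.all false

namespace Nil75

universe u

section

variable {X : Type u} {C : CubeStructure X} (hC : IsNilspace C) {k : ℕ}

lemma exists_top_face (k : ℕ) {I : Type} [Finite I] (hcard : k ≤ Nat.card I) :
    ∃ φ : Cube k → (I → Bool), IsMor φ ∧ φ ⊤ = ⊤ ∧ ∀ v, v ≠ ⊤ → φ v ≠ ⊤ := by
  haveI := Fintype.ofFinite I
  rw [Nat.card_eq_fintype_card] at hcard
  have hemb : Nonempty (Fin k ↪ I) := by
    refine Function.Embedding.nonempty_of_card_le ?_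
    simpa using hcard
  obtain ⟨f⟩ := hemb
  classical
  let φ : Cube k → (I → Bool) := fun v i =>
    if hi : ∃ j, f j = i then v hi.choose else true
  have hφ : IsMor φ := by
    intro i
    by_cases hi : ∃ j, f j = i
    · exact Or.inr (Or.inl ⟨hi.choose, fun v => by simp only [φ, dif_pos hi]⟩)
    · exact Or.inl ⟨true, fun v => by simp only [φ, dif_neg hi]⟩
  have hφf : ∀ v j, φ v (f j) = v j := by
    intro v j
    have hi : ∃ j', f j' = f j := ⟨j, rfl⟩
    simp only [φ, dif_pos hi]
    exact congrArg v (f.injective hi.choose_spec)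
  refine ⟨φ, hφ, ?_, ?_⟩
  · funext i
    simp only [φ]
    split_ifs <;> rfl
  · intro v hv h2
    apply hv
    funext j
    rw [← hφf v j, h2]; rfl

include hC

lemma sim_iff {x y : X} :
    SimRel C k x y ↔ CI C (upd (fun _ : Cube (k + 1) => x) ⊤ y) := by
  constructor
  · rintro ⟨c, hc, d, hd, hcd, rfl, rfl⟩
    have h1 : d = upd c ⊤ (d ⊤) := by
      funext v
      by_cases hv : v = ⊤
      · rw [hv, upd_same]
      · rw [upd_ne _ _ hv, hcd v hv]
    refine replace_top_conv hC ((CI_fin hC).2 hc) ?_
    rw [← h1]
    exact (CI_fin hC).2 hd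
  · intro h
    exact ⟨fun _ => x, (CI_fin hC).1 (CI_const hC x), _, (CI_fin hC).1 h,
      fun v hv => (upd_ne (fun _ : Cube (k + 1) => x) y hv).symm, rfl, upd_same _ _ _⟩

lemma sim_iff_card {I : Type} [Finite I] (hI : Nat.card I = k + 1) {x y : X} :
    SimRel C k x y ↔ CI C (upd (fun _ : I → Bool => x) ⊤ y) := by
  rw [sim_iff hC]
  obtain ⟨e⟩ : Nonempty (Fin (k + 1) ≃ I) := by
    haveI := Fintype.ofFinite I
    rw [Nat.card_eq_fintype_card] at hI
    exact ⟨((Fintype.equivFin I).trans (finCongr hI)).symm⟩
  have key : ∀ {A B : Type} [Finite A] [Finite B] (e : A ≃ B),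
      CI C (upd (fun _ : A → Bool => x) ⊤ y) → CI C (upd (fun _ : B → Bool => x) ⊤ y) := by
    intro A B _ _ e h
    have h2 := h.comp hC (IsMor.reindex e)
    convert h2 using 1
    funext v
    by_cases hv : v = ⊤
    · subst hv
      have : (fun j => (⊤ : B → Bool) (e j)) = ⊤ := rfl
      rw [this, upd_same, upd_same]
    · have : (fun j => v (e j)) ≠ ⊤ := by
        intro h3
        apply hv
        funext b
        have := congrFun h3 (e.symm b)
        simpa using this
      rw [upd_ne _ _ hv, upd_ne _ _ this]
  exact ⟨fun h => key e h, fun h => key e.symm h⟩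

lemma sim_refl (x : X) : SimRel C k x x :=
  ⟨_, (CI_fin hC).1 (CI_const hC x), _, (CI_fin hC).1 (CI_const hC x), fun _ _ => rfl, rfl, rfl⟩

omit hC in
lemma sim_symm {x y : X} (h : SimRel C k x y) : SimRel C k y x := by
  obtain ⟨c, hc, d, hd, hcd, h1, h2⟩ := h
  exact ⟨d, hd, c, hc, fun v hv => (hcd v hv).symm, h2, h1⟩

lemma sim_trans {x y z : X} (h₁ : SimRel C k x y) (h₂ : SimRel C k y z) : SimRel C k x z := by
  have h₁' := (sim_iff hC).1 (sim_symm h₁)
  have h₂' := (sim_iff hC).1 h₂
  refine ⟨_, (CI_fin hC).1 h₁', _, (CI_fin hC).1 h₂', fun v hv => ?_, upd_same _ _ _,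
    upd_same _ _ _⟩
  rw [upd_ne _ _ hv, upd_ne _ _ hv]

lemma sim_equiv : Equivalence (SimRel C k) :=
  ⟨sim_refl hC, sim_symm, sim_trans hC⟩

lemma toFactor_eq_iff {x y : X} : toFactor C k x = toFactor C k y ↔ SimRel C k x y :=
  (sim_equiv hC).quot_mk_eq_iff x y

omit hC in
lemma toFactor_surj : Function.Surjective (toFactor C k) := Quot.mk_surjective

/-- one may change the value at a vertex of a `(k+1)`-cube within its class -/
lemma sat_one {I : Type} [Finite I] (hI : Nat.card I = k + 1) {c : (I → Bool) → X}
    (hc : CI C c) {w : I → Bool} {y : X} (h : SimRel C k (c w) y) : CI C (upd c w y) := by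
  -- reflect `w` to the top
  let φ : (I → Bool) → (I → Bool) := fun v i => if w i then v i else !(v i)
  have hφ : IsMor φ := by
    intro i
    by_cases hi : w i = true
    · exact Or.inr (Or.inl ⟨i, fun v => by simp [φ, hi]⟩)
    · exact Or.inr (Or.inr ⟨i, fun v => by simp [φ, hi]⟩)
  have hφφ : ∀ v, φ (φ v) = v := by
    intro v
    funext i
    by_cases hi : w i = true
    · simp [φ, hi]
    · simp [φ, hi]
  have hφtop : φ ⊤ = w := by
    funext i
    by_cases hi : w i = true
    · simp [φ, hi]
    · have hi' : w i = false := by simpa using hi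
      simp [φ, hi']
  have h1 : CI C (fun v => c (φ v)) := hc.comp hC hφ
  have h2 : CI C (upd (fun v => c (φ v)) ⊤ y) := by
    have h3 : upd (fun v => c (φ v)) ⊤ y = repl Set.univ (fun _ => y) (fun v => c (φ v)) := by
      funext v
      by_cases hv : v = ⊤
      · rw [hv, upd_same, repl_pos]
        intro i _; rfl
      · rw [upd_ne _ _ hv, repl_neg]
        intro h4
        exact hv (funext fun i => h4 i trivial)
    rw [h3]
    refine replace hC Set.univ h1 _ ?_
    have h5 : (repl Set.univ (fun _ => y) fun v => c (φ (push Set.univ v))) =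
        upd (fun _ : I → Bool => c w) ⊤ y := by
      funext v
      by_cases hv : v = ⊤
      · rw [hv, upd_same, repl_pos]
        intro i _; rfl
      · rw [upd_ne _ _ hv, repl_neg]
        · have : push Set.univ v = ⊤ := by
            funext i; exact push_mem (Set.mem_univ i)
          rw [this, hφtop]
        · intro h4
          exact hv (funext fun i => h4 i trivial)
    rw [h5]
    exact (sim_iff_card hC hI).1 h
  have h6 := h2.comp hC hφ
  convert h6 using 1
  funext v
  by_cases hv : v = w
  · subst hv
    have : φ v = ⊤ := by rw [← hφtop, hφφ]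
    rw [this, upd_same, upd_same]
  · have : φ v ≠ ⊤ := by
      intro h7
      apply hv
      rw [← hφφ v, h7, hφtop]
    rw [upd_ne _ _ hv, upd_ne _ _ this, hφφ]

lemma sat_eq {I : Type} [Finite I] (hI : Nat.card I = k + 1) {c c' : (I → Bool) → X}
    (hc : CI C c) (h : ∀ v, SimRel C k (c v) (c' v)) : CI C c' := by
  classical
  haveI := Fintype.ofFinite I
  have key : ∀ A : Finset (I → Bool), CI C (fun v => if v ∈ A then c' v else c v) := by
    intro A
    induction A using Finset.induction_on with
    | empty => simpa using hc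
    | insert w A hw ih =>
      have h1 := sat_one hC hI ih (w := w) (y := c' w) (by simpa [hw] using h w)
      convert h1 using 1
      funext v
      by_cases hv : v = w
      · subst hv; rw [upd_same]; simp
      · rw [upd_ne _ _ hv]; simp [hv]
  simpa using key Finset.univ

lemma sat_le {I : Type} [Finite I] (hI : Nat.card I ≤ k + 1) {c c' : (I → Bool) → X}
    (hc : CI C c) (h : ∀ v, SimRel C k (c v) (c' v)) : CI C c' := by
  let J : Type := I ⊕ Fin (k + 1 - Nat.card I)
  haveI : Finite J := inferInstance
  have hJ : Nat.card J = k + 1 := by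
    rw [Nat.card_sum, Nat.card_fin]; omega
  have h1 : CI C (fun v : J → Bool => c (fun i => v (Sum.inl i))) :=
    hc.comp hC (IsMor.reindex _)
  have h2 : CI C (fun v : J → Bool => c' (fun i => v (Sum.inl i))) :=
    sat_eq hC hJ h1 (fun v => h _)
  have h3 := h2.comp hC (φ := fun (v : I → Bool) (j : J) => Sum.elim v (fun _ => true) j) (by
    rintro (i | i)
    · exact Or.inr (Or.inl ⟨i, fun v => rfl⟩)
    · exact Or.inl ⟨true, fun v => rfl⟩)
  exact h3

/-- uniqueness of completions modulo the relation -/
lemma factor_unique {J : Type} [Finite J] (hJ : k + 1 ≤ Nat.card J) {g₁ g₂ : (J → Bool) → X}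
    (h₁ : CI C g₁) (h₂ : CI C g₂) (h : ∀ v, v ≠ ⊤ → SimRel C k (g₁ v) (g₂ v)) :
    SimRel C k (g₁ ⊤) (g₂ ⊤) := by
  obtain ⟨φ, hφ, hφtop, hφne⟩ := exists_top_face (k + 1) hJ
  have h₁' : CI C (fun v => g₁ (φ v)) := h₁.comp hC hφ
  have h₂' : CI C (fun v => g₂ (φ v)) := h₂.comp hC hφ
  have h₃ : CI C (upd (fun v => g₁ (φ v)) ⊤ (g₂ ⊤)) := by
    refine sat_eq hC (k := k) (by simp) h₂' fun v => ?_
    by_cases hv : v = ⊤
    · subst hv
      rw [upd_same, hφtop]
      exact sim_refl hC _
    · rw [upd_ne _ _ hv]
      exact sim_symm (h _ (hφne v hv))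
  refine ⟨fun v => g₁ (φ v), (CI_fin hC).1 h₁', _, (CI_fin hC).1 h₃,
    fun v hv => (upd_ne (fun v => g₁ (φ v)) (g₂ ⊤) hv).symm, ?_, upd_same _ _ _⟩
  change g₁ (φ ⊤) = g₁ ⊤
  rw [hφtop]

/-- the factor is a nilspace -/
lemma factor_nilspace : IsNilspace (factorCubes C k) where
  comp := by
    rintro m n φ hφ _ ⟨d, hd, rfl⟩
    exact ⟨d ∘ φ, hC.comp φ hφ d hd, rfl⟩
  ergodic := by
    intro c
    choose d hd using fun v => toFactor_surj (C := C) (k := k) (c v)
    exact ⟨d, hC.ergodic d, funext fun v => (hd v).symm⟩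
  corner := by
    intro n c' hc'
    let P : Cube (n + 1) → X → Prop := fun w x => w ≠ ⊤ → toFactor C k x = c' w
    have hX : Nonempty X := by
      obtain ⟨x, -⟩ := toFactor_surj (C := C) (k := k) (c' ⊤)
      exact ⟨x⟩
    obtain ⟨x₀⟩ := hX
    obtain ⟨g, -, hg⟩ := build hC (I := Fin (n + 1)) P (by
      intro w f hf
      by_cases hw : w = ⊤
      · obtain ⟨x, hx⟩ := corner_low hC f w (fun u hu => (hf u hu).1)
        exact ⟨x, hx, fun h => absurd hw h⟩
      -- a lift of the lower face
      obtain ⟨i₀, hi₀⟩ : ∃ i, w i = false := by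
        by_contra hcon
        push Not at hcon
        exact hw (funext fun i => by simpa using hcon i)
      obtain ⟨d₀, hd₀, hd₀'⟩ := hc' i₀
      let J : Type := {i : Fin (n + 1) // w i = true}
      let ext : (J → Bool) → Cube (n + 1) := fun v i => if hi : w i = true then v ⟨i, hi⟩ else false
      let res : Cube (n + 1) → (J → Bool) := fun v j => v j.1
      have hextmor : IsMor ext := by
        intro i
        by_cases hi : w i = true
        · exact Or.inr (Or.inl ⟨⟨i, hi⟩, fun v => by simp only [ext, dif_pos hi]⟩)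
        · exact Or.inl ⟨false, fun v => by simp only [ext, dif_neg hi]⟩
      have hres : IsMor res := fun j => Or.inr (Or.inl ⟨j.1, fun v => rfl⟩)
      have hextres : ∀ v, ext (res v) = low w v := by
        intro v
        funext i
        by_cases hi : w i = true
        · simp [ext, res, low, hi]
        · simp only [Bool.not_eq_true] at hi; simp [ext, low, hi]
      have hexttop : ext ⊤ = w := by
        funext i
        by_cases hi : w i = true
        · simp [ext, hi]
        · simp only [Bool.not_eq_true] at hi; simp [ext, hi]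
      have hextlt : ∀ v, v ≠ ⊤ → ext v < w := by
        intro v hv
        refine lt_of_le_of_ne ?_ ?_
        · intro i
          by_cases hi : w i = true
          · rw [hi]; exact Bool.le_true _
          · simp only [ext, dif_neg hi]; exact Bool.false_le _
        · intro h
          apply hv
          funext j
          have := congrFun h j.1
          simp only [ext, dif_pos j.2, j.2] at this
          exact this
      have hextne : ∀ v, ext v ≠ ⊤ := by
        intro v h
        have := congrFun h i₀
        simp only [ext, hi₀] at this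
        simp at this
      -- the lift
      have hlift : ∃ d : (J → Bool) → X, CI C d ∧ ∀ v, toFactor C k (d v) = c' (ext v) := by
        let ρ : (J → Bool) → Cube n := fun v j => ext v (i₀.succAbove j)
        have hρ : IsMor ρ := (IsMor.reindex i₀.succAbove).comp hextmor
        refine ⟨fun v => d₀ (ρ v), ((CI_fin hC).2 hd₀).comp hC hρ, fun v => ?_⟩
        have h1 : c' (i₀.insertNth false (ρ v)) = toFactor C k (d₀ (ρ v)) :=
          congrFun hd₀' (ρ v)
        rw [← h1]
        congr 1
        funext i
        refine Fin.succAboveCases i₀ ?_ (fun j => ?_) i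
        · simp [ext, hi₀]
        · simp [ρ]
      obtain ⟨d, hd, hdc⟩ := hlift
      by_cases hJ : Nat.card J ≤ k + 1
      · obtain ⟨x, hx⟩ := toFactor_surj (C := C) (k := k) (c' w)
        refine ⟨x, ?_, fun _ => hx⟩
        have h1 : CI C (fun v : J → Bool => upd f w x (ext v)) := by
          refine sat_le hC hJ hd fun v => ?_
          rw [← toFactor_eq_iff hC, hdc]
          by_cases hv : v = ⊤
          · subst hv
            rw [hexttop, upd_same, hx]
          · rw [upd_ne _ _ (hextlt v hv).ne]
            exact ((hf _ (hextlt v hv)).2 (hextne v)).symm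
        have h2 := h1.comp hC hres
        simp only [hextres] at h2
        exact h2
      · obtain ⟨x, hx⟩ := corner_low hC f w (fun u hu => (hf u hu).1)
        refine ⟨x, hx, fun _ => ?_⟩
        have h1 : CI C (fun v : J → Bool => upd f w x (ext v)) := by
          have h2 := hx.comp hC hextmor
          convert h2 using 1
          funext v
          congr 1
          refine (low_of_le ?_).symm
          by_cases hv : v = ⊤
          · rw [hv, hexttop]
          · exact (hextlt v hv).le
        have h3 := factor_unique hC (k := k) (by omega) h1 hd (fun v hv => by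
          rw [← toFactor_eq_iff hC, hdc, upd_ne _ _ (hextlt v hv).ne]
          exact (hf _ (hextlt v hv)).2 (hextne v))
        rw [← toFactor_eq_iff hC, hdc, hexttop, upd_same] at h3
        exact h3) ∅ (fun _ _ _ h => h.elim) (fun _ => x₀) (fun _ h => h.elim)
    have h1 := (hg ⊤).1
    simp only [low_top] at h1
    exact ⟨fun v => toFactor C k (g v), ⟨g, (CI_fin hC).1 h1, rfl⟩, fun v hv => (hg v).2 hv⟩

lemma factor_step : IsStep (factorCubes C k) k := by
  rintro c hc _ ⟨d, hd, rfl⟩ _ ⟨e, he, rfl⟩ h1 h2
  have hsim : ∀ v, v ≠ ⊤ → SimRel C k (d v) (e v) := by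
    intro v hv
    have h3 : toFactor C k (d v) = c v := h1 v hv
    have h4 : toFactor C k (e v) = c v := h2 v hv
    rw [← toFactor_eq_iff hC, h3, h4]
  have htop := factor_unique hC (J := Fin (k + 1)) (by simp) ((CI_fin hC).2 hd)
    ((CI_fin hC).2 he) hsim
  funext v
  by_cases hv : v = ⊤
  · subst hv
    exact (toFactor_eq_iff hC).2 htop
  · exact (toFactor_eq_iff hC).2 (hsim v hv)

end

end Nil75
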