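import Pool.Agent.Helper75.Nil.Ext

/-!
Invariant measures on orbit closures, and their lifts through compact abelian group extensions.
-/

set_option linter.all false

open MeasureTheory Topology

namespace Nil75

section basics

variable {X : Type*} [TopologicalSpace X] [CompactSpace X] [T2Space X]
  [SecondCountableTopology X] [MeasurableSpace X] [BorelSpace X]

lemma integrable_cont {E : Type*} [NormedAddCommGroup E] [SecondCountableTopology E]
    (μ : Measure X) [IsFiniteMeasure μ] {F : X → E}
    (hF : Continuous F) : Integrable F μ := by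
  obtain ⟨M, hM⟩ := (isCompact_range hF).isBounded.exists_norm_le
  borelize E
  exact Integrable.of_bound hF.measurable.aestronglyMeasurable M
    (Filter.Eventually.of_forall fun h => hM _ ⟨h, rfl⟩)

lemma ext_real {μ ν : Measure X} [IsFiniteMeasure μ] [IsFiniteMeasure ν]
    (h : ∀ F : X → ℝ, Continuous F → ∫ y, F y ∂μ = ∫ y, F y ∂ν) : μ = ν :=
  ext_of_forall_integral_eq_of_IsFiniteMeasure fun f => h f f.continuous

lemma ext_complex {μ ν : Measure X} [IsFiniteMeasure μ] [IsFiniteMeasure ν]
    (h : ∀ F : X → ℂ, Continuous F → ∫ y, F y ∂μ = ∫ y, F y ∂ν) : μ = ν := by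
  refine ext_real fun F hF => ?_
  have := h (fun y => (F y : ℂ)) (by fun_prop)
  rw [integral_complex_ofReal, integral_complex_ofReal] at this
  exact_mod_cast this

variable {Γ : Type*} [Group Γ] [MulAction Γ X] [ContinuousConstSMul Γ X]

variable (Γ) in
/-- invariant probability measure on an orbit closure -/
structure IsInv (x : X) (μ : Measure X) : Prop where
  prob : IsProbabilityMeasure μ
  supp : μ (Orb Γ x)ᶜ = 0
  inv : ∀ g : Γ, MeasurePreserving (fun y : X => g • y) μ μ

variable (Γ) in
/-- averages of continuous functions converge uniformly to constants on the orbit closure. -/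
def AvgProp (x : X) : Prop :=
  ∀ F : X → ℂ, Continuous F → ∀ ε : ℝ, 0 < ε →
    ∃ (A : Av Γ) (c : ℂ), ∀ y ∈ Orb Γ x, ‖A.act F y - c‖ ≤ ε

variable (Γ) in
/-- minimal orbit closure, strongly uniquely ergodic. -/
structure Good (x : X) : Prop where
  min : ∀ y ∈ Orb Γ x, x ∈ Orb Γ y
  avg : AvgProp Γ x
  ex : ∃ μ : Measure X, IsInv Γ x μ

lemma integral_smul_eq {E : Type*} [NormedAddCommGroup E] [NormedSpace ℝ E] {μ : Measure X}
    {g : Γ} (h : MeasurePreserving (fun y : X => g • y) μ μ) (F : X → E) :
    ∫ y, F (g • y) ∂μ = ∫ y, F y ∂μ :=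
  h.integral_comp (Homeomorph.smul g).measurableEmbedding F

lemma integral_act_eq {x : X} {μ : Measure X} (hμ : IsInv Γ x μ) (A : Av Γ) {F : X → ℂ}
    (hF : Continuous F) : ∫ y, A.act F y ∂μ = ∫ y, F y ∂μ := by
  haveI := hμ.prob
  exact Av.integral_act μ A (fun i => integrable_cont μ (by fun_prop))
    (fun i => integral_smul_eq (hμ.inv _) F)

lemma mean_est {x : X} {μ : Measure X} (hμ : IsInv Γ x μ) (A : Av Γ) {F : X → ℂ}
    (hF : Continuous F) {c : ℂ} {ε : ℝ} (h : ∀ y ∈ Orb Γ x, ‖A.act F y - c‖ ≤ ε) :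
    ‖∫ y, F y ∂μ - c‖ ≤ ε := by
  haveI := hμ.prob
  rw [← integral_act_eq hμ A hF]
  have h1 : ∫ y, A.act F y ∂μ - c = ∫ y, (A.act F y - c) ∂μ := by
    rw [integral_sub (integrable_cont μ (A.continuous_act hF)) (integrable_const _)]
    simp
  rw [h1]
  have := norm_integral_le_of_norm_le_const (μ := μ) (f := fun y => A.act F y - c) (C := ε) (by
    have h2 : ∀ᵐ y ∂μ, y ∈ Orb Γ x := by
      rw [ae_iff]; exact hμ.supp
    filter_upwards [h2] with y hy using h y hy)
  simpa using this

lemma IsInv.unique {x : X} {μ ν : Measure X} (hμ : IsInv Γ x μ) (hν : IsInv Γ x ν)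
    (ha : AvgProp Γ x) : μ = ν := by
  haveI := hμ.prob
  haveI := hν.prob
  refine ext_complex fun F hF => ?_
  refine eq_of_forall_dist_le fun ε hε => ?_
  obtain ⟨A, c, hA⟩ := ha F hF (ε / 2) (half_pos hε)
  have h1 := mean_est hμ A hF hA
  have h2 := mean_est hν A hF hA
  calc dist (∫ y, F y ∂μ) (∫ y, F y ∂ν) ≤ dist (∫ y, F y ∂μ) c + dist (∫ y, F y ∂ν) c :=
        dist_triangle_right _ _ _
    _ ≤ ε / 2 + ε / 2 := add_le_add (by rwa [dist_eq_norm]) (by rwa [dist_eq_norm])
    _ = ε := by ring

/-- full support on a minimal orbit closure -/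
lemma IsInv.pos {x : X} {μ : Measure X} (hμ : IsInv Γ x μ) (hmin : ∀ y ∈ Orb Γ x, x ∈ Orb Γ y)
    {U : Set X} (hU : IsOpen U) {y₀ : X} (hy₀ : y₀ ∈ Orb Γ x) (hyU : y₀ ∈ U) : 0 < μ U := by
  haveI := hμ.prob
  rw [pos_iff_ne_zero]
  intro h0
  have hcov : Orb Γ x ⊆ ⋃ g : Γ, (fun y : X => g • y) ⁻¹' U := by
    intro y hy
    have h1 : y₀ ∈ Orb Γ y := Orb_subset_Orb (hmin y hy) hy₀
    obtain ⟨_, h2, g, rfl⟩ := mem_closure_iff.1 h1 U hU hyU
    exact Set.mem_iUnion.2 ⟨g, h2⟩
  obtain ⟨t, ht⟩ := (isClosed_Orb x).isCompact.elim_finite_subcover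
    (fun g : Γ => (fun y : X => g • y) ⁻¹' U) (fun g => hU.preimage (continuous_const_smul g)) hcov
  have h3 : μ (Orb Γ x) = 0 := by
    refine measure_mono_null ht ?_
    refine (measure_biUnion_null_iff (I := (t : Set Γ)) t.countable_toSet).2 ?_
    intro g _
    rw [(hμ.inv g).measure_preimage hU.measurableSet.nullMeasurableSet, h0]
  have h4 : μ Set.univ = 0 := by
    rw [← Set.union_compl_self (Orb Γ x)]
    exact measure_union_null h3 hμ.supp
  simp at h4

/-- a continuous function vanishing a.e. vanishes on the orbit closure. -/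
lemma IsInv.eq_zero_of_ae {x : X} {μ : Measure X} (hμ : IsInv Γ x μ)
    (hmin : ∀ y ∈ Orb Γ x, x ∈ Orb Γ y) {E : Type*} [TopologicalSpace E] [Zero E] [T1Space E]
    {F : X → E} (hF : Continuous F)
    (h : ∀ᵐ y ∂μ, F y = 0) : ∀ y ∈ Orb Γ x, F y = 0 := by
  intro y hy
  by_contra hne
  have hU : IsOpen {y | F y ≠ 0} := isOpen_ne_fun_of_t1 hF
  have := hμ.pos hmin hU hy hne
  rw [ae_iff] at h
  exact absurd h this.ne'
where
  isOpen_ne_fun_of_t1 {E : Type _} [TopologicalSpace E] [Zero E] [T1Space E]
    {F : X → E} (hF : Continuous F) : IsOpen {y | F y ≠ 0} :=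
    (isClosed_singleton (x := (0 : E))).isOpen_compl.preimage hF

end basics

section lift

universe uX

variable {Γ Z X : Type*} {X' : Type uX} [Group Γ] [CommGroup Z] [TopologicalSpace Z]
  [IsTopologicalGroup Z] [CompactSpace Z]
  [TopologicalSpace X] [CompactSpace X] [T2Space X] [SecondCountableTopology X]
  [MeasurableSpace X] [BorelSpace X]
  [MulAction Γ X] [ContinuousConstSMul Γ X] [MulAction Z X] [ContinuousSMul Z X]
  [SMulCommClass Γ Z X]
  [TopologicalSpace X'] [CompactSpace X'] [T2Space X'] [SecondCountableTopology X']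
  [MeasurableSpace X'] [BorelSpace X']
  [MulAction Γ X'] [ContinuousConstSMul Γ X']

lemma avg_smul_comm (H : Subgroup Z) [CompactSpace H] {E : Type*} [NormedAddCommGroup E]
    [NormedSpace ℝ E] (F : X → E) (g : Γ) (y : X) :
    avg H (fun y => F (g • y)) y = avg H F (g • y) := by
  unfold avg
  congr 1
  funext h
  have : g • h • y = h • g • y := smul_comm g (h : Z) y
  change F (g • h • y) = F (h • g • y)
  rw [this]

lemma lift_measure {π : X → X'} (hπ : IsExt Γ Z π) (x : X)
    (hmin : ∀ y ∈ Orb Γ x, x ∈ Orb Γ y) (μ' : Measure X') (hμ' : IsInv Γ (π x) μ') :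
    ∃ μ : Measure X, IsInv Γ x μ ∧
      (∀ h : stab Γ Z x, MeasurePreserving (fun y : X => h • y) μ μ) ∧ μ.map π = μ' := by
  haveI := hμ'.prob
  set O := Orb Γ x with hO
  set H := stab Γ Z x with hH
  have himg : π '' O = Orb Γ (π x) :=
    image_Orb (Γ := Γ) (Λ := Γ) id Function.surjective_id hπ.cont hπ.equiv x
  have hsec : ∀ y' : X', ∃ y : X, π y = y' ∧ (y' ∈ Orb Γ (π x) → y ∈ O) := by
    intro y'
    by_cases hy : y' ∈ Orb Γ (π x)
    · rw [← himg] at hy
      obtain ⟨y, hy1, hy2⟩ := hy
      exact ⟨y, hy2, fun _ => hy1⟩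
    · obtain ⟨y, hy2⟩ := hπ.surj y'
      exact ⟨y, hy2, fun h => absurd h hy⟩
  choose s hs1 hs2 using hsec
  have hae : ∀ᵐ y' ∂μ', y' ∈ Orb Γ (π x) := by
    rw [ae_iff]; exact hμ'.supp
  have hdesc : ∀ F : X → ℝ, Continuous F → ∃ F' : C(X', ℝ), ∀ y ∈ O, F' (π y) = avg H F y := by
    intro F hF
    exact descend_stab hπ x hmin (continuous_avg H hF) (fun h y hy => avg_smul_eq H F h y)
  have hdescae : ∀ F : X → ℝ, Continuous F → ∀ F' : C(X', ℝ),
      (∀ y ∈ O, F' (π y) = avg H F y) → (fun y' => avg H F (s y')) =ᵐ[μ'] F' := by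
    intro F hF F' hF'
    filter_upwards [hae] with y' hy'
    have := hF' (s y') (hs2 y' hy')
    rw [hs1] at this
    exact this.symm
  have hint : ∀ F : X → ℝ, Continuous F → Integrable (fun y' => avg H F (s y')) μ' := by
    intro F hF
    obtain ⟨F', hF'⟩ := hdesc F hF
    exact (integrable_cont μ' F'.continuous).congr (hdescae F hF F' hF').symm
  let Λ : CompactlySupportedContinuousMap X ℝ →ₚ[ℝ] ℝ := PositiveLinearMap.mk₀
    { toFun := fun F => ∫ y', avg H F (s y') ∂μ'
      map_add' := by
        intro F G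
        rw [← integral_add (hint F F.continuous) (hint G G.continuous)]
        refine integral_congr_ae (Filter.Eventually.of_forall fun y' => ?_)
        exact avg_add H F.continuous G.continuous _
      map_smul' := by
        intro c F
        simp only [RingHom.id_apply, smul_eq_mul]
        rw [← integral_const_mul]
        refine integral_congr_ae (Filter.Eventually.of_forall fun y' => ?_)
        exact avg_const_mul H c _ }
    (by
      intro F hF
      exact integral_nonneg fun y' => avg_nonneg H fun h => hF _)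
  have hΛ : ∀ F : X → ℝ, Continuous F →
      ∫ y, F y ∂(RealRMK.rieszMeasure Λ) = ∫ y', avg H F (s y') ∂μ' := by
    intro F hF
    exact RealRMK.integral_rieszMeasure Λ ⟨⟨F, hF⟩, HasCompactSupport.of_compactSpace _⟩
  set ρ := RealRMK.rieszMeasure Λ with hρ
  have hprob : IsProbabilityMeasure ρ := by
    have h1 := hΛ (fun _ => 1) continuous_const
    have h2 : ∀ y', avg H (fun _ : X => (1 : ℝ)) (s y') = 1 := fun y' =>
      avg_of_inv H (F := fun _ : X => (1 : ℝ)) (fun h => rfl)
    simp only [h2, integral_const, smul_eq_mul, mul_one, measureReal_def, measure_univ,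
      ENNReal.toReal_one] at h1
    refine ⟨?_⟩
    rwa [ENNReal.toReal_eq_one_iff] at h1
  refine ⟨ρ, ⟨hprob, ?_, ?_⟩, ?_, ?_⟩
  · -- support
    letI : MetricSpace X := TopologicalSpace.metrizableSpaceMetric X
    have hc : Continuous fun y : X => Metric.infDist y O := Metric.continuous_infDist_pt O
    have h1 := hΛ _ hc
    have h2 : ∫ y', avg H (fun y : X => Metric.infDist y O) (s y') ∂μ' = 0 := by
      have : (fun y' => avg H (fun y : X => Metric.infDist y O) (s y')) =ᵐ[μ'] 0 := by
        filter_upwards [hae] with y' hy'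
        have h3 : ∀ h : H, Metric.infDist (h • s y') O = 0 := fun h =>
          Metric.infDist_zero_of_mem (stab_smul_mem' h (hs2 y' hy'))
        unfold avg
        simp [h3]
      rw [integral_congr_ae this]; simp
    rw [h2] at h1
    have h3 := (integral_eq_zero_iff_of_nonneg (fun y => Metric.infDist_nonneg)
      (integrable_cont ρ hc)).1 h1
    have h4 : ∀ᵐ y ∂ρ, y ∈ O := by
      filter_upwards [h3] with y hy
      exact ((isClosed_Orb x).mem_iff_infDist_zero ⟨x, self_mem_Orb x⟩).2 hy
    exact h4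
  · intro g
    refine ⟨(continuous_const_smul g).measurable, ?_⟩
    haveI : IsProbabilityMeasure (ρ.map (fun y : X => g • y)) :=
      Measure.isProbabilityMeasure_map (continuous_const_smul g).measurable.aemeasurable
    refine ext_real fun F hF => ?_
    rw [integral_map (continuous_const_smul g).measurable.aemeasurable
      hF.measurable.aestronglyMeasurable, hΛ F hF,
      hΛ (fun y => F (g • y)) (by fun_prop)]
    obtain ⟨F', hF'⟩ := hdesc F hF
    rw [integral_congr_ae (hdescae F hF F' hF'), ← integral_smul_eq (hμ'.inv g) F']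
    refine integral_congr_ae ?_
    filter_upwards [hae] with y' hy'
    rw [avg_smul_comm H F g, ← hF' _ (smul_mem_Orb g (hs2 y' hy')), hπ.equiv, hs1]
  · intro h
    refine ⟨(continuous_const_smul h).measurable, ?_⟩
    haveI : IsProbabilityMeasure (ρ.map (fun y : X => h • y)) :=
      Measure.isProbabilityMeasure_map (continuous_const_smul h).measurable.aemeasurable
    refine ext_real fun F hF => ?_
    rw [integral_map (continuous_const_smul h).measurable.aemeasurable
      hF.measurable.aestronglyMeasurable, hΛ F hF,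
      hΛ (fun y => F (h • y)) (by fun_prop)]
    refine integral_congr_ae (Filter.Eventually.of_forall fun y' => ?_)
    have h1 : avg H (fun y => F (h • y)) (s y') = avg H F (h • s y') := by
      unfold avg
      congr 1
      funext k
      change F (h • k • s y') = F (k • h • s y')
      rw [← mul_smul, ← mul_smul, mul_comm]
    change avg H (fun y => F (h • y)) (s y') = _
    rw [h1, avg_smul_eq]
  · haveI : IsProbabilityMeasure (ρ.map π) :=
      Measure.isProbabilityMeasure_map hπ.cont.measurable.aemeasurable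
    refine ext_real fun F hF => ?_
    rw [integral_map hπ.cont.measurable.aemeasurable hF.measurable.aestronglyMeasurable,
      hΛ (fun y => F (π y)) (hF.comp hπ.cont)]
    refine integral_congr_ae (Filter.Eventually.of_forall fun y' => ?_)
    have h1 : avg H (fun y => F (π y)) (s y') = F (π (s y')) := by
      refine avg_of_inv H (F := fun y => F (π y)) fun h => ?_
      have : π (h • s y') = π (s y') := ((hπ.fib (s y') (h • s y')).2 ⟨h, rfl⟩).symm
      simp only [this]
    change avg H (fun y => F (π y)) (s y') = _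
    rw [h1, hs1]

end lift

end Nil75
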