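import Pool.Agent.Helper75.Nil.ZGroup

/-!
Topology of the structure group and of the factors.
-/

set_option linter.all false

open Topology

namespace Nil75

universe u

lemma continuous_of_closed_graph {Y X : Type*} [TopologicalSpace Y] [TopologicalSpace X]
    [CompactSpace X] {f : Y → X} (h : IsClosed {p : Y × X | p.2 = f p.1}) : Continuous f := by
  refine continuous_iff_isClosed.2 fun A hA => ?_
  have h1 : f ⁻¹' A = Prod.fst '' ({p : Y × X | p.2 = f p.1} ∩ (Prod.snd ⁻¹' A)) := by
    ext y
    constructor
    · intro hy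
      exact ⟨(y, f y), ⟨rfl, hy⟩, rfl⟩
    · rintro ⟨⟨y', x⟩, ⟨h2, h3⟩, rfl⟩
      have h4 : x = f y' := h2
      change f y' ∈ A
      rw [← h4]
      exact h3
  rw [h1]
  exact isClosedMap_fst_of_compactSpace _ (h.inter (hA.preimage continuous_snd))

section

variable {X : Type u} [TopologicalSpace X] {C : CubeStructure X} (hC : IsNilspace C)
  (hcl : ∀ n, IsClosed (C n)) {k : ℕ}

include hC hcl in
lemma closed_CI {Y : Type*} [TopologicalSpace Y] {I : Type} [Finite I] (f : Y → (I → Bool) → X)
    (hf : ∀ v, Continuous fun y => f y v) : IsClosed {y | CI C (f y)} := by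
  haveI := Fintype.ofFinite I
  let e : Fin (Fintype.card I) ≃ I := (Fintype.equivFin I).symm
  have h1 : {y | CI C (f y)} =
      (fun y => fun v : Cube (Fintype.card I) => f y (fun i => v (e.symm i))) ⁻¹'
        C (Fintype.card I) := by
    ext y
    exact CI_iff_equiv hC e
  rw [h1]
  exact (hcl _).preimage (continuous_pi fun v => hf _)

lemma continuous_upd {Y V : Type*} [TopologicalSpace Y] {f g : Y → X} (hf : Continuous f)
    (hg : Continuous g) (w v : V) : Continuous fun y => upd (fun _ => f y) w (g y) v := by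
  by_cases h : v = w
  · simp only [upd, h, if_true]; exact hg
  · simp only [upd, h, if_false]; exact hf

include hC hcl in
lemma closed_Q {Y : Type*} [TopologicalSpace Y] {f₁ f₂ f₃ f₄ : Y → X} (h₁ : Continuous f₁)
    (h₂ : Continuous f₂) (h₃ : Continuous f₃) (h₄ : Continuous f₄) :
    IsClosed {y | Q C k (f₁ y) (f₂ y) (f₃ y) (f₄ y)} := by
  refine closed_CI hC hcl (fun y => quad k (f₁ y) (f₂ y) (f₃ y) (f₄ y)) fun v => ?_
  unfold quad
  by_cases hv : v none = true
  · simp only [hv, if_true]; exact continuous_upd h₃ h₄ _ _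
  · simp only [hv, if_false]; exact continuous_upd h₁ h₂ _ _

include hC hcl in
lemma closed_sim {Y : Type*} [TopologicalSpace Y] {f₁ f₂ : Y → X} (h₁ : Continuous f₁)
    (h₂ : Continuous f₂) : IsClosed {y | SimRel C k (f₁ y) (f₂ y)} := by
  have h : {y | SimRel C k (f₁ y) (f₂ y)} =
      {y | CI C (upd (fun _ : Cube (k + 1) => f₁ y) ⊤ (f₂ y))} := by
    ext y; exact sim_iff hC
  rw [h]
  exact closed_CI hC hcl _ fun v => continuous_upd h₁ h₂ _ _

variable [CompactSpace X] [T2Space X] (hk : IsStep C (k + 1))

/-- topology of the structure group, from the orbit map at `x₀`. -/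
@[reducible] def Ztop (x₀ : X) : TopologicalSpace (Zg hC hk) :=
  TopologicalSpace.induced (fun z : Zg hC hk => z • x₀) inferInstance

include hcl in
/-- the action of the structure group is jointly continuous -/
lemma Z_act_cont (x₀ : X) {Y : Type*} [TopologicalSpace Y] {f : Y → Zg hC hk} {g : Y → X}
    (hf : Continuous fun y => f y • x₀) (hg : Continuous g) : Continuous fun y => f y • g y := by
  refine continuous_of_closed_graph ?_
  have h : {p : Y × X | p.2 = f p.1 • g p.1} =
      {p : Y × X | Q C k x₀ (f p.1 • x₀) (g p.1) p.2} := by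
    ext p
    constructor
    · intro hp
      have : p.2 = f p.1 • g p.1 := hp
      change Q C k x₀ (f p.1 • x₀) (g p.1) p.2
      rw [this]
      exact Zg_Q hC hk _ _ _
    · intro hp
      exact Q_unique hC hk hp (Zg_Q hC hk _ _ _)
  rw [h]
  exact closed_Q hC hcl continuous_const (hf.comp continuous_fst) (hg.comp continuous_fst)
    continuous_snd

include hcl in
lemma Z_inv_cont (x₀ : X) {Y : Type*} [TopologicalSpace Y] {f : Y → Zg hC hk}
    (hf : Continuous fun y => f y • x₀) : Continuous fun y => (f y)⁻¹ • x₀ := by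
  refine continuous_of_closed_graph ?_
  have h0 : ∀ z : Zg hC hk, Q C k (z • x₀) x₀ x₀ (z⁻¹ • x₀) := by
    intro z
    have := Zg_Q hC hk z⁻¹ (z • x₀) x₀
    rwa [inv_smul_smul] at this
  have h : {p : Y × X | p.2 = (f p.1)⁻¹ • x₀} =
      {p : Y × X | Q C k (f p.1 • x₀) x₀ x₀ p.2} := by
    ext p
    constructor
    · intro hp
      have : p.2 = (f p.1)⁻¹ • x₀ := hp
      change Q C k (f p.1 • x₀) x₀ x₀ p.2
      rw [this]
      exact h0 _
    · intro hp
      exact Q_unique hC hk hp (h0 _)
  rw [h]
  exact closed_Q hC hcl (hf.comp continuous_fst) continuous_const continuous_const continuous_snd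

include hcl in
lemma Z_homeo (z : Zg hC hk) : Continuous fun x : X => z • x := by
  by_cases hX : Nonempty X
  · obtain ⟨x₀⟩ := hX
    exact Z_act_cont hC hcl hk x₀ (f := fun _ => z) continuous_const continuous_id
  · haveI : IsEmpty X := not_nonempty_iff.1 hX
    exact continuous_of_discreteTopology

include hcl in
/-- all topological facts on the structure group -/
lemma Z_top (x₀ : X) :
    letI := Ztop hC hk x₀
    IsTopologicalGroup (Zg hC hk) ∧ CompactSpace (Zg hC hk) ∧ T2Space (Zg hC hk) ∧
      ContinuousSMul (Zg hC hk) X := by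
  letI := Ztop hC hk x₀
  have hind : IsInducing (fun z : Zg hC hk => z • x₀) := ⟨rfl⟩
  have hinj : Function.Injective (fun z : Zg hC hk => z • x₀) := by
    intro z₁ z₂ h
    have h1 : (z₂⁻¹ * z₁) • x₀ = x₀ := by
      rw [mul_smul]
      change z₂⁻¹ • z₁ • x₀ = x₀
      have h2 : z₁ • x₀ = z₂ • x₀ := h
      rw [h2, inv_smul_smul]
    have h2 := Zg_free hC hk h1
    exact (inv_mul_eq_one.1 h2).symm
  have hemb : IsEmbedding (fun z : Zg hC hk => z • x₀) := ⟨hind, hinj⟩
  have hrange : Set.range (fun z : Zg hC hk => z • x₀) = {y | SimRel C k x₀ y} := by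
    ext y
    constructor
    · rintro ⟨z, rfl⟩
      exact Zg_sim hC hk z x₀
    · intro h
      exact Zg_trans hC hk h
  have hclemb : IsClosedEmbedding (fun z : Zg hC hk => z • x₀) := by
    refine ⟨hemb, ?_⟩
    rw [hrange]
    exact closed_sim hC hcl continuous_const continuous_id
  refine ⟨?_, hclemb.compactSpace, hemb.t2Space, ?_⟩
  · refine { continuous_mul := ?_, continuous_inv := ?_ }
    · rw [hind.continuous_iff]
      have h1 : Continuous fun p : Zg hC hk × Zg hC hk => p.1 • (p.2 • x₀) :=
        Z_act_cont hC hcl hk x₀ (f := fun p : Zg hC hk × Zg hC hk => p.1)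
          (hind.continuous.comp continuous_fst) (hind.continuous.comp continuous_snd)
      have h2 : ((fun z : Zg hC hk => z • x₀) ∘ fun p : Zg hC hk × Zg hC hk => p.1 * p.2) =
          fun p => p.1 • (p.2 • x₀) := by
        funext p
        exact mul_smul _ _ _
      rw [h2]
      exact h1
    · rw [hind.continuous_iff]
      exact Z_inv_cont hC hcl hk x₀ (f := fun z : Zg hC hk => z) hind.continuous
  · refine ⟨?_⟩
    exact Z_act_cont hC hcl hk x₀ (f := fun p : Zg hC hk × X => p.1)
      (hind.continuous.comp continuous_fst) continuous_snd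

omit [CompactSpace X] [T2Space X] in
lemma continuous_toFactor : Continuous (toFactor C k) := continuous_quot_mk

omit [CompactSpace X] [T2Space X] in
lemma isQuotientMap_toFactor : IsQuotientMap (toFactor C k) := isQuotientMap_quot_mk

include hC hcl hk in
lemma isOpenMap_toFactor : IsOpenMap (toFactor C k) := by
  intro U hU
  rw [← isQuotientMap_toFactor.isOpen_preimage]
  have h : toFactor C k ⁻¹' (toFactor C k '' U) = ⋃ z : Zg hC hk, (fun x => z • x) ⁻¹' U := by
    ext y
    rw [Set.mem_iUnion]
    constructor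
    · rintro ⟨x, hx, hxy⟩
      obtain ⟨z, hz⟩ := Zg_trans hC hk (sim_symm ((toFactor_eq_iff hC).1 hxy))
      exact ⟨z, by change z • y ∈ U; rwa [hz]⟩
    · rintro ⟨z, hz⟩
      exact ⟨z • y, hz, ((toFactor_eq_iff hC).2 (Zg_sim hC hk z y)).symm⟩
  rw [h]
  exact isOpen_iUnion fun z => hU.preimage (Z_homeo hC hcl hk z)

include hC hcl hk in
lemma factor_t2 : T2Space (Factor C k) := by
  have ho : IsOpenQuotientMap (toFactor C k) :=
    ⟨toFactor_surj, continuous_toFactor, isOpenMap_toFactor hC hcl hk⟩
  rw [t2Space_iff_of_isOpenQuotientMap ho]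
  have h : {q : X × X | toFactor C k q.1 = toFactor C k q.2} =
      {q : X × X | SimRel C k q.1 q.2} := by
    ext q; exact toFactor_eq_iff hC
  rw [h]
  exact closed_sim hC hcl continuous_fst continuous_snd

include hC hcl hk in
lemma factor_sc [SecondCountableTopology X] : SecondCountableTopology (Factor C k) :=
  isQuotientMap_toFactor.secondCountableTopology (isOpenMap_toFactor hC hcl hk)

omit [T2Space X] in
lemma factor_compact : CompactSpace (Factor C k) :=
  inferInstanceAs (CompactSpace (Quot (SimRel C k)))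

include hC hcl hk in
lemma factor_closed (n : ℕ) : IsClosed (factorCubes C k n) := by
  haveI := factor_t2 hC hcl hk
  have h : factorCubes C k n = (fun (d : Cube n → X) v => toFactor C k (d v)) '' C n := by
    ext c
    constructor
    · rintro ⟨d, hd, rfl⟩; exact ⟨d, hd, rfl⟩
    · rintro ⟨d, hd, rfl⟩; exact ⟨d, hd, rfl⟩
  rw [h]
  exact ((hcl n).isCompact.image (continuous_pi fun v =>
    continuous_toFactor.comp (continuous_apply v))).isClosed

end

end Nil75
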