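import Pool.Agent.Helper75.Nil.Sys
import Pool.Agent.Helper75.Nil.Top
import Pool.Agent.Helper61.PeterWeyl

/-!
Compact nilspaces with groups of translations are towers; Haar measures.
-/

set_option linter.all false

open MeasureTheory Topology

namespace Nil75

universe u v

lemma charSep (H : Type u) [CommGroup H] [TopologicalSpace H] [IsTopologicalGroup H]
    [CompactSpace H] [T2Space H] : CharSep H := fun h hh =>
  Pool.Agent.Helper61.PeterWeyl.exists_char_ne_one h hh

section action

variable {X : Type u} {C : CubeStructure X} {Γ : Type v} [Group Γ] [MulAction Γ X]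

/-- the action on the factor -/
@[reducible] def factorAction (hΓ : ∀ g : Γ, PreservesCubes C 1 (fun x : X => g • x)) (k : ℕ) :
    MulAction Γ (Factor C k) where
  smul g := factorMap (k := k) (hΓ g)
  one_smul := by
    rintro ⟨x⟩
    change toFactor C k ((1 : Γ) • x) = toFactor C k x
    rw [one_smul]
  mul_smul := by
    rintro g h ⟨x⟩
    change toFactor C k ((g * h) • x) = toFactor C k (g • h • x)
    rw [mul_smul]

lemma subsingleton_of_step_zero (hC : IsNilspace C) (hk : IsStep C 0) : Subsingleton X := by
  refine ⟨fun x y => ?_⟩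
  have hconst : (fun _ : Cube 1 => x) ∈ C 1 := hC.ergodic _
  have h := hk (fun _ => x) (corner_of_cube hC hconst) (fun _ => x) hconst
    (upd (fun _ => x) ⊤ y) (hC.ergodic _) (fun _ _ => rfl)
    (fun v hv => upd_ne (fun _ : Cube 1 => x) y hv)
  have h2 := congrFun h ⊤
  rw [upd_same] at h2
  exact h2

/-- the cube group preserves cubes. -/
lemma HK_preserves (hC : IsNilspace C) (hΓ : ∀ g : Γ, PreservesCubes C 1 (fun x : X => g • x))
    {n : ℕ} {f : Cube (n + 1) → Γ} (hf : f ∈ HK (n + 1) Γ) :
    ∀ c ∈ C (n + 1), (fun v => f v • c v) ∈ C (n + 1) := by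
  have key : (∀ c ∈ C (n + 1), (fun v => f v • c v) ∈ C (n + 1)) ∧
      ∀ c ∈ C (n + 1), (fun v => (f v)⁻¹ • c v) ∈ C (n + 1) := by
    unfold HK at hf
    induction hf using Subgroup.closure_induction with
    | mem f hf =>
      have hdiag : ∀ g : Γ, ∀ c ∈ C (n + 1), (fun v => g • c v) ∈ C (n + 1) := fun g c hc =>
        preserves_all (hΓ g) hc
      have hface : ∀ (g : Γ) (i : Fin (n + 1)), ∀ c ∈ C (n + 1),
          (fun v => (if v i then g else 1) • c v) ∈ C (n + 1) := by
        intro g i c hc
        have h1 := hΓ g (n + 1) {v | ∀ j ∈ ({i} : Finset (Fin (n + 1))), v j = (fun _ => true) j}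
          ⟨{i}, _, rfl, rfl⟩ c hc
        have h2 : (fun v => (if v i then g else 1) • c v) =
            applyOn (fun x : X => g • x)
              {v | ∀ j ∈ ({i} : Finset (Fin (n + 1))), v j = (fun _ => true) j} c := by
          funext v
          by_cases hv : v i = true
          · rw [applyOn_mem, if_pos hv]
            intro j hj
            rw [Finset.mem_singleton] at hj
            rw [hj, hv]
          · rw [applyOn_notMem, if_neg hv, one_smul]
            intro h
            exact hv (h i (by simp))
        rw [h2]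
        exact h1
      rcases hf with ⟨g, rfl⟩ | ⟨g, i, rfl⟩
      · exact ⟨hdiag g, hdiag g⁻¹⟩
      · refine ⟨hface g i, fun c hc => ?_⟩
        have h1 := hface g⁻¹ i c hc
        have h2 : (fun v : Cube (n + 1) => (if v i then g else 1)⁻¹ • c v) =
            fun v => (if v i then g⁻¹ else 1) • c v := by
          funext v
          split_ifs <;> simp
        rw [h2]
        exact h1
    | one => constructor <;> (intro c hc; simpa using hc)
    | mul a b _ _ ha hb =>
      constructor
      · intro c hc
        have := ha.1 _ (hb.1 c hc)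
        simpa only [Pi.mul_apply, mul_smul] using this
      · intro c hc
        have := hb.2 _ (ha.2 c hc)
        simpa only [Pi.mul_apply, mul_inv_rev, mul_smul] using this
    | inv a _ ha => exact ⟨by simpa using ha.2, by simpa using ha.1⟩
  exact key.1

end action

/-- compact nilspaces with groups of translations are towers with the star property. -/
theorem nilSys_of_nilspace {Γ : Type v} [Group Γ] : ∀ (k : ℕ) (X : Type u) [TopologicalSpace X]
    [CompactSpace X] [T2Space X] [SecondCountableTopology X] [Nonempty X] [MulAction Γ X]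
    [ContinuousConstSMul Γ X] (C : CubeStructure X), IsNilspace C → (∀ n, IsClosed (C n)) →
    IsStep C k → (∀ g : Γ, PreservesCubes C 1 (fun x : X => g • x)) → NilSys Γ k X := by
  intro k
  induction k with
  | zero =>
    intro X _ _ _ _ _ _ _ C hC hcl hk hΓ
    exact subsingleton_of_step_zero hC hk
  | succ k ih =>
    intro X _ _ _ _ _ _ _ C hC hcl hk hΓ
    obtain ⟨x₀⟩ := ‹Nonempty X›
    letI aX' := factorAction hΓ k
    letI tZ := Ztop hC hk x₀
    obtain ⟨h1, h2, h3, h4⟩ := Z_top hC hcl hk x₀
    haveI hT2 : T2Space (Factor C k) := factor_t2 hC hcl hk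
    haveI hcomp : CompactSpace (Factor C k) := factor_compact
    haveI hsc : SecondCountableTopology (Factor C k) := factor_sc hC hcl hk
    haveI hcont : ContinuousConstSMul Γ (Factor C k) := ⟨fun g => by
      refine isQuotientMap_toFactor.continuous_iff.2 ?_
      exact continuous_toFactor.comp (continuous_const_smul g)⟩
    haveI hcomm : SMulCommClass Γ (Zg hC hk) X := ⟨fun g z x =>
      Zg_comm_one hC hk (HP_of_preserves hC (hΓ g) _) z x⟩
    haveI : Nonempty (Factor C k) := ⟨toFactor C k x₀⟩
    refine ⟨Factor C k, inferInstance, aX', Zg hC hk, inferInstance, tZ, inferInstance,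
      toFactor C k, hcomp, hT2, hsc, hcont, h1, h2, h3, h4, hcomm, ?_, ?_, ?_⟩
    · refine ⟨continuous_toFactor, toFactor_surj, fun g x => rfl, fun x y => ?_, ?_⟩
      · rw [toFactor_eq_iff hC]
        constructor
        · intro h; exact Zg_trans hC hk h
        · rintro ⟨z, rfl⟩; exact Zg_sim hC hk z x
      · intro z x h
        exact Zg_free hC hk h
    · refine ⟨k + 2, fun v => if par (⊥ : Cube (k + 2)) then par v else !(par v), ?_, ?_⟩
      · by_cases hp : par (⊥ : Cube (k + 2)) = true
        · simp only [hp, if_true]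
        · have hp' : par (⊥ : Cube (k + 2)) = false := by simpa using hp
          simp only [hp', Bool.false_eq_true, if_false, Bool.not_false]
      · intro x z hz
        have hsub : Orb (HK (k + 2) Γ) (fun _ : Cube (k + 2) => x) ⊆ C (k + 2) := by
          refine Orb_subset_of_mem (hcl _) (fun g c hc => ?_)
            ((CI_fin hC).1 (CI_const hC x))
          exact HK_preserves hC hΓ g.2 c hc
        have hcube := (CI_fin hC).2 (hsub hz)
        have hst := star_prop hC hk (I := Fin (k + 2)) (by simp) (CI_const hC x) hcube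
        by_cases hp : par (⊥ : Cube (k + 2)) = true
        · simp only [hp, if_true]
          exact hst
        · have hp' : par (⊥ : Cube (k + 2)) = false := by simpa using hp
          simp only [hp', Bool.false_eq_true, if_false]
          have h5 : ∏ v, (if !(par v) then z v else (z v)⁻¹) = (∏ v, sgz (par v) (z v))⁻¹ := by
            rw [← Finset.prod_inv_distrib]
            refine Finset.prod_congr rfl fun v _ => ?_
            cases par v <;> simp [sgz]
          rw [h5, hst, inv_one]
    · exact ih (Factor C k) (factorCubes C k) (factor_nilspace hC) (factor_closed hC hcl hk)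
        (factor_step hC) (fun g => factorMap_preserves (hΓ g))

/-! ### Haar measures -/

section haar

instance {X : Type u} [TopologicalSpace X] (C : CubeStructure X) (k : ℕ) :
    BorelSpace (Factor C k) := ⟨rfl⟩

/-- the homeomorphism of an element of the structure group -/
def Zhomeo {X : Type u} [TopologicalSpace X] {C : CubeStructure X} (hC : IsNilspace C)
    (hcl : ∀ n, IsClosed (C n)) {k : ℕ} [CompactSpace X] [T2Space X] (hk : IsStep C (k + 1))
    (z : Zg hC hk) : X ≃ₜ X where
  toEquiv := z.1
  continuous_toFun := Z_homeo hC hcl hk z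
  continuous_invFun := Z_homeo hC hcl hk z⁻¹

lemma haar_prob : ∀ (k : ℕ) {X : Type u} [TopologicalSpace X] [MeasurableSpace X]
    {C : CubeStructure X} {μ : Measure X}, IsHaar k C μ → IsProbabilityMeasure μ
  | 0, _, _, _, _, _, h => ⟨h⟩
  | k + 1, _, _, _, _, _, h => ⟨h.1⟩

/-- descent of the averaged function to the factor -/
lemma descend_Z {X : Type u} [TopologicalSpace X] [CompactSpace X] [T2Space X]
    [SecondCountableTopology X] {C : CubeStructure X} (hC : IsNilspace C)
    (hcl : ∀ n, IsClosed (C n)) {k : ℕ} (hk : IsStep C (k + 1)) (x₀ : X) {E : Type*}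
    [NormedAddCommGroup E] [NormedSpace ℝ E] [SecondCountableTopology E] {F : X → E}
    (hF : Continuous F) :
    letI := Ztop hC hk x₀
    ∃ F' : Factor C k → E, Continuous F' ∧
      (∀ (_ : IsTopologicalGroup (Zg hC hk)) (_ : CompactSpace (Zg hC hk)) y,
        F' (toFactor C k y) = avg (Zg hC hk) F y) := by
  letI := Ztop hC hk x₀
  obtain ⟨h1, h2, h3, h4⟩ := Z_top hC hcl hk x₀
  have hinv : ∀ a b, SimRel C k a b → avg (Zg hC hk) F a = avg (Zg hC hk) F b := by
    intro a b hab
    obtain ⟨z, rfl⟩ := Zg_trans hC hk hab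
    exact (avg_smul_eq (Zg hC hk) F z a).symm
  refine ⟨Quot.lift (avg (Zg hC hk) F) hinv, ?_, fun _ _ y => rfl⟩
  exact isQuotientMap_toFactor.continuous_iff.2 (continuous_avg (Zg hC hk) hF)

/-- Haar measures are invariant under groups of translations. -/
theorem haar_inv {Γ : Type v} [Group Γ] : ∀ (k : ℕ) (X : Type u) [TopologicalSpace X]
    [CompactSpace X] [T2Space X] [SecondCountableTopology X] [MeasurableSpace X] [BorelSpace X]
    [MulAction Γ X] [ContinuousConstSMul Γ X] (C : CubeStructure X), IsNilspace C →
    (∀ n, IsClosed (C n)) → IsStep C k → (∀ g : Γ, PreservesCubes C 1 (fun x : X => g • x)) →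
    ∀ μ : Measure X, IsHaar k C μ → ∀ g : Γ, MeasurePreserving (fun x : X => g • x) μ μ := by
  intro k
  induction k with
  | zero =>
    intro X _ _ _ _ _ _ _ _ C hC hcl hk hΓ μ hμ g
    haveI := subsingleton_of_step_zero hC hk
    have : (fun x : X => g • x) = id := funext fun x => Subsingleton.elim _ _
    rw [this]
    exact MeasurePreserving.id μ
  | succ k ih =>
    intro X _ _ _ _ _ _ _ _ C hC hcl hk hΓ μ hμ g
    haveI := haar_prob _ hμ
    haveI : Nonempty X := by
      by_contra hne
      haveI : IsEmpty X := not_nonempty_iff.1 hne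
      have h1 : μ Set.univ = 1 := measure_univ
      rw [Set.univ_eq_empty_iff.2 ‹_›, measure_empty] at h1
      exact absurd h1 (by simp)
    obtain ⟨x₀⟩ := ‹Nonempty X›
    letI aX' := factorAction hΓ k
    letI tZ := Ztop hC hk x₀
    obtain ⟨h1, h2, h3, h4⟩ := Z_top hC hcl hk x₀
    haveI hT2 : T2Space (Factor C k) := factor_t2 hC hcl hk
    haveI hcomp : CompactSpace (Factor C k) := factor_compact
    haveI hsc : SecondCountableTopology (Factor C k) := factor_sc hC hcl hk
    haveI hcont : ContinuousConstSMul Γ (Factor C k) := ⟨fun g => by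
      refine isQuotientMap_toFactor.continuous_iff.2 ?_
      exact continuous_toFactor.comp (continuous_const_smul g)⟩
    have hcomm : ∀ (z : Zg hC hk) (x : X), g • z • x = z • g • x := fun z x =>
      Zg_comm_one hC hk (HP_of_preserves hC (hΓ g) _) z x
    have hZinv : ∀ z : Zg hC hk, MeasurePreserving (fun x : X => z • x) μ μ := fun z =>
      ⟨(Z_homeo hC hcl hk z).measurable, hμ.2.1 (Zhomeo hC hcl hk z) z.2⟩
    have hIH := ih (Factor C k) (factorCubes C k) (factor_nilspace hC) (factor_closed hC hcl hk)
        (factor_step hC) (fun g => factorMap_preserves (hΓ g)) (μ.map (toFactor C k)) hμ.2.2 g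
    refine ⟨(continuous_const_smul g).measurable, ?_⟩
    haveI : IsProbabilityMeasure (μ.map (fun x : X => g • x)) :=
      Measure.isProbabilityMeasure_map (continuous_const_smul g).measurable.aemeasurable
    refine ext_complex fun F hF => ?_
    rw [integral_map (continuous_const_smul g).measurable.aemeasurable
      hF.measurable.aestronglyMeasurable]
    obtain ⟨F', hF'c, hF'⟩ := descend_Z hC hcl hk x₀ hF
    have hF' := hF' h1 h2
    have e1 : ∫ y, F (g • y) ∂μ = ∫ y, avg (Zg hC hk) (fun y => F (g • y)) y ∂μ :=
      (integral_avg (Zg hC hk) hZinv (by fun_prop)).symm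
    have e2 : ∀ y, avg (Zg hC hk) (fun y => F (g • y)) y = avg (Zg hC hk) F (g • y) := by
      intro y
      unfold avg
      congr 1
      funext z
      change F (g • z • y) = F (z • g • y)
      rw [hcomm]
    have e3 : ∫ y, avg (Zg hC hk) F (g • y) ∂μ =
        ∫ y', F' (g • y') ∂(μ.map (toFactor C k)) := by
      refine Eq.trans ?_ (integral_of_map (p := toFactor C k) continuous_toFactor rfl
        (f := fun y' => F' (g • y')) (hF'c.comp (continuous_const_smul g)))
      refine integral_congr_ae (Filter.Eventually.of_forall fun y => ?_)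
      exact (hF' (g • y)).symm
    have e4 : ∫ y', F' (g • y') ∂(μ.map (toFactor C k)) =
        ∫ y', F' y' ∂(μ.map (toFactor C k)) := integral_smul_eq hIH F'
    have e5 : ∫ y', F' y' ∂(μ.map (toFactor C k)) = ∫ y, avg (Zg hC hk) F y ∂μ := by
      rw [integral_map continuous_toFactor.measurable.aemeasurable
        hF'c.measurable.aestronglyMeasurable]
      exact integral_congr_ae (Filter.Eventually.of_forall fun y => hF' y)
    rw [e1]
    simp_rw [e2]
    rw [e3, e4, e5]
    exact integral_avg (Zg hC hk) hZinv hF

/-- lifting of measures through quotients by compact groups -/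
lemma exists_lift {H X X' : Type*} [CommGroup H] [TopologicalSpace H] [IsTopologicalGroup H]
    [CompactSpace H] [TopologicalSpace X] [CompactSpace X] [T2Space X]
    [SecondCountableTopology X] [MeasurableSpace X] [BorelSpace X] [MulAction H X]
    [ContinuousSMul H X] [TopologicalSpace X'] [CompactSpace X'] [T2Space X']
    [SecondCountableTopology X'] [MeasurableSpace X'] [BorelSpace X'] {π : X → X'}
    (hπ : IsQuotientMap π) (hfib : ∀ x y, π x = π y ↔ ∃ z : H, z • x = y)
    (μ' : Measure X') [IsProbabilityMeasure μ'] :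
    ∃ μ : Measure X, IsProbabilityMeasure μ ∧
      (∀ h : H, MeasurePreserving (fun y : X => h • y) μ μ) ∧ μ.map π = μ' := by
  choose s hs using hπ.surjective
  have hdesc : ∀ F : X → ℝ, Continuous F → Continuous (fun y' => avg H F (s y')) := by
    intro F hF
    refine hπ.continuous_iff.2 ?_
    have h1 : (fun y' => avg H F (s y')) ∘ π = avg H F := by
      funext y
      have h2 : π (s (π y)) = π y := hs _
      obtain ⟨z, hz⟩ := (hfib _ _).1 h2
      change avg H F (s (π y)) = avg H F y
      rw [← avg_smul_eq H F z (s (π y)), hz]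
    rw [h1]
    exact continuous_avg H hF
  have hint : ∀ F : X → ℝ, Continuous F → Integrable (fun y' => avg H F (s y')) μ' :=
    fun F hF => integrable_cont μ' (hdesc F hF)
  let Λ : CompactlySupportedContinuousMap X ℝ →ₚ[ℝ] ℝ := PositiveLinearMap.mk₀
    { toFun := fun F => ∫ y', avg H F (s y') ∂μ'
      map_add' := by
        intro F G
        rw [← integral_add (hint F F.continuous) (hint G G.continuous)]
        refine integral_congr_ae (Filter.Eventually.of_forall fun y' => ?_)
        exact avg_add H F.continuous G.continuous _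
      map_smul' := by
        intro c F
        simp only [RingHom.id_apply, smul_eq_mul]
        rw [← integral_const_mul]
        refine integral_congr_ae (Filter.Eventually.of_forall fun y' => ?_)
        exact avg_const_mul H c _ }
    (by
      intro F hF
      exact integral_nonneg fun y' => avg_nonneg H fun h => hF _)
  have hΛ : ∀ F : X → ℝ, Continuous F →
      ∫ y, F y ∂(RealRMK.rieszMeasure Λ) = ∫ y', avg H F (s y') ∂μ' := by
    intro F hF
    exact RealRMK.integral_rieszMeasure Λ ⟨⟨F, hF⟩, HasCompactSupport.of_compactSpace _⟩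
  set ρ := RealRMK.rieszMeasure Λ with hρ
  have hprob : IsProbabilityMeasure ρ := by
    have h1 := hΛ (fun _ => 1) continuous_const
    have h2 : ∀ y', avg H (fun _ : X => (1 : ℝ)) (s y') = 1 := fun y' =>
      avg_of_inv H (F := fun _ : X => (1 : ℝ)) (fun h => rfl)
    simp only [h2, integral_const, smul_eq_mul, mul_one, measureReal_def, measure_univ,
      ENNReal.toReal_one] at h1
    refine ⟨?_⟩
    rwa [ENNReal.toReal_eq_one_iff] at h1
  refine ⟨ρ, hprob, ?_, ?_⟩
  · intro h
    refine ⟨(continuous_const_smul h).measurable, ?_⟩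
    haveI : IsProbabilityMeasure (ρ.map (fun y : X => h • y)) :=
      Measure.isProbabilityMeasure_map (continuous_const_smul h).measurable.aemeasurable
    refine ext_real fun F hF => ?_
    rw [integral_map (continuous_const_smul h).measurable.aemeasurable
      hF.measurable.aestronglyMeasurable, hΛ F hF,
      hΛ (fun y => F (h • y)) (by fun_prop)]
    refine integral_congr_ae (Filter.Eventually.of_forall fun y' => ?_)
    have h1 : avg H (fun y => F (h • y)) (s y') = avg H F (h • s y') := by
      unfold avg
      congr 1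
      funext k
      change F (h • k • s y') = F (k • h • s y')
      rw [← mul_smul, ← mul_smul, mul_comm]
    change avg H (fun y => F (h • y)) (s y') = _
    rw [h1, avg_smul_eq]
  · haveI : IsProbabilityMeasure (ρ.map π) :=
      Measure.isProbabilityMeasure_map hπ.continuous.measurable.aemeasurable
    refine ext_real fun F hF => ?_
    rw [integral_map hπ.continuous.measurable.aemeasurable hF.measurable.aestronglyMeasurable,
      hΛ (fun y => F (π y)) (hF.comp hπ.continuous)]
    refine integral_congr_ae (Filter.Eventually.of_forall fun y' => ?_)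
    have h1 : avg H (fun y => F (π y)) (s y') = F (π (s y')) := by
      refine avg_of_inv H (F := fun y => F (π y)) fun h => ?_
      have : π (h • s y') = π (s y') := ((hfib (s y') (h • s y')).2 ⟨h, rfl⟩).symm
      simp only [this]
    change avg H (fun y => F (π y)) (s y') = _
    rw [h1, hs]

/-- existence and uniqueness of the Haar measure. -/
theorem haar_exists_unique : ∀ (k : ℕ) (X : Type u) [TopologicalSpace X]
    [CompactSpace X] [T2Space X] [SecondCountableTopology X] [MeasurableSpace X] [BorelSpace X]
    [Nonempty X] (C : CubeStructure X), IsNilspace C →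
    (∀ n, IsClosed (C n)) → IsStep C k → ∃! μ : Measure X, IsHaar k C μ := by
  intro k
  induction k with
  | zero =>
    intro X _ _ _ _ _ _ _ C hC hcl hk
    haveI := subsingleton_of_step_zero hC hk
    obtain ⟨x₀⟩ := ‹Nonempty X›
    refine ⟨Measure.dirac x₀, measure_univ, fun μ hμ => ?_⟩
    have hμ1 : μ Set.univ = 1 := hμ
    refine Measure.ext fun s hs => ?_
    rcases s.eq_empty_or_nonempty with rfl | ⟨y, hy⟩
    · simp
    · have : s = Set.univ := Set.eq_univ_of_forall fun z => by
        rw [Subsingleton.elim z y]; exact hy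
      rw [this, hμ1, measure_univ]
  | succ k ih =>
    intro X _ _ _ _ _ _ hne C hC hcl hk
    obtain ⟨x₀⟩ := hne
    letI tZ := Ztop hC hk x₀
    obtain ⟨h1, h2, h3, h4⟩ := Z_top hC hcl hk x₀
    haveI hT2 : T2Space (Factor C k) := factor_t2 hC hcl hk
    haveI hcomp : CompactSpace (Factor C k) := factor_compact
    haveI hsc : SecondCountableTopology (Factor C k) := factor_sc hC hcl hk
    haveI : Nonempty (Factor C k) := ⟨toFactor C k x₀⟩
    obtain ⟨μ', hμ', huniq⟩ := ih (Factor C k) (factorCubes C k) (factor_nilspace hC)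
      (factor_closed hC hcl hk) (factor_step hC)
    haveI := haar_prob _ hμ'
    have hfib : ∀ x y, toFactor C k x = toFactor C k y ↔ ∃ z : Zg hC hk, z • x = y := by
      intro x y
      rw [toFactor_eq_iff hC]
      constructor
      · intro h; exact Zg_trans hC hk h
      · rintro ⟨z, rfl⟩; exact Zg_sim hC hk z x
    obtain ⟨μ, hμp, hμZ, hμπ⟩ := exists_lift (H := Zg hC hk) isQuotientMap_toFactor hfib μ'
    refine ⟨μ, ⟨measure_univ, fun α hα => ?_, ?_⟩, ?_⟩
    · exact (hμZ ⟨α.toEquiv, hα⟩).map_eq
    · rw [hμπ]; exact hμ'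
    · intro ν hν
      haveI := haar_prob _ hν
      have hνπ : ν.map (toFactor C k) = μ' := huniq _ hν.2.2
      have hνZ : ∀ z : Zg hC hk, MeasurePreserving (fun x : X => z • x) ν ν := fun z =>
        ⟨(Z_homeo hC hcl hk z).measurable, hν.2.1 (Zhomeo hC hcl hk z) z.2⟩
      refine ext_complex fun F hF => ?_
      obtain ⟨F', hF'c, hF'⟩ := descend_Z hC hcl hk x₀ hF
      have hF' := hF' h1 h2
      have key : ∀ ρ : Measure X, IsProbabilityMeasure ρ →
          (∀ z : Zg hC hk, MeasurePreserving (fun x : X => z • x) ρ ρ) →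
          ρ.map (toFactor C k) = μ' → ∫ y, F y ∂ρ = ∫ y', F' y' ∂μ' := by
        intro ρ hρ hρZ hρπ
        rw [← integral_avg (Zg hC hk) hρZ hF, ← hρπ,
          integral_map continuous_toFactor.measurable.aemeasurable
          hF'c.measurable.aestronglyMeasurable]
        exact integral_congr_ae (Filter.Eventually.of_forall fun y => (hF' y).symm)
      rw [key ν inferInstance hνZ hνπ, key μ hμp hμZ hμπ]

end haar

/-! ### The main theorem -/

section final

variable {X : Type u} [TopologicalSpace X] [CompactSpace X] [T2Space X]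
  [SecondCountableTopology X] [MeasurableSpace X] [BorelSpace X]

/-- the averaging property implies ergodicity of invariant measures -/
lemma ergodic_of_avg {Γ : Type v} [Group Γ] [MulAction Γ X] [ContinuousConstSMul Γ X] {x : X}
    (hA : AvgProp Γ x) {μ : Measure X} (hμ : IsInv Γ x μ) {A : Set X} (hAm : MeasurableSet A)
    (hinv : ∀ g : Γ, (fun y : X => g • y) ⁻¹' A = A) : μ A = 0 ∨ μ A = 1 := by
  haveI := hμ.prob
  -- the two finite measures `μ|_A` and `μ(A) μ` agree
  have key : ∀ F : X → ℂ, Continuous F →
      ∫ y, F y ∂(μ.restrict A) = ∫ y, F y ∂((μ A) • μ) := by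
    intro F hF
    rw [integral_smul_measure]
    have hfin : μ A ≠ ⊤ := measure_ne_top _ _
    have hinvint : ∀ g : Γ, ∫ y in A, F (g • y) ∂μ = ∫ y in A, F y ∂μ := by
      intro g
      rw [← integral_indicator hAm, ← integral_indicator hAm]
      rw [← integral_smul_eq (hμ.inv g) (A.indicator F)]
      congr 1
      funext y
      by_cases hy : y ∈ A
      · have : g • y ∈ A := by
          have h1 : y ∈ (fun y : X => g • y) ⁻¹' A := by rw [hinv g]; exact hy
          exact h1
        rw [Set.indicator_of_mem hy, Set.indicator_of_mem this]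
      · have : g • y ∉ A := by
          intro h
          apply hy
          rw [← hinv g]
          exact h
        rw [Set.indicator_of_notMem hy, Set.indicator_of_notMem this]
    refine eq_of_forall_dist_le fun ε hε => ?_
    obtain ⟨B, c, hB⟩ := hA F hF (ε / 2) (half_pos hε)
    have h1 := mean_est hμ B hF hB
    have h2 : ∫ y in A, B.act F y ∂μ = ∫ y in A, F y ∂μ :=
      Av.integral_act (μ.restrict A) B (fun i => integrable_cont _ (by fun_prop))
        (fun i => hinvint _)
    have h3 : ‖∫ y in A, F y ∂μ - (μ A).toReal • c‖ ≤ ε / 2 := by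
      rw [← h2]
      have h4 : ∫ y in A, B.act F y ∂μ - (μ A).toReal • c = ∫ y in A, (B.act F y - c) ∂μ := by
        rw [integral_sub (integrable_cont _ (B.continuous_act hF)) (integrable_const _)]
        simp [measureReal_def]
      rw [h4]
      have h5 := norm_integral_le_of_norm_le_const (μ := μ.restrict A)
        (f := fun y => B.act F y - c) (C := ε / 2) (by
        filter_upwards [ae_restrict_of_ae (μ := μ) (s := A) hμ.ae_mem] with y hy using hB y hy)
      refine h5.trans ?_
      have h6 : (μ.restrict A).real Set.univ ≤ 1 := by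
        rw [measureReal_def, Measure.restrict_apply_univ]
        exact ENNReal.toReal_le_of_le_ofReal zero_le_one (by simpa using prob_le_one)
      nlinarith
    have h7 : ‖(μ A).toReal • c - (μ A).toReal • ∫ y, F y ∂μ‖ ≤ ε / 2 := by
      rw [← smul_sub, norm_smul, norm_sub_rev]
      have h8 : ‖(μ A).toReal‖ ≤ 1 := by
        rw [Real.norm_of_nonneg ENNReal.toReal_nonneg]
        exact ENNReal.toReal_le_of_le_ofReal zero_le_one (by simpa using prob_le_one)
      calc ‖(μ A).toReal‖ * ‖∫ y, F y ∂μ - c‖ ≤ 1 * (ε / 2) :=
            mul_le_mul h8 h1 (norm_nonneg _) zero_le_one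
        _ = ε / 2 := one_mul _
    rw [dist_eq_norm]
    calc ‖∫ y in A, F y ∂μ - (μ A).toReal • ∫ y, F y ∂μ‖
        = ‖(∫ y in A, F y ∂μ - (μ A).toReal • c) +
          ((μ A).toReal • c - (μ A).toReal • ∫ y, F y ∂μ)‖ := by congr 1; abel
      _ ≤ ε / 2 + ε / 2 := (norm_add_le _ _).trans (add_le_add h3 h7)
      _ = ε := by ring
  haveI : IsFiniteMeasure ((μ A) • μ) := by
    refine ⟨?_⟩
    rw [Measure.smul_apply, smul_eq_mul, measure_univ, mul_one]
    exact measure_lt_top _ _
  have h1 : μ.restrict A = (μ A) • μ := ext_complex key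
  have h2 := congrArg (fun ν : Measure X => ν A) h1
  simp only [Measure.restrict_apply_self, Measure.smul_apply, smul_eq_mul] at h2
  by_cases h0 : μ A = 0
  · exact Or.inl h0
  · right
    have h3 : μ A * 1 = μ A * μ A := by rw [mul_one]; exact h2
    exact ((ENNReal.mul_right_inj h0 (measure_ne_top _ _)).1 h3).symm

/-- topological transitivity gives a point with dense orbit. -/
lemma exists_transitive_point [Nonempty X] {Γ : Type v} [Group Γ] [MulAction Γ X]
    [ContinuousConstSMul Γ X]
    (h : ∀ U V : Set X, IsOpen U → U.Nonempty → IsOpen V → V.Nonempty →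
      ∃ g : Γ, ((fun x : X => g • x) '' U ∩ V).Nonempty) : ∃ x : X, Orb Γ x = Set.univ := by
  obtain ⟨B, hBc, hBe, hB⟩ := TopologicalSpace.exists_countable_basis X
  have hdense : Dense (⋂ V ∈ B, ⋃ g : Γ, (fun x : X => g • x) ⁻¹' V) := by
    refine dense_biInter_of_isOpen (fun V hV => ?_) hBc (fun V hV => ?_)
    · exact isOpen_iUnion fun g => (hB.isOpen hV).preimage (continuous_const_smul g)
    · refine dense_iff_inter_open.2 fun U hU hUne => ?_
      have hVne : V.Nonempty := by
        by_contra hcon
        rw [Set.not_nonempty_iff_eq_empty] at hcon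
        exact hBe (hcon ▸ hV)
      obtain ⟨g, _, ⟨y, hy, rfl⟩, hyV⟩ := h U V hU hUne (hB.isOpen hV) hVne
      exact ⟨y, hy, Set.mem_iUnion.2 ⟨g, hyV⟩⟩
  obtain ⟨x, hx⟩ := hdense.nonempty
  refine ⟨x, ?_⟩
  refine Set.eq_univ_of_forall fun y => ?_
  refine mem_closure_iff.2 fun U hU hyU => ?_
  obtain ⟨V, hV, hyV, hVU⟩ := hB.exists_subset_of_mem_open hyU hU
  obtain ⟨g, hg⟩ := Set.mem_iUnion.1 (Set.mem_iInter₂.1 hx V hV)
  exact ⟨g • x, hVU hg, g, rfl⟩

/-- Topologically transitive nilspace systems are minimal, uniquely ergodic and ergodic. -/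
theorem main {C : CubeStructure X} (hC : IsNilspace C)
    (hcl : ∀ n, IsClosed (C n)) {k : ℕ} (hk : IsStep C k) {μ : Measure X} (hμ : IsHaar k C μ)
    {Γ : Type v} [Group Γ] [MulAction Γ X] [ContinuousConstSMul Γ X]
    (hΓ : ∀ g : Γ, PreservesCubes C 1 (fun x : X => g • x))
    (htrans : ∀ U V : Set X, IsOpen U → U.Nonempty → IsOpen V → V.Nonempty →
      ∃ g : Γ, ((fun x : X => g • x) '' U ∩ V).Nonempty) :
    (∀ A : Set X, MeasurableSet A → (∀ g : Γ, (fun y : X => g • y) ⁻¹' A = A) →
      μ A = 0 ∨ μ A = 1) ∧
    (∀ ν : Measure X, IsProbabilityMeasure ν →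
      (∀ g : Γ, ν.map (fun y : X => g • y) = ν) → ν = μ) ∧
    (∀ x : X, Dense (Set.range fun g : Γ => g • x)) := by
  haveI := haar_prob _ hμ
  haveI : Nonempty X := by
    by_contra hne
    haveI : IsEmpty X := not_nonempty_iff.1 hne
    have h1 : μ Set.univ = 1 := measure_univ
    rw [Set.univ_eq_empty_iff.2 ‹_›, measure_empty] at h1
    exact absurd h1 (by simp)
  obtain ⟨x, hx⟩ := exists_transitive_point htrans
  have hsys := nilSys_of_nilspace k X C hC hcl hk hΓ
  have hgood := (main_induction (fun H => charSep H) k Γ X hsys).1 x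
  have hinv := haar_inv k X C hC hcl hk hΓ μ hμ
  have hμinv : IsInv Γ x μ := ⟨inferInstance, by rw [hx]; simp, hinv⟩
  refine ⟨fun A hA hAinv => ergodic_of_avg hgood.avg hμinv hA hAinv, fun ν hν hνinv => ?_,
    fun y => ?_⟩
  · have hνinv' : IsInv Γ x ν := ⟨hν, by rw [hx]; simp,
      fun g => ⟨(continuous_const_smul g).measurable, hνinv g⟩⟩
    exact hνinv'.unique hμinv hgood.avg
  · have h1 : x ∈ Orb Γ y := hgood.min y (by rw [hx]; trivial)
    have h2 : Orb Γ x ⊆ Orb Γ y := Orb_subset_Orb h1
    rw [hx] at h2
    intro z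
    exact h2 trivial

end final

end Nil75
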