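import Pool.Agent.Helper75.Nil.Eigen

/-!
Mean ergodic argument in `L²` and the averaging property for extensions.
-/

set_option linter.all false

open MeasureTheory Topology
open scoped ENNReal

namespace Nil75

universe uX uY

namespace Av

variable {Γ : Type*} {X : Type*} [Group Γ] [MulAction Γ X]
variable {E : Type*} [NormedAddCommGroup E] [NormedSpace ℝ E]

/-- convex combination -/
def conv (A B : Av Γ) (a b : ℝ) (ha : 0 ≤ a) (hb : 0 ≤ b) (hab : a + b = 1) : Av Γ where
  ι := A.ι ⊕ B.ι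
  fin := inferInstance
  w := fun p => Sum.elim (fun i => a * A.w i) (fun i => b * B.w i) p
  g := fun p => Sum.elim A.g B.g p
  nonneg := by
    rintro (i | i)
    · exact mul_nonneg ha (A.nonneg _)
    · exact mul_nonneg hb (B.nonneg _)
  sum := by
    rw [Fintype.sum_sum_type]
    simp only [Sum.elim_inl, Sum.elim_inr]
    rw [← Finset.mul_sum, ← Finset.mul_sum, A.sum, B.sum]
    simpa using hab

lemma act_conv (A B : Av Γ) (a b : ℝ) (ha : 0 ≤ a) (hb : 0 ≤ b) (hab : a + b = 1)
    (F : X → E) (y : X) :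
    (A.conv B a b ha hb hab).act F y = a • A.act F y + b • B.act F y := by
  change (∑ p : A.ι ⊕ B.ι, (Sum.elim (fun i => a * A.w i) (fun i => b * B.w i) p) •
    F ((Sum.elim A.g B.g p) • y)) =
      a • (∑ i, A.w i • F (A.g i • y)) + b • ∑ i, B.w i • F (B.g i • y)
  rw [Fintype.sum_sum_type]
  simp only [Sum.elim_inl, Sum.elim_inr, Finset.smul_sum, smul_smul]

/-- translation of a convex combination -/
def tr (A : Av Γ) (g : Γ) : Av Γ where
  ι := A.ι
  fin := A.fin
  w := A.w
  g := fun i => A.g i * g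
  nonneg := A.nonneg
  sum := A.sum

lemma act_tr (A : Av Γ) (g : Γ) (F : X → E) (y : X) : (A.tr g).act F y = A.act F (g • y) := by
  change (∑ i : A.ι, A.w i • F ((A.g i * g) • y)) = ∑ i, A.w i • F (A.g i • g • y)
  simp only [mul_smul]

end Av

section L2

variable {X : Type*} [TopologicalSpace X] [CompactSpace X] [T2Space X]
  [SecondCountableTopology X] [MeasurableSpace X] [BorelSpace X]

lemma memLp_cont (μ : Measure X) [IsFiniteMeasure μ] {F : X → ℂ} (hF : Continuous F) :
    MemLp F 2 μ := by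
  obtain ⟨M, hM⟩ := (isCompact_range hF).isBounded.exists_norm_le
  exact MemLp.of_bound hF.measurable.aestronglyMeasurable M
    (Filter.Eventually.of_forall fun h => hM _ ⟨h, rfl⟩)

lemma norm_sq_toLp (μ : Measure X) [IsFiniteMeasure μ] {F : X → ℂ} (hF : Continuous F) :
    ‖(memLp_cont μ hF).toLp F‖ ^ 2 = ∫ y, ‖F y‖ ^ 2 ∂μ := by
  have h1 : ((‖(memLp_cont μ hF).toLp F‖ ^ 2 : ℝ) : ℂ) =
      inner ℂ ((memLp_cont μ hF).toLp F) ((memLp_cont μ hF).toLp F) := by
    rw [inner_self_eq_norm_sq_to_K]; push_cast; rfl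
  have h2 : inner ℂ ((memLp_cont μ hF).toLp F) ((memLp_cont μ hF).toLp F) =
      ∫ y, ((‖F y‖ ^ 2 : ℝ) : ℂ) ∂μ := by
    rw [L2.inner_def]
    refine integral_congr_ae ?_
    filter_upwards [(memLp_cont μ hF).coeFn_toLp] with y hy
    rw [hy, inner_self_eq_norm_sq_to_K]; push_cast; rfl
  rw [h2, integral_complex_ofReal] at h1
  exact_mod_cast h1

variable {Γ : Type*} [Group Γ] [MulAction Γ X] [ContinuousConstSMul Γ X]

/-- invariant vector of minimal norm in the closed convex hull of the orbit. -/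
lemma exists_limit {H : Type*} [Group H] [MulAction H X] [ContinuousConstSMul H X]
    [SMulCommClass Γ H X]
    {μ : Measure X} [IsProbabilityMeasure μ]
    (hμ : ∀ g : Γ, MeasurePreserving (fun y : X => g • y) μ μ)
    (hμH : ∀ h : H, MeasurePreserving (fun y : X => h • y) μ μ)
    {F : X → ℂ} (hF : Continuous F) (χ : H → ℂ) (hFχ : ∀ h y, F (h • y) = χ h * F y) :
    ∃ f : Lp ℂ 2 μ, f ∈ closure (Set.range fun A : Av Γ =>
        (memLp_cont μ (A.continuous_act hF)).toLp (A.act F)) ∧
      (∀ g : Γ, (fun y => f (g • y)) =ᵐ[μ] f) ∧ ∀ h : H, ∀ᵐ y ∂μ, f (h • y) = χ h * f y := by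
  set L : Av Γ → Lp ℂ 2 μ := fun A => (memLp_cont μ (A.continuous_act hF)).toLp (A.act F) with hL
  set K := closure (Set.range L) with hK
  have hconv : Convex ℝ (Set.range L) := by
    rintro _ ⟨A, rfl⟩ _ ⟨B, rfl⟩ a b ha hb hab
    refine ⟨A.conv B a b ha hb hab, ?_⟩
    simp only [hL]
    rw [← MemLp.toLp_const_smul, ← MemLp.toLp_const_smul, ← MemLp.toLp_add]
    refine MemLp.toLp_congr _ _ (Filter.Eventually.of_forall fun y => ?_)
    exact Av.act_conv A B a b ha hb hab F y
  have hKne : K.Nonempty := ⟨_, subset_closure ⟨Av.dirac 1, rfl⟩⟩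
  obtain ⟨f, hfK, hfmin⟩ := exists_norm_eq_iInf_of_complete_convex hKne isClosed_closure.isComplete
    hconv.closure 0
  haveI : Nonempty K := hKne.to_subtype
  have hmin : ∀ v ∈ K, ‖f‖ ≤ ‖v‖ := by
    intro v hv
    have h1 : (⨅ w : K, ‖(0 : Lp ℂ 2 μ) - w‖) ≤ ‖(0 : Lp ℂ 2 μ) - v‖ :=
      ciInf_le ⟨0, Set.forall_mem_range.2 fun _ => norm_nonneg _⟩ (⟨v, hv⟩ : K)
    rw [← hfmin] at h1
    simpa using h1
  have huniq : ∀ v ∈ K, ‖v‖ = ‖f‖ → v = f := by
    intro v hv hvn
    have h1 : (1 / 2 : ℝ) • v + (1 / 2 : ℝ) • f ∈ K :=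
      hconv.closure hv hfK (by norm_num) (by norm_num) (by norm_num)
    have h2 := hmin _ h1
    rw [← smul_add, norm_smul] at h2
    have h3 : ‖f‖ * 2 ≤ ‖v + f‖ := by
      have : ‖(1 / 2 : ℝ)‖ = 1 / 2 := by norm_num
      rw [this] at h2
      linarith
    have h4 := parallelogram_law_with_norm ℂ v f
    rw [hvn] at h4
    have h5 : (‖f‖ * 2) * (‖f‖ * 2) ≤ ‖v + f‖ * ‖v + f‖ :=
      mul_self_le_mul_self (by positivity) h3
    have h6 : ‖v - f‖ * ‖v - f‖ ≤ 0 := by nlinarith
    have h7 : ‖v - f‖ = 0 := by nlinarith [norm_nonneg (v - f)]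
    exact sub_eq_zero.1 (norm_eq_zero.1 h7)
  refine ⟨f, hfK, fun g => ?_, fun h => ?_⟩
  · have h1 : Lp.compMeasurePreserving _ (hμ g) f = f := by
      refine huniq _ ?_ (Lp.norm_compMeasurePreserving _ _)
      have hmaps : Set.MapsTo (Lp.compMeasurePreserving (E := ℂ) (p := 2) _ (hμ g))
          (Set.range L) (Set.range L) := by
        rintro _ ⟨A, rfl⟩
        refine ⟨A.tr g, ?_⟩
        simp only [hL]
        rw [Lp.toLp_compMeasurePreserving]
        refine MemLp.toLp_congr _ _ (Filter.Eventually.of_forall fun y => ?_)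
        exact A.act_tr g F y
      exact hmaps.closure (Lp.isometry_compMeasurePreserving (hμ g)).continuous hfK
    have h2 := Lp.coeFn_compMeasurePreserving f (hμ g)
    rw [h1] at h2
    exact h2.symm
  · have h1 : Lp.compMeasurePreserving _ (hμH h) f = χ h • f := by
      have hcl : IsClosed {v : Lp ℂ 2 μ | Lp.compMeasurePreserving _ (hμH h) v = χ h • v} :=
        isClosed_eq (Lp.isometry_compMeasurePreserving (hμH h)).continuous
          (continuous_const_smul _)
      have hsub : K ⊆ {v : Lp ℂ 2 μ | Lp.compMeasurePreserving _ (hμH h) v = χ h • v} := by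
        refine closure_minimal ?_ hcl
        rintro _ ⟨A, rfl⟩
        simp only [hL, Set.mem_setOf_eq]
        rw [Lp.toLp_compMeasurePreserving, ← MemLp.toLp_const_smul]
        refine MemLp.toLp_congr _ _ (Filter.Eventually.of_forall fun y => ?_)
        change A.act F (h • y) = χ h * A.act F y
        unfold Av.act
        rw [Finset.mul_sum]
        refine Finset.sum_congr rfl fun i _ => ?_
        rw [smul_comm, hFχ, Complex.real_smul, Complex.real_smul]
        ring
      exact hsub hfK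
    have h2 := Lp.coeFn_compMeasurePreserving f (hμH h)
    rw [h1] at h2
    filter_upwards [h2, Lp.coeFn_smul (χ h) f] with y h3 h4
    rw [h4] at h3
    exact h3.symm

end L2

end Nil75
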