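import Pool.Agent.Helper75.Nil.Lift

/-!
Comparison of measures, ergodicity of lifts relative to the stabiliser.
-/

set_option linter.all false

open MeasureTheory Topology

namespace Nil75

universe uX

section general

variable {X : Type*} [TopologicalSpace X] [CompactSpace X] [T2Space X]
  [SecondCountableTopology X] [MeasurableSpace X] [BorelSpace X]
variable {Γ : Type*} [Group Γ] [MulAction Γ X] [ContinuousConstSMul Γ X]

lemma mean_est' {μ : Measure X} [IsProbabilityMeasure μ]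
    (hinv : ∀ g : Γ, MeasurePreserving (fun y : X => g • y) μ μ) (A : Av Γ) {F : X → ℂ}
    (hF : Continuous F) {c : ℂ} {ε : ℝ} (h : ∀ᵐ y ∂μ, ‖A.act F y - c‖ ≤ ε) :
    ‖∫ y, F y ∂μ - c‖ ≤ ε := by
  have h0 : ∫ y, A.act F y ∂μ = ∫ y, F y ∂μ :=
    Av.integral_act μ A (fun i => integrable_cont μ (by fun_prop))
      (fun i => integral_smul_eq (hinv _) F)
  rw [← h0]
  have h1 : ∫ y, A.act F y ∂μ - c = ∫ y, (A.act F y - c) ∂μ := by
    rw [integral_sub (integrable_cont μ (A.continuous_act hF)) (integrable_const _)]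
    simp
  rw [h1]
  have := norm_integral_le_of_norm_le_const (μ := μ) (f := fun y => A.act F y - c) (C := ε) h
  simpa using this

lemma IsInv.ae_mem {x : X} {μ : Measure X} (hμ : IsInv Γ x μ) : ∀ᵐ y ∂μ, y ∈ Orb Γ x := by
  rw [ae_iff]; exact hμ.supp

/-- If `‖∫ w ψ‖ ≤ κ ∫ ‖ψ‖` for all continuous `ψ`, then `‖w‖ ≤ κ` on the support. -/
lemma IsInv.sup_le {x : X} {μ : Measure X} (hμ : IsInv Γ x μ)
    (hmin : ∀ y ∈ Orb Γ x, x ∈ Orb Γ y) {w : X → ℂ} (hw : Continuous w) {κ : ℝ} (hκ : 0 ≤ κ)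
    (h : ∀ ψ : X → ℂ, Continuous ψ → ‖∫ y, w y * ψ y ∂μ‖ ≤ κ * ∫ y, ‖ψ y‖ ∂μ) :
    ∀ y ∈ Orb Γ x, ‖w y‖ ≤ κ := by
  haveI := hμ.prob
  set r : X → ℝ := fun y => max 0 (‖w y‖ - κ) with hr
  have hrc : Continuous r := by fun_prop
  have hr0 : ∀ y, 0 ≤ r y := fun y => le_max_left _ _
  have h1 := h (fun y => (starRingEnd ℂ) (w y) * (r y : ℂ)) (by fun_prop)
  have h2 : ∫ y, w y * ((starRingEnd ℂ) (w y) * (r y : ℂ)) ∂μ =
      ((∫ y, ‖w y‖ ^ 2 * r y ∂μ : ℝ) : ℂ) := by
    rw [← integral_complex_ofReal]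
    congr 1
    funext y
    rw [← mul_assoc, Complex.mul_conj, Complex.normSq_eq_norm_sq]
    push_cast
    ring
  have h3 : ∫ y, ‖(starRingEnd ℂ) (w y) * (r y : ℂ)‖ ∂μ = ∫ y, ‖w y‖ * r y ∂μ := by
    congr 1
    funext y
    rw [norm_mul, RCLike.norm_conj, Complex.norm_real, Real.norm_of_nonneg (hr0 y)]
  rw [h2, h3, Complex.norm_real, Real.norm_of_nonneg (integral_nonneg fun y =>
    mul_nonneg (sq_nonneg _) (hr0 y))] at h1
  have h4 : ∫ y, (‖w y‖ ^ 2 * r y - κ * (‖w y‖ * r y)) ∂μ ≤ 0 := by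
    rw [integral_sub (integrable_cont μ (by fun_prop)) (integrable_cont μ (by fun_prop)),
      integral_const_mul]
    linarith
  have h5 : ∀ y, 0 ≤ ‖w y‖ ^ 2 * r y - κ * (‖w y‖ * r y) := by
    intro y
    have : ‖w y‖ ^ 2 * r y - κ * (‖w y‖ * r y) = ‖w y‖ * ((‖w y‖ - κ) * r y) := by ring
    rw [this]
    refine mul_nonneg (norm_nonneg _) ?_
    rcases le_or_gt (‖w y‖ - κ) 0 with h | h
    · have : r y = 0 := max_eq_left h
      rw [this]; simp
    · exact mul_nonneg h.le (hr0 y)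
  have h6 : ∫ y, (‖w y‖ ^ 2 * r y - κ * (‖w y‖ * r y)) ∂μ = 0 :=
    le_antisymm h4 (integral_nonneg h5)
  have h7 := (integral_eq_zero_iff_of_nonneg h5 (integrable_cont μ (by fun_prop))).1 h6
  have h8 := hμ.eq_zero_of_ae hmin (F := fun y => ‖w y‖ ^ 2 * r y - κ * (‖w y‖ * r y))
    (by fun_prop) h7
  intro y hy
  by_contra hlt
  push Not at hlt
  have h9 := h8 y hy
  have h10 : r y = ‖w y‖ - κ := max_eq_right (by linarith)
  have h11 : ‖w y‖ ^ 2 * r y - κ * (‖w y‖ * r y) = ‖w y‖ * ((‖w y‖ - κ) * (‖w y‖ - κ)) := by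
    rw [h10]; ring
  rw [h11] at h9
  have : 0 < ‖w y‖ * ((‖w y‖ - κ) * (‖w y‖ - κ)) := by
    have h12 : 0 < ‖w y‖ - κ := by linarith
    have h13 : 0 < ‖w y‖ := by linarith
    positivity
  linarith

/-- a bounded function orthogonal to all continuous functions vanishes. -/
lemma ae_zero_of_orth {μ : Measure X} [IsProbabilityMeasure μ] {φ : X → ℂ}
    (hφ : AEStronglyMeasurable φ μ) {M : ℝ} (hM : ∀ᵐ y ∂μ, ‖φ y‖ ≤ M)
    (h : ∀ ψ : X → ℂ, Continuous ψ → ∫ y, φ y * ψ y ∂μ = 0) : φ =ᵐ[μ] 0 := by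
  have hint : Integrable φ μ := Integrable.of_bound hφ M hM
  have hM0 : 0 ≤ M := by
    obtain ⟨y, hy⟩ := hM.exists
    exact (norm_nonneg _).trans hy
  have key : ∀ ε : ℝ, 0 < ε → ∫ y, ‖φ y‖ ^ 2 ∂μ ≤ M * ε := by
    intro ε hε
    obtain ⟨g, hg, -⟩ := hint.exists_boundedContinuous_integral_sub_le hε
    have h1 := h (fun y => (starRingEnd ℂ) (g y)) (by
      exact Complex.continuous_conj.comp g.continuous)
    have hsq : Integrable (fun y => φ y * (starRingEnd ℂ) (φ y)) μ :=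
      hint.mul_bdd (c := M) (Complex.continuous_conj.comp_aestronglyMeasurable hφ) (by
        filter_upwards [hM] with y hy
        rwa [RCLike.norm_conj])
    have hg' : Integrable (fun y => φ y * (starRingEnd ℂ) (g y)) μ :=
      hint.mul_bdd (c := ‖g‖)
        ((Complex.continuous_conj.comp g.continuous).measurable.aestronglyMeasurable) (by
        filter_upwards with y
        rw [RCLike.norm_conj]; exact g.norm_coe_le_norm y)
    have h2 : ((∫ y, ‖φ y‖ ^ 2 ∂μ : ℝ) : ℂ) =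
        ∫ y, φ y * (starRingEnd ℂ) (φ y - g y) ∂μ := by
      have h3 : ((∫ y, ‖φ y‖ ^ 2 ∂μ : ℝ) : ℂ) = ∫ y, φ y * (starRingEnd ℂ) (φ y) ∂μ := by
        rw [← integral_complex_ofReal]
        congr 1
        funext y
        rw [Complex.mul_conj, Complex.normSq_eq_norm_sq]
      rw [h3]
      simp only [map_sub, mul_sub]
      rw [integral_sub hsq hg', h1, sub_zero]
    have h4 : ∫ y, ‖φ y‖ ^ 2 ∂μ = ‖∫ y, φ y * (starRingEnd ℂ) (φ y - g y) ∂μ‖ := by
      rw [← h2, Complex.norm_real, Real.norm_of_nonneg (integral_nonneg fun y => sq_nonneg _)]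
    rw [h4]
    calc ‖∫ y, φ y * (starRingEnd ℂ) (φ y - g y) ∂μ‖
        ≤ ∫ y, ‖φ y * (starRingEnd ℂ) (φ y - g y)‖ ∂μ := norm_integral_le_integral_norm _
      _ ≤ ∫ y, M * ‖φ y - g y‖ ∂μ := by
        refine integral_mono_of_nonneg (Filter.Eventually.of_forall fun y => norm_nonneg _)
          ((hint.sub (integrable_cont μ g.continuous)).norm.const_mul M) ?_
        filter_upwards [hM] with y hy
        rw [norm_mul, RCLike.norm_conj]
        exact mul_le_mul_of_nonneg_right hy (norm_nonneg _)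
      _ = M * ∫ y, ‖φ y - g y‖ ∂μ := integral_const_mul _ _
      _ ≤ M * ε := mul_le_mul_of_nonneg_left hg hM0
  have h0 : ∫ y, ‖φ y‖ ^ 2 ∂μ = 0 := by
    refine le_antisymm ?_ (integral_nonneg fun y => sq_nonneg _)
    refine le_of_forall_pos_le_add fun ε hε => ?_
    have h1 := key (ε / (M + 1)) (by positivity)
    have h2 : M * (ε / (M + 1)) ≤ ε := by
      rw [mul_div_assoc', div_le_iff₀ (by positivity)]
      nlinarith
    linarith
  have hsq2 : Integrable (fun y => ‖φ y‖ ^ 2) μ := by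
    have : (fun y => ‖φ y‖ ^ 2) = fun y => ‖φ y‖ * ‖φ y‖ := by funext y; ring
    rw [this]
    exact hint.norm.mul_bdd (c := M) hφ.norm (by
      filter_upwards [hM] with y hy
      rwa [norm_norm])
  have h1 := (integral_eq_zero_iff_of_nonneg (fun y => sq_nonneg ‖φ y‖) hsq2).1 h0
  filter_upwards [h1] with y hy
  have : ‖φ y‖ ^ 2 = 0 := hy
  exact norm_eq_zero.1 (pow_eq_zero_iff (two_ne_zero) |>.1 this)

end general

section step

variable {Γ Z X : Type*} {X' : Type uX} [Group Γ] [CommGroup Z] [TopologicalSpace Z]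
  [IsTopologicalGroup Z] [CompactSpace Z]
  [TopologicalSpace X] [CompactSpace X] [T2Space X] [SecondCountableTopology X]
  [MeasurableSpace X] [BorelSpace X]
  [MulAction Γ X] [ContinuousConstSMul Γ X] [MulAction Z X] [ContinuousSMul Z X]
  [SMulCommClass Γ Z X]
  [TopologicalSpace X'] [CompactSpace X'] [T2Space X'] [SecondCountableTopology X']
  [MeasurableSpace X'] [BorelSpace X']
  [MulAction Γ X'] [ContinuousConstSMul Γ X']

/-- averages of stabiliser-invariant functions converge uniformly. -/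
lemma avg_of_stab_inv {π : X → X'} (hπ : IsExt Γ Z π) {x : X}
    (hmin : ∀ y ∈ Orb Γ x, x ∈ Orb Γ y) (hA' : AvgProp Γ (π x)) {F : X → ℂ} (hF : Continuous F)
    (hinv : ∀ h : stab Γ Z x, ∀ y ∈ Orb Γ x, F (h • y) = F y) {ε : ℝ} (hε : 0 < ε) :
    ∃ (A : Av Γ) (c : ℂ), ∀ y ∈ Orb Γ x, ‖A.act F y - c‖ ≤ ε := by
  obtain ⟨F', hF'⟩ := descend_stab hπ x hmin hF hinv
  obtain ⟨A, c, hA⟩ := hA' F' F'.continuous ε hε
  refine ⟨A, c, fun y hy => ?_⟩
  have h1 : A.act F y = A.act F' (π y) := by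
    unfold Av.act
    refine Finset.sum_congr rfl fun i _ => ?_
    rw [← hπ.equiv, hF' _ (smul_mem_Orb _ hy)]
  rw [h1]
  exact hA _ (map_mem_Orb (Γ := Γ) (Λ := Γ) id hπ.cont hπ.equiv hy)

/-- comparison of an invariant measure with the image of the lifted measure. -/
lemma compare {π : X → X'} (hπ : IsExt Γ Z π) {x : X}
    (hmin : ∀ y ∈ Orb Γ x, x ∈ Orb Γ y) (hA' : AvgProp Γ (π x)) {m : Measure X}
    (hm : IsInv Γ x m) (hmH : ∀ h : stab Γ Z x, MeasurePreserving (fun y : X => h • y) m m)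
    {Y : Type*} [TopologicalSpace Y] [CompactSpace Y] [T2Space Y] [SecondCountableTopology Y]
    [MeasurableSpace Y] [BorelSpace Y] [MulAction Γ Y] [ContinuousConstSMul Γ Y]
    [MulAction (stab Γ Z x) Y] [ContinuousSMul (stab Γ Z x) Y]
    {p : X → Y} (hp : Continuous p) (hpΓ : ∀ (g : Γ) y, p (g • y) = g • p y)
    (hpH : ∀ (h : stab Γ Z x) y, p (h • y) = h • p y)
    {ν : Measure Y} [IsProbabilityMeasure ν]
    (hνΓ : ∀ g : Γ, MeasurePreserving (fun y : Y => g • y) ν ν)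
    (hνH : ∀ h : stab Γ Z x, MeasurePreserving (fun y : Y => h • y) ν ν)
    (hνs : ∀ᵐ y ∂ν, y ∈ p '' Orb Γ x) : m.map p = ν := by
  haveI := hm.prob
  haveI : IsProbabilityMeasure (m.map p) :=
    Measure.isProbabilityMeasure_map hp.measurable.aemeasurable
  refine ext_complex fun F hF => ?_
  rw [integral_map hp.measurable.aemeasurable hF.measurable.aestronglyMeasurable]
  have hc1 : Continuous (avg (stab Γ Z x) F) := continuous_avg (stab Γ Z x) hF
  have hc2 : Continuous (fun y : X => F (p y)) := hF.comp hp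
  have hc3 : Continuous (avg (stab Γ Z x) (fun y : X => F (p y))) := continuous_avg (stab Γ Z x) hc2
  have h1 : ∀ y : X, avg (stab Γ Z x) (fun y : X => F (p y)) y = avg (stab Γ Z x) F (p y) := by
    intro y
    unfold avg
    congr 1
    funext h
    change F (p (h • y)) = F (h • p y)
    rw [hpH]
  have h2 : ∫ y, F (p y) ∂m = ∫ y, avg (stab Γ Z x) (fun y : X => F (p y)) y ∂m :=
    (integral_avg (stab Γ Z x) hmH hc2).symm
  have h3 : ∫ y, F y ∂ν = ∫ y, avg (stab Γ Z x) F y ∂ν := (integral_avg (stab Γ Z x) hνH hF).symm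
  rw [h2, h3]
  refine eq_of_forall_dist_le fun ε hε => ?_
  obtain ⟨A, c, hA⟩ := avg_of_stab_inv hπ hmin hA' hc3
    (fun h y _ => avg_smul_eq (stab Γ Z x) _ h y) (half_pos hε)
  have h4 := mean_est hm A hc3 hA
  have h5 : ‖∫ y, avg (stab Γ Z x) F y ∂ν - c‖ ≤ ε / 2 := by
    refine mean_est' hνΓ A hc1 ?_
    filter_upwards [hνs] with y hy
    obtain ⟨w, hw, rfl⟩ := hy
    have h6 := hA w hw
    have h7 : A.act (avg (stab Γ Z x) (fun y : X => F (p y))) w = A.act (avg (stab Γ Z x) F) (p w) := by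
      unfold Av.act
      refine Finset.sum_congr rfl fun i _ => ?_
      rw [h1, hpΓ]
    rwa [h7] at h6
  calc dist (∫ y, avg (stab Γ Z x) (fun y : X => F (p y)) y ∂m) (∫ y, avg (stab Γ Z x) F y ∂ν)
      ≤ dist (∫ y, avg (stab Γ Z x) (fun y : X => F (p y)) y ∂m) c + dist (∫ y, avg (stab Γ Z x) F y ∂ν) c :=
        dist_triangle_right _ _ _
    _ ≤ ε / 2 + ε / 2 := add_le_add (by rwa [dist_eq_norm]) (by rwa [dist_eq_norm])
    _ = ε := by ring

/-- bounded functions invariant under `Γ` and the stabiliser are constant a.e. -/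
lemma const_of_inv {π : X → X'} (hπ : IsExt Γ Z π) {x : X}
    (hmin : ∀ y ∈ Orb Γ x, x ∈ Orb Γ y) (hA' : AvgProp Γ (π x)) {μ : Measure X}
    (hμ : IsInv Γ x μ) (hμH : ∀ h : stab Γ Z x, MeasurePreserving (fun y : X => h • y) μ μ)
    {φ : X → ℂ} (hφ : AEStronglyMeasurable φ μ) {M : ℝ} (hM : ∀ᵐ y ∂μ, ‖φ y‖ ≤ M)
    (hφΓ : ∀ g : Γ, (fun y => φ (g • y)) =ᵐ[μ] φ)
    (hφH : ∀ h : stab Γ Z x, (fun y => φ (h • y)) =ᵐ[μ] φ) :
    φ =ᵐ[μ] fun _ => ∫ y, φ y ∂μ := by
  haveI := hμ.prob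
  have hint : Integrable φ μ := Integrable.of_bound hφ M hM
  set K := stab Γ Z x
  set c₀ := ∫ y, φ y ∂μ with hc₀
  set N := ∫ y, ‖φ y‖ ∂μ with hN
  have hN0 : 0 ≤ N := integral_nonneg fun y => norm_nonneg _
  have hc₀N : ‖c₀‖ ≤ N := norm_integral_le_integral_norm _
  have hmulint : ∀ F : X → ℂ, Continuous F → Integrable (fun y => φ y * F y) μ := by
    intro F hF
    obtain ⟨B, hB⟩ := (isCompact_range hF).isBounded.exists_norm_le
    exact hint.mul_bdd (c := B) hF.measurable.aestronglyMeasurable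
      (Filter.Eventually.of_forall fun h => hB _ ⟨h, rfl⟩)
  have key : ∀ ψ : X → ℂ, Continuous ψ → ∫ y, φ y * ψ y ∂μ = c₀ * ∫ y, ψ y ∂μ := by
    intro ψ hψ
    have hc : Continuous (avg K ψ) := continuous_avg K hψ
    rw [← integral_mul_avg K hμH hint hφH hψ, ← integral_avg K hμH hψ]
    refine eq_of_forall_dist_le fun ε hε => ?_
    obtain ⟨A, c, hA⟩ := avg_of_stab_inv hπ hmin hA' hc
      (fun h y _ => avg_smul_eq K _ h y) (ε := ε / (2 * (N + 1))) (by positivity)
    have h4 := mean_est hμ A hc hA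
    have h5 : ∫ y, φ y * avg K ψ y ∂μ = ∫ y, φ y * A.act (avg K ψ) y ∂μ := by
      have h6 : ∀ g : Γ, ∫ y, φ y * avg K ψ (g • y) ∂μ = ∫ y, φ y * avg K ψ y ∂μ := by
        intro g
        rw [← integral_smul_eq (hμ.inv g) (fun y => φ y * avg K ψ y)]
        refine integral_congr_ae ?_
        filter_upwards [hφΓ g] with y hy
        rw [← hy]
      have h7 : (fun y => φ y * A.act (avg K ψ) y) =
          fun y => ∑ i, A.w i • (φ y * avg K ψ (A.g i • y)) := by
        funext y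
        unfold Av.act
        rw [Finset.mul_sum]
        refine Finset.sum_congr rfl fun i _ => ?_
        simp only [Complex.real_smul]
        ring
      rw [h7, integral_finsetSum (s := Finset.univ)
        (f := fun i y => A.w i • (φ y * avg K ψ (A.g i • y)))
        (fun i _ => (hmulint (fun y => avg K ψ (A.g i • y)) (by fun_prop)).smul (A.w i))]
      simp_rw [integral_smul, h6]
      rw [← Finset.sum_smul, A.sum, one_smul]
    rw [h5]
    have h8 : ‖∫ y, φ y * A.act (avg K ψ) y ∂μ - c₀ * c‖ ≤ N * (ε / (2 * (N + 1))) := by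
      have h9 : ∫ y, φ y * A.act (avg K ψ) y ∂μ - c₀ * c =
          ∫ y, φ y * (A.act (avg K ψ) y - c) ∂μ := by
        simp only [mul_sub]
        rw [integral_sub (hmulint _ (A.continuous_act hc)) (hint.mul_const c),
          integral_mul_const]
      rw [h9]
      calc ‖∫ y, φ y * (A.act (avg K ψ) y - c) ∂μ‖
          ≤ ∫ y, ‖φ y * (A.act (avg K ψ) y - c)‖ ∂μ := norm_integral_le_integral_norm _
        _ ≤ ∫ y, ‖φ y‖ * (ε / (2 * (N + 1))) ∂μ := by
          refine integral_mono_of_nonneg (Filter.Eventually.of_forall fun y => norm_nonneg _)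
            (hint.norm.mul_const _) ?_
          filter_upwards [hμ.ae_mem] with y hy
          rw [norm_mul]
          exact mul_le_mul_of_nonneg_left (hA y hy) (norm_nonneg _)
        _ = N * (ε / (2 * (N + 1))) := integral_mul_const _ _
    have h10 : ‖c₀ * c - c₀ * ∫ y, avg K ψ y ∂μ‖ ≤ N * (ε / (2 * (N + 1))) := by
      rw [← mul_sub, norm_mul, norm_sub_rev]
      exact mul_le_mul hc₀N h4 (norm_nonneg _) hN0
    rw [dist_eq_norm]
    calc ‖∫ y, φ y * A.act (avg K ψ) y ∂μ - c₀ * ∫ y, avg K ψ y ∂μ‖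
        = ‖(∫ y, φ y * A.act (avg K ψ) y ∂μ - c₀ * c) + (c₀ * c - c₀ * ∫ y, avg K ψ y ∂μ)‖ := by
          congr 1; ring
      _ ≤ N * (ε / (2 * (N + 1))) + N * (ε / (2 * (N + 1))) :=
          (norm_add_le _ _).trans (add_le_add h8 h10)
      _ = (N / (N + 1)) * ε := by field_simp; ring
      _ ≤ 1 * ε := by
          refine mul_le_mul_of_nonneg_right ?_ hε.le
          rw [div_le_one (by positivity)]; linarith
      _ = ε := one_mul ε
  have hz := ae_zero_of_orth (μ := μ) (φ := fun y => φ y - c₀)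
    (hφ.sub aestronglyMeasurable_const) (M := M + ‖c₀‖) (by
      filter_upwards [hM] with y hy
      exact (norm_sub_le _ _).trans (add_le_add_left hy _)) (by
      intro ψ hψ
      simp only [sub_mul]
      rw [integral_sub (hmulint ψ hψ) ((integrable_cont μ hψ).const_mul c₀), key ψ hψ,
        integral_const_mul, sub_self])
  filter_upwards [hz] with y hy
  exact sub_eq_zero.1 hy

end step

end Nil75
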