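import Pool.Agent.Helper75.Nil.Factor

/-!
The top structure group of a `(k+1)`-step nilspace.
-/

set_option linter.all false

namespace Nil75

universe u

section apply

variable {X : Type u} {C : CubeStructure X}

lemma applyOn_mem {V : Type*} {α : X → X} {F : Set V} {c : V → X} {v : V} (h : v ∈ F) :
    applyOn α F c v = α (c v) := if_pos h

lemma applyOn_notMem {V : Type*} {α : X → X} {F : Set V} {c : V → X} {v : V} (h : v ∉ F) :
    applyOn α F c v = c v := if_neg h

/-- the face where the coordinates in `S` agree with `w` -/
def face {I : Type} (S : Set I) (w : I → Bool) : Set (I → Bool) := {v | ∀ i ∈ S, v i = w i}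

/-- preservation of cubes indexed by `I` on faces of codimension `j` -/
def HP (C : CubeStructure X) (I : Type) (j : ℕ) (α : X → X) : Prop :=
  ∀ (S : Set I) (w : I → Bool), S.ncard = j → ∀ c : (I → Bool) → X, CI C c →
    CI C (applyOn α (face S w) c)

lemma HP_of_preserves (hC : IsNilspace C) {j : ℕ} {α : X → X} (h : PreservesCubes C j α)
    (I : Type) [Finite I] : HP C I j α := by
  intro S w hS c hc
  haveI := Fintype.ofFinite I
  classical
  let e : Fin (Fintype.card I) ≃ I := (Fintype.equivFin I).symm
  rw [CI_iff_equiv hC e] at hc ⊢
  have hcard : (Finset.univ.filter fun i => e i ∈ S).card = j := by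
    rw [← hS, ← Set.ncard_coe_finset]
    have h2 : S = e '' (↑(Finset.univ.filter fun i => e i ∈ S) : Set (Fin (Fintype.card I))) := by
      ext i
      constructor
      · intro hi; exact ⟨e.symm i, by simpa using hi, by simp⟩
      · rintro ⟨j, hj, rfl⟩; simpa using hj
    conv_rhs => rw [h2]
    rw [Set.ncard_image_of_injective _ e.injective]
  have h1 := h _ {v | ∀ i ∈ (Finset.univ.filter fun i => e i ∈ S), v i = w (e i)}
    ⟨Finset.univ.filter fun i => e i ∈ S, fun i => w (e i), hcard, rfl⟩ _ hc
  convert h1 using 1
  funext v
  by_cases hv : (fun i => v (e.symm i)) ∈ face S w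
  · rw [applyOn_mem hv, applyOn_mem]
    intro i hi
    have := hv (e i) (by simpa using hi)
    simpa using this
  · rw [applyOn_notMem hv, applyOn_notMem]
    intro h2
    apply hv
    intro i hi
    have := h2 (e.symm i) (by simpa using hi)
    simpa using this

lemma preserves_of_HP (hC : IsNilspace C) {j : ℕ} {α : X → X} (h : ∀ n, HP C (Fin n) j α) :
    PreservesCubes C j α := by
  rintro n F ⟨S, w, hS, rfl⟩ c hc
  rw [← CI_fin hC] at hc ⊢
  exact h n (S : Set (Fin n)) w (by rw [Set.ncard_coe_finset, hS]) c hc

/-- on large cubes, height `j+1` implies height `j`. -/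
lemma HP_down {I : Type} [Finite I] {j : ℕ} {α : X → X} (h : HP C I (j + 1) α)
    (hI : j + 1 ≤ Nat.card I) : HP C I j α := by
  intro S w hS c hc
  obtain ⟨i, hi⟩ : ∃ i, i ∉ S := by
    by_contra hcon
    push Not at hcon
    have : S = Set.univ := Set.eq_univ_of_forall hcon
    rw [this, Set.ncard_univ] at hS
    omega
  have hS' : (insert i S).ncard = j + 1 := by
    rw [Set.ncard_insert_of_notMem hi, hS]
  have h1 := h (insert i S) (setb w i true) hS' c hc
  have h2 := h (insert i S) (setb w i false) hS' _ h1
  convert h2 using 1
  funext v
  have hmem : ∀ b, v ∈ face (insert i S) (setb w i b) ↔ v i = b ∧ v ∈ face S w := by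
    intro b
    constructor
    · intro hv
      refine ⟨?_, fun l hl => ?_⟩
      · have := hv i (Set.mem_insert _ _)
        rwa [setb_same] at this
      · have := hv l (Set.mem_insert_of_mem _ hl)
        rwa [setb_ne _ _ (fun h : l = i => hi (h ▸ hl))] at this
    · rintro ⟨hv1, hv2⟩ l hl
      rcases hl with rfl | hl
      · rw [setb_same, hv1]
      · rw [setb_ne _ _ (fun h : l = i => hi (h ▸ hl))]; exact hv2 l hl
  by_cases hv : v ∈ face S w
  · rw [applyOn_mem hv]
    by_cases hvi : v i = true
    · have e1 : v ∉ face (insert i S) (setb w i false) := by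
        rw [hmem]; rintro ⟨h3, -⟩; rw [hvi] at h3; exact absurd h3 (by simp)
      have e2 : v ∈ face (insert i S) (setb w i true) := (hmem true).2 ⟨hvi, hv⟩
      rw [applyOn_notMem e1, applyOn_mem e2]
    · have hvi' : v i = false := by simpa using hvi
      have e1 : v ∈ face (insert i S) (setb w i false) := (hmem false).2 ⟨hvi', hv⟩
      have e2 : v ∉ face (insert i S) (setb w i true) := by
        rw [hmem]; rintro ⟨h3, -⟩; exact hvi h3
      rw [applyOn_mem e1, applyOn_notMem e2]
  · have e1 : v ∉ face (insert i S) (setb w i false) := by
      rw [hmem]; rintro ⟨-, h3⟩; exact hv h3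
    have e2 : v ∉ face (insert i S) (setb w i true) := by
      rw [hmem]; rintro ⟨-, h3⟩; exact hv h3
    rw [applyOn_notMem hv, applyOn_notMem e1, applyOn_notMem e2]

lemma HP_one {I : Type} [Finite I] {j : ℕ} {α : X → X} (h : HP C I (j + 1) α)
    (hI : j + 1 ≤ Nat.card I) : HP C I 1 α := by
  induction j with
  | zero => exact h
  | succ j ih => exact ih (HP_down h hI) (by omega)

end apply

section quad

variable {X : Type u} {C : CubeStructure X}

/-- the cube with bottom `(x,…,x,y)` and top `(w,…,w,w')`. -/
noncomputable def quad (k : ℕ) (x y w w' : X) : (Option (Fin (k + 1)) → Bool) → X := fun v =>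
  if v none then upd (fun _ : Cube (k + 1) => w) ⊤ w' (fun i => v (some i))
  else upd (fun _ : Cube (k + 1) => x) ⊤ y (fun i => v (some i))

/-- parallelism -/
def Q (C : CubeStructure X) (k : ℕ) (x y w w' : X) : Prop := CI C (quad k x y w w')

variable (hC : IsNilspace C) {k : ℕ}
include hC

lemma Q_symm {x y w w' : X} (h : Q C k x y w w') : Q C k w w' x y := by
  have h1 := CI.reflect hC none h
  unfold Q
  convert h1 using 1
  funext v
  have e1 : (fun i : Fin (k + 1) => setb v none (!(v none)) (some i)) = fun i => v (some i) := by
    funext i; exact setb_ne _ _ (by simp)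
  simp only [quad, setb_same, e1]
  cases v none <;> simp

lemma Q_trans {x y w w' a a' : X} (h₁ : Q C k x y w w') (h₂ : Q C k w w' a a') :
    Q C k x y a a' := by
  have h1 := glue hC none h₁ h₂ (by
    intro v
    have e1 : ∀ b, (fun i : Fin (k + 1) => setb v none b (some i)) = fun i => v (some i) := by
      intro b; funext i; exact setb_ne _ _ (by simp)
    simp [quad, setb_same, e1])
  unfold Q
  convert h1 using 1
  funext v
  simp only [quad]
  cases v none <;> simp

lemma Q_of_sim {x y : X} (h : SimRel C k x y) : Q C k x y x y := by
  have h1 := ((sim_iff hC).1 h).comp hC (IsMor.reindex (some : Fin (k + 1) → Option (Fin (k + 1))))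
  unfold Q
  convert h1 using 1
  funext v
  simp [quad]

lemma Q_diag (x w : X) : Q C k x x w w := by
  have h1 := CI_pair hC (none : Option (Fin (k + 1))) x w
  unfold Q
  convert h1 using 1
  funext v
  simp only [quad]
  have e1 : ∀ a : X, upd (fun _ : Cube (k + 1) => a) ⊤ a = fun _ => a := fun a => upd_self _ _
  simp [e1]

lemma Q_sim₂ {x y w w' : X} (h : Q C k x y w w') : SimRel C k w w' := by
  rw [sim_iff hC]
  have h1 := h.comp hC (φ := fun (v : Cube (k + 1)) (i : Option (Fin (k + 1))) => match i with
    | none => true
    | some i => v i) (by
      intro i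
      cases i with
      | none => exact Or.inl ⟨true, fun v => rfl⟩
      | some i => exact Or.inr (Or.inl ⟨i, fun v => rfl⟩))
  convert h1 using 1
  funext v
  simp [quad]

lemma Q_sim₁ {x y w w' : X} (h : Q C k x y w w') : SimRel C k x y := Q_sim₂ hC (Q_symm hC h)

lemma Q_exists {x y : X} (h : SimRel C k x y) (w : X) : ∃ w', Q C k x y w w' := by
  obtain ⟨w', hw'⟩ := CI_corner hC (quad k x y w w) (by
    intro i
    cases i with
    | none =>
      have h1 := ((sim_iff hC).1 h).comp hC
        (IsMor.reindex (some : Fin (k + 1) → Option (Fin (k + 1))))
      convert h1 using 1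
      funext v
      have e1 : (fun i : Fin (k + 1) => setb v none false (some i)) = fun i => v (some i) := by
        funext i; exact setb_ne _ _ (by simp)
      simp only [quad, setb_same, e1]
      simp
    | some j =>
      have h1 := CI_pair hC (none : Option (Fin (k + 1))) x w
      convert h1 using 1
      funext v
      have e1 : (fun i : Fin (k + 1) => setb v (some j) false (some i)) ≠ ⊤ := by
        intro h2
        have := congrFun h2 j
        simp only [setb_same] at this
        exact absurd this (by simp)
      have e2 : setb v (some j) false none = v none := setb_ne _ _ (by simp)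
      simp only [quad, e2, upd_ne _ _ e1])
  refine ⟨w', ?_⟩
  unfold Q
  convert hw' using 1
  funext v
  by_cases hv : v = ⊤
  · subst hv
    rw [upd_same]
    have : (fun i : Fin (k + 1) => (⊤ : Option (Fin (k + 1)) → Bool) (some i)) = ⊤ := rfl
    simp only [quad, this, upd_same]
    simp
  · rw [upd_ne _ _ hv]
    simp only [quad]
    by_cases hn : v none = true
    · have e1 : (fun i : Fin (k + 1) => v (some i)) ≠ ⊤ := by
        intro h2
        apply hv
        funext i
        cases i with
        | none => exact hn
        | some i => exact congrFun h2 i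
      simp only [hn, if_true, upd_ne _ _ e1]
    · simp [hn]

variable (hk : IsStep C (k + 1))
include hk

lemma Q_unique {x y w a b : X} (ha : Q C k x y w a) (hb : Q C k x y w b) : a = b := by
  have h1 := CI_unique hC hk (I := Option (Fin (k + 1))) (by simp) ha hb (by
    intro v hv
    simp only [quad]
    by_cases hn : v none = true
    · have e1 : (fun i : Fin (k + 1) => v (some i)) ≠ ⊤ := by
        intro h2
        apply hv
        funext i
        cases i with
        | none => exact hn
        | some i => exact congrFun h2 i
      simp only [hn, if_true, upd_ne _ _ e1]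
    · simp [hn])
  have h2 := congrFun h1 ⊤
  have : (fun i : Fin (k + 1) => (⊤ : Option (Fin (k + 1)) → Bool) (some i)) = ⊤ := rfl
  simp only [quad, this, upd_same] at h2
  simpa using h2

/-- maps all of whose displacements are parallel preserve cubes on faces of codimension `k+1`. -/
lemma E_cube {α : X → X} (hα : ∀ x w, Q C k x (α x) w (α w)) :
    ∀ (n : ℕ) (T : Type) [Finite T], Nat.card T = n → ∀ d : (T → Bool) → X, CI C d →
      CI C (applyOn α {v : Fin (k + 1) ⊕ T → Bool | ∀ i, v (Sum.inl i) = true}
        (fun v => d (fun t => v (Sum.inr t)))) := by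
  intro n
  induction n with
  | zero =>
    intro T _ hT d hd
    haveI : IsEmpty T := by
      rcases Nat.card_eq_zero.1 hT with h | h
      · exact h
      · exact absurd ‹Finite T› (by rwa [not_finite_iff_infinite])
    have hd' : ∀ v, d v = d ⊤ := fun v => congrArg d (Subsingleton.elim _ _)
    have h1 := ((sim_iff hC).1 (Q_sim₁ hC (hα (d ⊤) (d ⊤)))).comp hC
      (IsMor.reindex (Sum.inl : Fin (k + 1) → Fin (k + 1) ⊕ T))
    convert h1 using 1
    funext v
    by_cases hv : ∀ i, v (Sum.inl i) = true
    · rw [applyOn_mem (by exact hv), hd']
      have : (fun j => v (Sum.inl j)) = ⊤ := funext hv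
      rw [this, upd_same]
    · rw [applyOn_notMem (by exact hv), hd']
      have : (fun j => v (Sum.inl j)) ≠ ⊤ := fun h => hv (fun i => congrFun h i)
      rw [upd_ne _ _ this]
  | succ n ih =>
    intro T _ hT d hd
    set F : Set (Fin (k + 1) ⊕ T → Bool) := {v | ∀ i, v (Sum.inl i) = true} with hF
    set E : (Fin (k + 1) ⊕ T → Bool) → X :=
      applyOn α F (fun v => d (fun t => v (Sum.inr t))) with hE
    classical
    have hTne : Nonempty T := by
      rw [← Finite.card_pos_iff, hT]; omega
    obtain ⟨t₀⟩ := hTne
    obtain ⟨x, hx⟩ := CI_corner hC E (by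
      rintro (i | t)
      · -- face `v (inl i) = 0`
        have h1 : CI C (fun v : Fin (k + 1) ⊕ T → Bool => d (fun t => v (Sum.inr t))) :=
          hd.comp hC (IsMor.reindex _)
        convert h1 using 1
        funext v
        have e1 : setb v (Sum.inl i) false ∉ F := by
          intro h
          have := h i
          rw [setb_same] at this
          exact absurd this (by simp)
        rw [hE, applyOn_notMem e1]
        congr 1
        funext t
        exact setb_ne _ _ (by simp)
      · -- face `v (inr t) = 0`
        let T' : Type := {s : T // s ≠ t}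
        have hT' : Nat.card T' = n := by
          haveI := Fintype.ofFinite T
          classical
          have h2 : Nat.card T' + 1 = Nat.card T := by
            rw [Nat.card_eq_fintype_card, Nat.card_eq_fintype_card]
            have := Fintype.card_subtype_compl (fun s : T => s = t)
            simp only [Fintype.card_subtype_eq] at this
            have h3 : 0 < Fintype.card T := Fintype.card_pos_iff.2 ⟨t⟩
            have h4 : Fintype.card T' = Fintype.card T - 1 := this
            omega
          omega
        classical
        let d' : (T' → Bool) → X := fun u => d (fun s => if h : s = t then false else u ⟨s, h⟩)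
        have hd' : CI C d' := by
          refine hd.comp hC ?_
          intro s
          by_cases hs : s = t
          · exact Or.inl ⟨false, fun v => by simp [hs]⟩
          · exact Or.inr (Or.inl ⟨⟨s, hs⟩, fun v => by simp [hs]⟩)
        have h1 := (ih T' hT' d' hd').comp hC
          (φ := fun (v : Fin (k + 1) ⊕ T → Bool) (i : Fin (k + 1) ⊕ T') =>
            v (Sum.map id Subtype.val i)) (IsMor.reindex _)
        convert h1 using 1
        funext v
        have e3 : d (fun s => setb v (Sum.inr t) false (Sum.inr s)) =
            d' (fun s => v (Sum.inr s.1)) := by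
          simp only [d']
          congr 1
          funext s
          by_cases hs : s = t
          · subst hs; simp [setb_same]
          · rw [setb_ne _ _ (by simpa using hs)]; simp [hs]
        have hiff : setb v (Sum.inr t) false ∈ F ↔ ∀ i, v (Sum.inl i) = true := by
          constructor
          · intro h i
            have := h i
            rwa [setb_ne _ _ (by simp)] at this
          · intro h i
            rw [setb_ne _ _ (by simp)]; exact h i
        by_cases hv : ∀ i, v (Sum.inl i) = true
        · rw [hE, applyOn_mem (hiff.2 hv), applyOn_mem (by exact hv)]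
          simp only [e3, Sum.map_inr]
        · rw [hE, applyOn_notMem (fun h => hv (hiff.1 h)), applyOn_notMem (by exact hv)]
          simp only [e3, Sum.map_inr])
    -- identify the completion
    have hxα : x = α (d ⊤) := by
      have hψ : IsMor (fun (v : Option (Fin (k + 1)) → Bool) (i : Fin (k + 1) ⊕ T) =>
          Sum.elim (fun i => v (some i)) (fun t => if t = t₀ then v none else true) i) := by
        rintro (i | t)
        · exact Or.inr (Or.inl ⟨some i, fun v => rfl⟩)
        · by_cases ht : t = t₀
          · exact Or.inr (Or.inl ⟨none, fun v => by simp [ht]⟩)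
          · exact Or.inl ⟨true, fun v => by simp [ht]⟩
      have h1 := hx.comp hC hψ
      set d₁ : X := d (fun t => if t = t₀ then false else true) with hd₁
      have h2 : Q C k d₁ (α d₁) (d ⊤) x := by
        unfold Q
        convert h1 using 1
        funext v
        set u : Fin (k + 1) ⊕ T → Bool := fun i =>
          Sum.elim (fun i => v (some i)) (fun t => if t = t₀ then v none else true) i with hu
        by_cases hsome : (fun i => v (some i)) = ⊤
        · have huF : u ∈ F := fun i => congrFun hsome i
          by_cases hn : v none = true
          · have hu' : u = ⊤ := by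
              funext i
              rcases i with i | t
              · exact congrFun hsome i
              · simp [hu, hn]
            rw [hu', upd_same]
            simp only [quad, hn, if_true, hsome, upd_same]
          · have hn' : v none = false := by simpa using hn
            have hu' : u ≠ ⊤ := by
              intro h
              have := congrFun h (Sum.inr t₀)
              simp only [hu, Sum.elim_inr, if_true] at this
              rw [hn'] at this
              exact absurd this (by simp)
            rw [upd_ne _ _ hu', hE, applyOn_mem huF]
            simp only [quad, hn', Bool.false_eq_true, if_false, hsome, upd_same, hd₁, hu,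
              Sum.elim_inr]
        · have huF : u ∉ F := by
            intro h
            exact hsome (funext fun i => h i)
          have hu' : u ≠ ⊤ := by
            intro h
            exact hsome (funext fun i => congrFun h (Sum.inl i))
          rw [upd_ne _ _ hu', hE, applyOn_notMem huF]
          simp only [quad, upd_ne _ _ hsome, hu, Sum.elim_inr]
          by_cases hn : v none = true
          · simp only [hn, if_true, ite_self]
            rfl
          · have hn' : v none = false := by simpa using hn
            simp only [hn', Bool.false_eq_true, if_false, hd₁]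
      exact Q_unique hC hk h2 (hα _ _)
    have h3 : upd E ⊤ x = E := by
      have h4 : E ⊤ = x := by
        rw [hxα, hE, applyOn_mem (by intro i; rfl)]
        rfl
      rw [← h4, upd_self]
    rwa [h3] at hx

/-- such maps have height `k+1`. -/
lemma HP_of_Q {α : X → X} (hα : ∀ x w, Q C k x (α x) w (α w)) (I : Type) [Finite I] :
    HP C I (k + 1) α := by
  classical
  haveI := Fintype.ofFinite I
  have top : ∀ (S : Set I), S.ncard = k + 1 → ∀ c : (I → Bool) → X, CI C c →
      CI C (applyOn α (face S ⊤) c) := by
    intro S hS c hc
    have h0 : applyOn α (face S ⊤) c = repl S (fun v => α (c v)) c := by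
      funext v
      by_cases hv : ∀ i ∈ S, v i = true
      · rw [applyOn_mem (by exact hv), repl_pos hv]
      · rw [applyOn_notMem (by exact hv), repl_neg hv]
    rw [h0]
    refine replace hC S hc _ ?_
    let T : Type := {i : I // i ∉ S}
    let ext : (T → Bool) → (I → Bool) := fun t i => if h : i ∈ S then true else t ⟨i, h⟩
    have hext : IsMor ext := by
      intro i
      by_cases hi : i ∈ S
      · exact Or.inl ⟨true, fun v => by simp only [ext, dif_pos hi]⟩
      · exact Or.inr (Or.inl ⟨⟨i, hi⟩, fun v => by simp only [ext, dif_neg hi]⟩)
    obtain ⟨e⟩ : Nonempty (Fin (k + 1) ≃ S) := by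
      haveI := Fintype.ofFinite S
      have : Fintype.card S = k + 1 := by
        rw [← Nat.card_eq_fintype_card, Nat.card_coe_set_eq, hS]
      exact ⟨((Fintype.equivFin S).trans (finCongr this)).symm⟩
    have h1 := (E_cube hC hk hα _ T rfl (fun t => c (ext t)) (hc.comp hC hext)).comp hC
      (φ := fun (v : I → Bool) (i : Fin (k + 1) ⊕ T) =>
        v (Sum.elim (fun a => (e a : I)) (fun t => t.1) i)) (IsMor.reindex _)
    convert h1 using 1
    funext v
    have e3 : ext (fun t => v t.1) = push S v := by
      funext i
      by_cases hi : i ∈ S
      · simp only [ext, dif_pos hi, push_mem hi]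
      · simp only [ext, dif_neg hi, push_notMem hi]
    by_cases hv : ∀ i ∈ S, v i = true
    · have e1 : ∀ a, v (e a : I) = true := fun a => hv _ (e a).2
      have e4 : push S v = v := by
        funext i
        by_cases hi : i ∈ S
        · rw [push_mem hi, hv i hi]
        · rw [push_notMem hi]
      rw [repl_pos hv, applyOn_mem (by exact e1)]
      simp only [Sum.elim_inr]
      rw [e3, e4]
    · have e1 : ¬ ∀ a, v (e a : I) = true := by
        intro h
        apply hv
        intro i hi
        have := h (e.symm ⟨i, hi⟩)
        simpa using this
      rw [repl_neg hv, applyOn_notMem (by exact e1)]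
      simp only [Sum.elim_inr]
      rw [e3]
  intro S w hS c hc
  let φ : (I → Bool) → (I → Bool) := fun v i => if w i then v i else !(v i)
  have hφ : IsMor φ := by
    intro i
    by_cases hi : w i = true
    · exact Or.inr (Or.inl ⟨i, fun v => by simp [φ, hi]⟩)
    · exact Or.inr (Or.inr ⟨i, fun v => by simp [φ, hi]⟩)
  have hφφ : ∀ v, φ (φ v) = v := by
    intro v
    funext i
    by_cases hi : w i = true
    · simp [φ, hi]
    · simp [φ, hi]
  have h1 := (top S hS _ (hc.comp hC hφ)).comp hC hφ
  convert h1 using 1
  funext v
  have hiff : v ∈ face S w ↔ φ v ∈ face S ⊤ := by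
    constructor
    · intro h i hi
      have := h i hi
      change (if w i then v i else !(v i)) = true
      cases hw : w i <;> simp [this, hw]
    · intro h i hi
      have : (if w i then v i else !(v i)) = true := h i hi
      cases hw : w i
      · rw [hw] at this; simpa using this
      · rw [hw] at this; simpa using this
  by_cases hv : v ∈ face S w
  · rw [applyOn_mem hv, applyOn_mem (hiff.1 hv), hφφ]
  · rw [applyOn_notMem hv, applyOn_notMem (fun h => hv (hiff.2 h)), hφφ]

omit hk in
/-- height `k+1` maps have parallel displacements. -/
lemma Q_of_HP {α : X → X} (hα : HP C (Option (Fin (k + 1))) (k + 1) α) (x w : X) :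
    Q C k x (α x) w (α w) := by
  have h1 := hα (Set.range some) ⊤ (by
    rw [← Set.image_univ, Set.ncard_image_of_injective _ (Option.some_injective _),
      Set.ncard_univ]; simp) _ (CI_pair hC (none : Option (Fin (k + 1))) x w)
  unfold Q
  convert h1 using 1
  funext v
  by_cases hsome : (fun i => v (some i)) = ⊤
  · have : v ∈ face (Set.range (some : Fin (k + 1) → _)) ⊤ := by
      rintro _ ⟨i, rfl⟩
      exact congrFun hsome i
    rw [applyOn_mem this]
    simp only [quad, hsome, upd_same]
    split_ifs <;> rfl
  · have : v ∉ face (Set.range (some : Fin (k + 1) → _)) ⊤ := by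
      intro h
      exact hsome (funext fun i => h _ ⟨i, rfl⟩)
    rw [applyOn_notMem this]
    simp only [quad, upd_ne _ _ hsome]

omit hk hC in
/-- applying a height `k+1` map to the second points. -/
lemma Q_apply {β : X → X} (hβ : HP C (Option (Fin (k + 1))) (k + 1) β) {x y w w' : X}
    (h : Q C k x y w w') : Q C k x (β y) w (β w') := by
  have h1 := hβ (Set.range some) ⊤ (by
    rw [← Set.image_univ, Set.ncard_image_of_injective _ (Option.some_injective _),
      Set.ncard_univ]; simp) _ h
  unfold Q
  convert h1 using 1
  funext v
  by_cases hsome : (fun i => v (some i)) = ⊤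
  · have : v ∈ face (Set.range (some : Fin (k + 1) → _)) ⊤ := by
      rintro _ ⟨i, rfl⟩
      exact congrFun hsome i
    rw [applyOn_mem this]
    simp only [quad, hsome, upd_same]
    split_ifs <;> rfl
  · have : v ∉ face (Set.range (some : Fin (k + 1) → _)) ⊤ := by
      intro h
      exact hsome (funext fun i => h _ ⟨i, rfl⟩)
    rw [applyOn_notMem this]
    simp only [quad, upd_ne _ _ hsome]

omit hk hC in
/-- applying a height one map to the top points. -/
lemma Q_apply_one {β : X → X} (hβ : HP C (Option (Fin (k + 1))) 1 β) {x y w w' : X}
    (h : Q C k x y w w') : Q C k x y (β w) (β w') := by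
  have h1 := hβ {none} ⊤ (Set.ncard_singleton _) _ h
  unfold Q
  convert h1 using 1
  funext v
  by_cases hn : v none = true
  · have : v ∈ face ({none} : Set (Option (Fin (k + 1)))) ⊤ := by
      rintro _ rfl
      exact hn
    rw [applyOn_mem this]
    simp only [quad, hn, if_true]
    by_cases hsome : (fun i => v (some i)) = ⊤
    · rw [hsome, upd_same, upd_same]
    · rw [upd_ne _ _ hsome, upd_ne _ _ hsome]
  · have : v ∉ face ({none} : Set (Option (Fin (k + 1)))) ⊤ := by
      intro h
      exact hn (h none rfl)
    rw [applyOn_notMem this]
    simp only [quad, if_neg hn]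

end quad

end Nil75
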