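import Pool.Agent.Helper75.Nil.AvgStep

/-!
Towers of extensions with the star property; the main induction.
-/

set_option linter.all false

open MeasureTheory Topology
open scoped ENNReal

namespace Nil75

universe u v

/-- the star property: cube-type elements of the structure group have trivial alternating
product. -/
def StarProp (Γ : Type v) (Z : Type u) (X : Type u) [Group Γ] [CommGroup Z] [TopologicalSpace X]
    [MulAction Γ X] [MulAction Z X] : Prop :=
  ∃ (n : ℕ) (sg : Cube n → Bool), sg ⊥ = true ∧ ∀ (x : X) (z : Cube n → Z),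
    (fun v => z v • x) ∈ Orb (HK n Γ) (fun _ : Cube n => x) →
      ∏ v, (if sg v then z v else (z v)⁻¹) = 1

/-- a tower of height `k` of compact abelian group extensions with the star property. -/
def NilSys (Γ : Type v) [Group Γ] : ℕ → ∀ (X : Type u) [TopologicalSpace X] [MulAction Γ X], Prop
  | 0, X, _, _ => Subsingleton X
  | k + 1, X, _, _ => ∃ (X' : Type u) (_ : TopologicalSpace X') (_ : MulAction Γ X') (Z : Type u)
      (_ : CommGroup Z) (_ : TopologicalSpace Z) (_ : MulAction Z X) (π : X → X'),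
      CompactSpace X' ∧ T2Space X' ∧ SecondCountableTopology X' ∧ ContinuousConstSMul Γ X' ∧
      IsTopologicalGroup Z ∧ CompactSpace Z ∧ T2Space Z ∧ ContinuousSMul Z X ∧
      SMulCommClass Γ Z X ∧ IsExt Γ Z π ∧ StarProp Γ Z X ∧ NilSys Γ k X'

/-- powers of towers are towers. -/
lemma NilSys.pi {Γ : Type v} [Group Γ] {S : Type} [Finite S] (Λ : Subgroup (S → Γ)) :
    ∀ (k : ℕ) (X : Type u) [TopologicalSpace X] [MulAction Γ X], NilSys Γ k X →
      NilSys Λ k (S → X) := by
  intro k
  induction k with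
  | zero =>
    intro X _ _ h
    haveI : Subsingleton X := h
    exact (inferInstance : Subsingleton (S → X))
  | succ k ih =>
    intro X _ _ h
    obtain ⟨X', tX', aX', Z, gZ, tZ, aZ, π, h1, h2, h3, h4, h5, h6, h7, h8, h9, hπ, hstar, hk⟩ := h
    haveI := Fintype.ofFinite S
    refine ⟨S → X', inferInstance, inferInstance, S → Z, inferInstance, inferInstance,
      inferInstance, fun c i => π (c i), inferInstance, inferInstance, inferInstance,
      inferInstance, inferInstance, inferInstance, inferInstance, inferInstance, inferInstance,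
      hπ.pi S Λ, ?_, ih X' hk⟩
    obtain ⟨n, sg, hsg, hst⟩ := hstar
    refine ⟨n, sg, hsg, fun x z hz => ?_⟩
    funext s
    rw [Finset.prod_apply]
    have h10 := hst (x s) (fun v => z v s) ?_
    · rw [Pi.one_apply, ← h10]
      refine Finset.prod_congr rfl fun v _ => ?_
      split_ifs <;> rfl
    · let ρ : Λ →* Γ := (Pi.evalMonoidHom (fun _ : S => Γ) s).comp Λ.subtype
      exact map_mem_Orb (Γ := HK n Λ) (Λ := HK n Γ) (HKmap n ρ)
        (p := fun (c : Cube n → S → X) (v : Cube n) => c v s)
        (continuous_pi fun v => (continuous_apply s).comp (continuous_apply v))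
        (fun g c => rfl) hz

/-- the main induction. -/
theorem main_induction
    (PW : ∀ (H : Type u) [CommGroup H] [TopologicalSpace H] [IsTopologicalGroup H]
      [CompactSpace H] [T2Space H], CharSep H) :
    ∀ (k : ℕ) (Γ : Type v) [Group Γ] (X : Type u) [TopologicalSpace X] [CompactSpace X]
      [T2Space X] [SecondCountableTopology X] [MeasurableSpace X] [BorelSpace X]
      [MulAction Γ X] [ContinuousConstSMul Γ X], NilSys Γ k X →
      (∀ x : X, Good Γ x) ∧ ∀ (n : ℕ) (x : X) (m : Measure (Cube n → X)) (μ : Measure X),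
        IsInv (HK n Γ) (fun _ : Cube n => x) m → IsInv Γ x μ → ACE n m μ := by
  intro k
  induction k with
  | zero =>
    intro Γ _ X _ _ _ _ _ _ _ _ h
    haveI : Subsingleton X := h
    refine ⟨fun x => ⟨?_, ?_, ?_⟩, ?_⟩
    · intro y hy
      rw [Subsingleton.elim x y]
      exact self_mem_Orb y
    · intro F hF ε hε
      refine ⟨Av.dirac 1, F x, fun y hy => ?_⟩
      rw [Av.act_dirac, Subsingleton.elim ((1 : Γ) • y) x]
      simpa using hε.le
    · refine ⟨Measure.dirac x, ⟨inferInstance, ?_, ?_⟩⟩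
      · rw [Measure.dirac_apply' _ (isClosed_Orb x).measurableSet.compl]
        simp [self_mem_Orb x]
      · intro g
        refine ⟨(continuous_const_smul g).measurable, ?_⟩
        rw [Measure.map_dirac' (continuous_const_smul g).measurable,
          Subsingleton.elim (g • x) x]
    · intro n x m μ hm hμ Φ hΦ ε hε
      haveI := hm.prob
      haveI := hμ.prob
      refine ⟨fun _ => Φ (fun _ => x), continuous_const, fun ψ hψ => ?_⟩
      have h1 : ∀ c : Cube n → X, c = fun _ => x := fun c => Subsingleton.elim _ _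
      have h2 : ∀ y : X, y = x := fun y => Subsingleton.elim _ _
      have e1 : ∫ c, Φ c * ψ (c ⊥) ∂m = Φ (fun _ => x) * ψ x := by
        have : (fun c : Cube n → X => Φ c * ψ (c ⊥)) = fun _ => Φ (fun _ => x) * ψ x := by
          funext c
          rw [h1 c]
        rw [this]; simp
      have e2 : ∫ y, Φ (fun _ => x) * ψ y ∂μ = Φ (fun _ => x) * ψ x := by
        have : (fun y : X => Φ (fun _ => x) * ψ y) = fun _ => Φ (fun _ => x) * ψ x := by
          funext y
          rw [h2 y]
        rw [this]; simp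
      rw [e1, e2]
      simp only [sub_self, norm_zero]
      exact mul_nonneg hε.le (integral_nonneg fun y => norm_nonneg _)
  | succ k ih =>
    -- data attached to a point
    have step : ∀ (Γ : Type v) [Group Γ] (X : Type u) [TopologicalSpace X] [CompactSpace X]
        [T2Space X] [SecondCountableTopology X] [MeasurableSpace X] [BorelSpace X]
        [MulAction Γ X] [ContinuousConstSMul Γ X], NilSys Γ (k + 1) X →
        (∀ x : X, Good Γ x) ∧ ∀ (n : ℕ) (x : X), ∃ (m : Measure (Cube n → X)) (μ : Measure X),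
          IsInv (HK n Γ) (fun _ : Cube n => x) m ∧ IsInv Γ x μ ∧ ACE n m μ := by
      intro Γ _ X _ _ _ _ _ _ _ _ h
      obtain ⟨X', tX', aX', Z, gZ, tZ, aZ, π, h1, h2, h3, h4, h5, h6, h7, h8, h9, hπ,
        hstar, hk⟩ := h
      borelize X'
      obtain ⟨hG', hACE'⟩ := ih Γ X' hk
      have hGn' : ∀ (n : ℕ) (x : Cube n → X'), Good (HK n Γ) x := fun n x =>
        (ih (HK n Γ) (Cube n → X') (NilSys.pi (HK n Γ) k X' hk)).1 x
      have data : ∀ (n : ℕ) (x : X), ∃ (m : Measure (Cube n → X)) (μ : Measure X),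
          IsInv (HK n Γ) (fun _ : Cube n => x) m ∧
          (∀ h : stab (HK n Γ) (Cube n → Z) (fun _ : Cube n => x),
            MeasurePreserving (fun y : Cube n → X => h • y) m m) ∧
          IsInv Γ x μ ∧
          (∀ h : stab Γ Z x, MeasurePreserving (fun y : X => h • y) μ μ) ∧
          (∀ y ∈ Orb Γ x, x ∈ Orb Γ y) ∧
          (∀ y ∈ Orb (HK n Γ) (fun _ : Cube n => x), (fun _ : Cube n => x) ∈ Orb (HK n Γ) y) ∧
          ACE n m μ := by
        intro n x
        have hmin := min_lift hπ (x := x) (hG' (π x)).min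
        have hminn := min_lift (hπ.pi (Cube n) (HK n Γ)) (x := fun _ : Cube n => x)
          (hGn' n (fun _ => π x)).min
        obtain ⟨μ', hμ'⟩ := (hG' (π x)).ex
        obtain ⟨m', hm'⟩ := (hGn' n (fun _ => π x)).ex
        obtain ⟨μ, hμ, hμH, hμπ⟩ := lift_measure hπ x hmin μ' hμ'
        obtain ⟨m, hm, hmH, hmπ⟩ := lift_measure (hπ.pi (Cube n) (HK n Γ))
          (fun _ : Cube n => x) hminn m' hm'
        refine ⟨m, μ, hm, hmH, hμ, hμH, hmin, hminn, ?_⟩
        refine ACE_step hπ hmin hminn (hGn' n (fun _ => π x)).avg hm hmH hμ hμH ?_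
        rw [hmπ, hμπ]
        exact hACE' n (π x) m' μ' hm' hμ'
      refine ⟨fun x => ?_, fun n x => ?_⟩
      · obtain ⟨n, sg, hsg, hst⟩ := hstar
        obtain ⟨m, μ, hm, hmH, hμ, hμH, hmin, hminn, hACE⟩ := data n x
        refine ⟨hmin, ?_, ⟨μ, hμ⟩⟩
        haveI : T2Space (stab Γ Z x) := inferInstance
        exact avg_step hπ hmin (hG' (π x)).avg hminn (hGn' n (fun _ => π x)).avg hm hmH hμ hμH
          hACE hsg (fun z hz => hst x z hz) (PW (stab Γ Z x))
      · obtain ⟨m, μ, hm, hmH, hμ, hμH, hmin, hminn, hACE⟩ := data n x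
        exact ⟨m, μ, hm, hμ, hACE⟩
    intro Γ _ X _ _ _ _ _ _ _ _ h
    refine ⟨(step Γ X h).1, fun n x m μ hm hμ => ?_⟩
    obtain ⟨m₁, μ₁, hm₁, hμ₁, hACE⟩ := (step Γ X h).2 n x
    have e1 : μ = μ₁ := hμ.unique hμ₁ ((step Γ X h).1 x).avg
    have e2 : m = m₁ := hm.unique hm₁
      ((step (HK n Γ) (Cube n → X) (NilSys.pi (HK n Γ) (k + 1) X h)).1 (fun _ => x)).avg
    rw [e1, e2]
    exact hACE

end Nil75
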