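import Pool.Agent.Helper75.Nil.StructGroup

/-!
The top structure group as a group of permutations; star property; translations of factors.
-/

set_option linter.all false

namespace Nil75

universe u

section zgroup

variable {X : Type u} {C : CubeStructure X} (hC : IsNilspace C) {k : ℕ} (hk : IsStep C (k + 1))

include hC hk in
/-- the map with prescribed displacement -/
lemma exists_tr {x y : X} (h : SimRel C k x y) :
    ∃ α : X → X, (∀ a w, Q C k a (α a) w (α w)) ∧ α x = y := by
  choose α hα using fun w => Q_exists hC h w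
  refine ⟨α, fun a w => Q_trans hC (Q_symm hC (hα a)) (hα w), ?_⟩
  exact Q_unique hC hk (hα x) (Q_of_sim hC h)

include hC hk in
lemma preserves_of_Q {α : X → X} (hα : ∀ x w, Q C k x (α x) w (α w)) :
    PreservesCubes C (k + 1) α :=
  preserves_of_HP hC fun n => HP_of_Q hC hk hα (Fin n)

include hC in
lemma Q_of_preserves {α : X → X} (hα : PreservesCubes C (k + 1) α) (x w : X) :
    Q C k x (α x) w (α w) :=
  Q_of_HP hC (HP_of_preserves hC hα _) x w

include hC hk in
lemma preserves_symm {α : Equiv.Perm X} (hα : PreservesCubes C (k + 1) α) :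
    PreservesCubes C (k + 1) α.symm := by
  refine preserves_of_Q hC hk fun x w => ?_
  -- write `x = α a`, `w = α b`
  obtain ⟨a, rfl⟩ := α.surjective x
  obtain ⟨b, rfl⟩ := α.surjective w
  simp only [Equiv.symm_apply_apply]
  have h1 : SimRel C k (α a) a := sim_symm (Q_sim₁ hC (Q_of_preserves hC hα a a))
  obtain ⟨β, hβ, hβa⟩ := exists_tr hC hk h1
  have h2 := Q_apply (HP_of_Q hC hk hβ _) (Q_of_preserves hC hα a b)
  rw [hβa] at h2
  have h3 : β (α b) = b := Q_unique hC hk h2 (Q_diag hC a b)
  have h4 := hβ (α a) (α b)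
  rwa [hβa, h3] at h4

/-- the top structure group -/
def Zg : Subgroup (Equiv.Perm X) where
  carrier := {α | PreservesCubes C (k + 1) α}
  mul_mem' := by
    intro α β hα hβ
    refine preserves_of_Q hC hk fun x w => ?_
    have h1 := Q_apply (HP_of_preserves hC hα _) (Q_of_preserves hC hβ x w)
    exact h1
  one_mem' := preserves_of_Q hC hk fun x w => Q_diag hC x w
  inv_mem' := fun hα => preserves_symm hC hk hα

lemma mem_Zg {α : Equiv.Perm X} : α ∈ Zg hC hk ↔ PreservesCubes C (k + 1) α := Iff.rfl

lemma Zg_Q (α : Zg hC hk) (x w : X) : Q C k x (α • x) w (α • w) :=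
  Q_of_preserves hC α.2 x w

include hC hk in
lemma perm_of_tr {α : X → X} (hα : ∀ a w, Q C k a (α a) w (α w)) : Function.Bijective α := by
  have inv : ∀ x : X, ∃ β : X → X, (∀ w, β (α w) = w) ∧ ∀ a w, Q C k a (β a) w (β w) := by
    intro x
    obtain ⟨β, hβ, hβa⟩ := exists_tr hC hk (sim_symm (Q_sim₁ hC (hα x x)))
    refine ⟨β, fun w => ?_, hβ⟩
    have h2 := Q_apply (HP_of_Q hC hk hβ _) (hα x w)
    rw [hβa] at h2
    exact Q_unique hC hk h2 (Q_diag hC x w)
  constructor
  · intro a b hab
    obtain ⟨β, hβ, -⟩ := inv a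
    rw [← hβ a, hab, hβ b]
  · intro y
    -- `α` is onto: take the map with displacement inverse
    obtain ⟨β, hβ, hβQ⟩ := inv y
    refine ⟨β y, ?_⟩
    have h1 := Q_apply (HP_of_Q hC hk hα _) (hβQ (α y) y)
    rw [hβ y] at h1
    exact Q_unique hC hk h1 (Q_diag hC _ _)

/-- the structure group is transitive on classes -/
lemma Zg_trans {x y : X} (h : SimRel C k x y) : ∃ z : Zg hC hk, z • x = y := by
  obtain ⟨α, hα, hαx⟩ := exists_tr hC hk h
  exact ⟨⟨Equiv.ofBijective α (perm_of_tr hC hk hα), preserves_of_Q hC hk hα⟩, hαx⟩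

lemma Zg_sim (z : Zg hC hk) (x : X) : SimRel C k x (z • x) := Q_sim₁ hC (Zg_Q hC hk z x x)

/-- freeness -/
lemma Zg_free {z : Zg hC hk} {x : X} (h : z • x = x) : z = 1 := by
  apply Subtype.ext
  apply Equiv.ext
  intro w
  have h1 := Zg_Q hC hk z x w
  rw [h] at h1
  exact Q_unique hC hk h1 (Q_diag hC x w)

/-- maps of height one commute with the structure group -/
lemma Zg_comm_one {g : X → X} (hg : HP C (Option (Fin (k + 1))) 1 g) (z : Zg hC hk) (x : X) :
    g (z • x) = z • g x := by
  have h1 := Q_apply_one hg (Zg_Q hC hk z x x)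
  exact Q_unique hC hk h1 (Zg_Q hC hk z x (g x))

lemma Zg_comm (z₁ z₂ : Zg hC hk) : z₁ * z₂ = z₂ * z₁ := by
  apply Subtype.ext
  apply Equiv.ext
  intro w
  have h1 : HP C (Option (Fin (k + 1))) 1 (z₁ : Equiv.Perm X) :=
    HP_one (HP_of_preserves hC z₁.2 _) (by simp)
  exact Zg_comm_one hC hk h1 z₂ w

instance : CommGroup (Zg hC hk) := { (inferInstance : Group (Zg hC hk)) with
  mul_comm := Zg_comm hC hk }

end zgroup

section star

variable {X : Type u} {C : CubeStructure X} (hC : IsNilspace C) {k : ℕ} (hk : IsStep C (k + 1))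
variable {I : Type} [Fintype I] [DecidableEq I]

/-- parity of the number of zeros -/
def par (v : I → Bool) : Bool := decide (Even (Finset.univ.filter fun i => v i = false).card)

/-- signed element -/
def sgz {G : Type*} [Group G] (b : Bool) (a : G) : G := if b then a else a⁻¹

lemma par_setb {v : I → Bool} {i : I} (hi : v i = false) : par v = !(par (setb v i true)) := by
  have h1 : (Finset.univ.filter fun j => v j = false) =
      insert i (Finset.univ.filter fun j => setb v i true j = false) := by
    ext j
    simp only [Finset.mem_filter, Finset.mem_univ, true_and, Finset.mem_insert]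
    by_cases hj : j = i
    · subst hj; simp [hi]
    · rw [setb_ne _ _ hj]; simp [hj]
  have h2 : i ∉ (Finset.univ.filter fun j => setb v i true j = false) := by
    simp [setb_same]
  unfold par
  rw [h1, Finset.card_insert_of_notMem h2]
  simp only [Nat.even_add_one]
  by_cases h : Even (Finset.univ.filter fun j => setb v i true j = false).card <;> simp [h]

/-- elements preserving all cubes together with their inverses -/
def G0 : Subgroup ((I → Bool) → Zg hC hk) where
  carrier := {z | (∀ c : (I → Bool) → X, CI C c → CI C (fun v => z v • c v)) ∧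
    ∀ c : (I → Bool) → X, CI C c → CI C (fun v => (z v)⁻¹ • c v)}
  mul_mem' := by
    rintro a b ⟨ha, ha'⟩ ⟨hb, hb'⟩
    constructor
    · intro c hc
      have := ha _ (hb c hc)
      simpa only [Pi.mul_apply, mul_smul] using this
    · intro c hc
      have := hb' _ (ha' c hc)
      simpa only [Pi.mul_apply, mul_inv_rev, mul_smul] using this
  one_mem' := by
    constructor <;>
    · intro c hc
      simpa using hc
  inv_mem' := by
    rintro a ⟨ha, ha'⟩
    refine ⟨by simpa using ha', by simpa using ha⟩

variable (hI : Fintype.card I = k + 2)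
include hI

/-- edge elements -/
lemma edge_mem (v : I → Bool) {i : I} (hi : v i = false) (a : Zg hC hk) :
    Pi.mulSingle v a * Pi.mulSingle (setb v i true) a ∈ G0 hC hk (I := I) := by
  have hne : v ≠ setb v i true := by
    intro h
    have := congrFun h i
    rw [setb_same, hi] at this
    exact absurd this (by simp)
  have key : ∀ a : Zg hC hk, ∀ c : (I → Bool) → X, CI C c →
      CI C (fun u => (Pi.mulSingle v a * Pi.mulSingle (setb v i true) a : (I → Bool) → Zg hC hk) u
        • c u) := by
    intro a c hc
    have h1 := HP_of_preserves hC a.2 I ({i}ᶜ) v (by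
      rw [Set.ncard_compl, Set.ncard_singleton, Nat.card_eq_fintype_card, hI]; rfl) c hc
    convert h1 using 1
    funext u
    have hmem : u ∈ face ({i}ᶜ : Set I) v ↔ u = v ∨ u = setb v i true := by
      constructor
      · intro h
        by_cases hui : u i = true
        · right
          funext j
          by_cases hj : j = i
          · rw [hj, setb_same, hui]
          · rw [setb_ne _ _ hj]; exact h j hj
        · left
          funext j
          by_cases hj : j = i
          · rw [hj, hi]; simpa using hui
          · exact h j hj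
      · rintro (rfl | rfl) j hj
        · rfl
        · exact setb_ne _ _ hj
    by_cases hu1 : u = v
    · have h2 : u ∈ face ({i}ᶜ : Set I) v := hmem.2 (Or.inl hu1)
      rw [applyOn_mem h2, Pi.mul_apply, hu1, Pi.mulSingle_eq_same,
        Pi.mulSingle_eq_of_ne hne, mul_one]
      rfl
    · by_cases hu2 : u = setb v i true
      · have h2 : u ∈ face ({i}ᶜ : Set I) v := hmem.2 (Or.inr hu2)
        rw [applyOn_mem h2, Pi.mul_apply, hu2, Pi.mulSingle_eq_same,
          Pi.mulSingle_eq_of_ne hne.symm, one_mul]
        rfl
      · have h2 : u ∉ face ({i}ᶜ : Set I) v := by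
          rw [hmem]; push Not; exact ⟨hu1, hu2⟩
        rw [applyOn_notMem h2, Pi.mul_apply, Pi.mulSingle_eq_of_ne hu1,
          Pi.mulSingle_eq_of_ne hu2, one_mul, one_smul]
  refine ⟨key a, fun c hc => ?_⟩
  have h1 := key a⁻¹ c hc
  convert h1 using 1
  funext u
  congr 1
  rw [Pi.mul_apply, Pi.mul_apply, Pi.mulSingle_inv, Pi.mulSingle_inv, mul_inv]
  rfl

lemma single_mem : ∀ (n : ℕ) (v : I → Bool), (Finset.univ.filter fun i => v i = false).card = n →
    ∀ a : Zg hC hk, Pi.mulSingle v a * (Pi.mulSingle ⊤ (sgz (par v) a))⁻¹ ∈ G0 hC hk (I := I) := by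
  intro n
  induction n with
  | zero =>
    intro v hv a
    have h1 : v = ⊤ := by
      rw [Finset.card_eq_zero] at hv
      funext i
      by_contra h
      have : i ∈ (Finset.univ.filter fun i => v i = false) := by
        simp only [Finset.mem_filter, Finset.mem_univ, true_and]
        simpa using h
      rw [hv] at this
      exact absurd this (by simp)
    have h2 : par v = true := by
      unfold par; rw [hv]; simp
    rw [h2, h1]
    simp only [sgz, if_true, mul_inv_cancel]
    exact (G0 hC hk).one_mem
  | succ n ih =>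
    intro v hv a
    obtain ⟨i, hi⟩ : ∃ i, v i = false := by
      have : (Finset.univ.filter fun i => v i = false).Nonempty := by
        rw [← Finset.card_pos, hv]; omega
      obtain ⟨i, hi⟩ := this
      exact ⟨i, by simpa using hi⟩
    have h1 : (Finset.univ.filter fun j => setb v i true j = false).card = n := by
      have h2 : (Finset.univ.filter fun j => v j = false) =
          insert i (Finset.univ.filter fun j => setb v i true j = false) := by
        ext j
        simp only [Finset.mem_filter, Finset.mem_univ, true_and, Finset.mem_insert]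
        by_cases hj : j = i
        · subst hj; simp [hi]
        · rw [setb_ne _ _ hj]; simp [hj]
      have h3 : i ∉ (Finset.univ.filter fun j => setb v i true j = false) := by
        simp [setb_same]
      rw [h2, Finset.card_insert_of_notMem h3] at hv
      omega
    have h2 := ih (setb v i true) h1 a
    have h3 := edge_mem hC hk hI v hi a
    have h4 := (G0 hC hk).mul_mem h3 ((G0 hC hk).inv_mem h2)
    convert h4 using 1
    have h5 : sgz (par v) a = (sgz (par (setb v i true)) a)⁻¹ := by
      rw [par_setb hi]
      cases par (setb v i true) <;> simp [sgz]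
    rw [h5, Pi.mulSingle_inv, inv_inv, mul_inv, inv_inv]
    rw [mul_assoc, mul_inv_cancel_left]

/-- star property -/
lemma star_prop {c : (I → Bool) → X} (hc : CI C c) {z : (I → Bool) → Zg hC hk}
    (hz : CI C (fun v => z v • c v)) : ∏ v, sgz (par v) (z v) = 1 := by
  set P := ∏ v, sgz (par v) (z v) with hP
  have h1 : z * (Pi.mulSingle ⊤ P)⁻¹ ∈ G0 hC hk (I := I) := by
    have h2 : z * (Pi.mulSingle ⊤ P)⁻¹ =
        ∏ v, (Pi.mulSingle v (z v) * (Pi.mulSingle ⊤ (sgz (par v) (z v)))⁻¹) := by
      rw [Finset.prod_mul_distrib, Finset.univ_prod_mulSingle, Finset.prod_inv_distrib]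
      congr 2
      rw [hP]
      exact map_prod (MonoidHom.mulSingle (fun _ : I → Bool => Zg hC hk) ⊤) _ _
    rw [h2]
    exact (G0 hC hk).prod_mem fun v _ => single_mem hC hk hI _ v rfl (z v)
  have h3 := h1.1 c hc
  have h4 := CI_unique hC hk (I := I) (by rw [Nat.card_eq_fintype_card, hI]) h3 hz (by
    intro v hv
    rw [Pi.mul_apply, Pi.inv_apply, Pi.mulSingle_eq_of_ne hv, inv_one, mul_one])
  have h5 := congrFun h4 ⊤
  simp only [Pi.mul_apply, Pi.inv_apply, Pi.mulSingle_eq_same] at h5
  rw [mul_comm, mul_smul] at h5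
  have h6 := Zg_free hC hk h5
  exact inv_eq_one.1 h6

end star

section translations

variable {X : Type u} {C : CubeStructure X} (hC : IsNilspace C) {k : ℕ}

/-- a height one map can be applied at all the vertices -/
lemma preserves_all {α : X → X} (hα : PreservesCubes C 1 α) {n : ℕ} {c : Cube (n + 1) → X}
    (hc : c ∈ C (n + 1)) : (fun v => α (c v)) ∈ C (n + 1) := by
  have h1 := hα (n + 1) {v | ∀ i ∈ ({0} : Finset (Fin (n + 1))), v i = (fun _ => true) i}
    ⟨{0}, _, rfl, rfl⟩ c hc
  have h2 := hα (n + 1) {v | ∀ i ∈ ({0} : Finset (Fin (n + 1))), v i = (fun _ => false) i}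
    ⟨{0}, _, rfl, rfl⟩ _ h1
  convert h2 using 1
  funext v
  by_cases hv : v 0 = true
  · have e1 : v ∉ {v : Cube (n + 1) | ∀ i ∈ ({0} : Finset (Fin (n + 1))),
        v i = (fun _ => false) i} := by
      intro h
      have := h 0 (by simp)
      rw [hv] at this
      exact absurd this (by simp)
    have e2 : v ∈ {v : Cube (n + 1) | ∀ i ∈ ({0} : Finset (Fin (n + 1))),
        v i = (fun _ => true) i} := by
      intro i hi
      rw [Finset.mem_singleton] at hi
      rw [hi, hv]
    rw [applyOn_notMem e1, applyOn_mem e2]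
  · have hv' : v 0 = false := by simpa using hv
    have e1 : v ∈ {v : Cube (n + 1) | ∀ i ∈ ({0} : Finset (Fin (n + 1))),
        v i = (fun _ => false) i} := by
      intro i hi
      rw [Finset.mem_singleton] at hi
      rw [hi, hv']
    have e2 : v ∉ {v : Cube (n + 1) | ∀ i ∈ ({0} : Finset (Fin (n + 1))),
        v i = (fun _ => true) i} := by
      intro h
      exact hv (h 0 (by simp))
    rw [applyOn_mem e1, applyOn_notMem e2]

lemma sim_map {α : X → X} (hα : PreservesCubes C 1 α) {x y : X} (h : SimRel C k x y) :
    SimRel C k (α x) (α y) := by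
  obtain ⟨c, hc, d, hd, hcd, rfl, rfl⟩ := h
  exact ⟨_, preserves_all hα hc, _, preserves_all hα hd, fun v hv => by rw [hcd v hv], rfl, rfl⟩

/-- the induced map on the factor -/
def factorMap {α : X → X} (hα : PreservesCubes C 1 α) : Factor C k → Factor C k :=
  Quot.map α fun _ _ h => sim_map hα h

lemma factorMap_mk {α : X → X} (hα : PreservesCubes C 1 α) (x : X) :
    factorMap (k := k) hα (toFactor C k x) = toFactor C k (α x) := rfl

lemma factorMap_preserves {α : X → X} (hα : PreservesCubes C 1 α) :
    PreservesCubes (factorCubes C k) 1 (factorMap (k := k) hα) := by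
  rintro n F hF _ ⟨d, hd, rfl⟩
  refine ⟨_, hα n F hF d hd, ?_⟩
  funext v
  by_cases hv : v ∈ F
  · rw [applyOn_mem hv, applyOn_mem hv, factorMap_mk]
  · rw [applyOn_notMem hv, applyOn_notMem hv]

end translations

end Nil75
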